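import Pool.Agent.Lib.MP_9f2731_nt.SS.Defs

/-!
MP_9f2731_nt, SS (helper14), chapter Rc: the relative counting theorem in windows, DhjStmt → RcStmt. Rules: a module
`X.lean` in this directory starts with `import Pool.Agent.Lib.MP_9f2731_nt.SS.SpecB`,
`namespace Pool.Agent.Lib.MP_9f2731_nt.SS`, `open Finset`, `open Pool.Agent.Lib.MP_9f2731_nt.GP`,
`open Pool.Agent.Lib.MP_9f2731_nt.GP.Rel (av Ind pk HLFC Cut CutG)` and proves the theorem `pX`; statements under Uses are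
hypotheses in this order. All modules are independent.
-/

open Finset

namespace Pool.Agent.Lib.MP_9f2731_nt.SS

open Pool.Agent.Lib.MP_9f2731_nt.GP
open Pool.Agent.Lib.MP_9f2731_nt.GP.Rel (av Ind pk HLFC Cut CutG)

/-- **Szm** (Szemeredi's theorem). Uses: DhjStmt. Proof. n from DhjStmt for (k, δ/2), D0 a natural number with `D0 ≥ 1`, `D0 ≥ 2 n k / δ`. For `b < D0` let `A_b` be the set of the words
`w : Fin n → Fin k` with `b + ∑ w ∈ A`. For a fixed word w (s = ∑ w ≤ n k) the number of `b < D0` with `b + s ∈ A` is the number of `m ∈ A` with `m ≥ s` (then m - s < D0), at least `card A - s`. So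
`∑_(b < D0) card A_b ≥ k^n (card A - n k) ≥ k^n (δ/2) D0`, and some b has `card A_b ≥ (δ/2) k^n`. The line `lineMap w` gives `b + c + i d ∈ A`, c = the sum of the fixed letters, d = the number
of wildcards. -/
def S_Szm : Prop :=
  ∀ (k : ℕ) (δ : ℝ), 1 ≤ k → 0 < δ → ∃ D0 : ℕ, 1 ≤ D0 ∧ ∀ A : Finset ℕ, A ⊆ range D0 →
    δ * D0 ≤ (A.card : ℝ) → ∃ e0 d : ℕ, 1 ≤ d ∧ ∀ j : ℕ, j < k → e0 + j * d ∈ A

/-- **Pos** (positivity). Uses: S_Szm. Proof. D from S_Szm for (k, δ/4), `c = (δ/4) (δ/2)^k / (D (D+1))`. Fix a in Q. For h let `E(h) = {e < D : f e (2^e a + h) ≥ δ/2}`. For fixed e the map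
`h ↦ 2^e a + h` is a bijection, so `∑_h ∑_(e<D) f e (2^e a + h) = ∑_(e<D) ∑_x f e x ≥ δ D N`, and `∑_(e<D) f e (2^e a + h) ≤ card E(h) + (δ/2) D`, `card E(h) ≤ D`. So
`∑_h card E(h) ≥ (δ/2) D N` and at least `(δ/4) N` of the h have `card E(h) ≥ (δ/4) D` (otherwise the sum is `< (δ/4) N D + N (δ/4) D`). For these h there is a progression `e0 + j d`, `j < k`, in E(h) (so
`d < D` as `k ≥ 2`, `e0 + (k-1) d < D`), its product is `≥ (δ/2)^k`. Sum over a in Q, over h and over the at most `D (D+1)` pairs (e0, d): one pair has the sum `≥ c card Q N` (pigeonhole; all products are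
nonnegative). If `card Q = 0` any pair with `d ≥ 1` admissible is needed: D ≥ 1 and the hypothesis for A = range D (δ/4 ≤ 1 because `δ D N ≤ D N`) show that an admissible pair exists. -/
def S_Pos : Prop :=
  ∀ (k : ℕ) (δ : ℝ), 2 ≤ k → 0 < δ → ∃ D : ℕ, 1 ≤ D ∧ ∃ c : ℝ, 0 < c ∧ ∀ (N : ℕ) [NeZero N]
    (f : ℕ → ZMod N → ℝ) (Q : Finset (ZMod N)), (∀ e x, 0 ≤ f e x ∧ f e x ≤ 1) →
    δ * D * N ≤ ∑ e ∈ range D, ∑ x : ZMod N, f e x →
    ∃ e0 d : ℕ, 1 ≤ d ∧ e0 + (k - 1) * d < D ∧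
      c * Q.card * N ≤ ∑ a ∈ Q, ∑ h : ZMod N, ∏ j ∈ range k, f (e0 + j * d) (2 ^ (e0 + j * d) * a + h)

/-- **Cut** (change of variables). Uses: nothing. Proof as GP/Rel/Cfm.lean, direction (→). The coefficient of `x j` in `Lf k ex j x` is 0, the coefficient of `x (j.succAbove a)` is
`2^(ex j) - 2^(ex l) ≠ 0` if `j.succAbove a = l < k` and 1 if it is the last vertex; N is prime, so all these coefficients `c a` are units. For v in ZMod N and y : Fin k → ZMod N let x = x(v,y): `x j = v`,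
`x (j.succAbove a) = (c a)⁻¹ * y a`. This is a bijection `ZMod N × (Fin k → ZMod N) ≃ (Fin (k+1) → ZMod N)` with `Lf k ex j x = ∑ y`. For fixed v the functions `h'_a y = h (j.succAbove a) (x(v,y))` are
independent of `y a`, so the mean over y is at most τ in absolute value by CutG. -/
def S_Cut : Prop :=
  ∀ (k N : ℕ) [NeZero N] (ex : ℕ → ℕ) (j : Fin (k + 1)) (u : ZMod N → ℝ) (τ : ℝ), (j : ℕ) < k →
    N.Prime → (∀ l l' : ℕ, l < k → l' < k → l ≠ l' → (2 : ZMod N) ^ ex l ≠ 2 ^ ex l') →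
    CutG k τ u → Cut j τ (fun x => u (Lf k ex j x))

/-- **Cfg** (the pattern). Uses: nothing. Proof. `Lf k ex j x = 2^(ex j) a + h` with `a = ∑_(l<k) x l.castSucc`, `h = x (last) - ∑_(l<k) 2^(ex l) x l.castSucc`. For fixed `x l`, 1 ≤ l < k, the map
`(x 0, x last) ↦ (a, h)` is a bijection of `ZMod N × ZMod N` (`a = x 0 + const`, `h = x last - 2^(ex 0) x 0 + const`), so every pair has `N^(k-1)` preimages. (The product over `Fin (k+1)` is
the product over `j < k` times the last factor: Fin.prod_univ_castSucc.) -/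
def S_Cfg : Prop :=
  ∀ (k N : ℕ) [NeZero N] (f : ℕ → ZMod N → ℝ) (q : ZMod N → ℝ) (ex : ℕ → ℕ), 1 ≤ k →
    av (fun x : Fin (k + 1) → ZMod N => ∏ j, gW k f q ex j x) =
      (∑ a : ZMod N, ∑ h : ZMod N, q a * ∏ j ∈ range k, f (ex j) (2 ^ ex j * a + h)) /
        (N : ℝ) ^ 2

/-- **Fnl** (relative counting theorem). Uses: S_Pos, GP.Rel.ClStmt, GP.Rel.DmtStmt, GP.Rel.NucStmt, S_Cut, S_Cfg. Proof. (D, c) from S_Pos for (k, δ/2); `c' = c/2^(D+4)`; (η1, τ1) from ClStmt for (k+1, c'/2); τ2 from DmtStmt for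
(r = k, ε = min τ1 (δ/2)); η2 from NucStmt for (r = k, τ2); `η = min η1 η2`, N0 larger than k and `2^(D+5)`. Given ν, f: for e < D NucStmt (LFC is monotone in η; n • is injective for 1 ≤ n ≤ k < N, N prime) gives
CutG k τ2 (ν e - 1), DmtStmt gives `f' e` in [0,1] with CutG k ε (f e - f' e); put `f' e = 0` for `e ≥ D`. CutG with h = 1: `|av (f e) - av (f' e)| ≤ δ/2` (the mean over y : Fin k → ZMod N of u(∑ y) is av u, as in GP/Rel/Fnl.lean), so
`∑_(e<D) ∑_x f' e x ≥ (δ/2) D N`. S_Pos for `Q = {a : 1 ≤ a.val, a.val 2^(D+3) < N}`, `card Q ≥ N/2^(D+3) - 1 ≥ N/2^(D+4)`: (e0, d) with `c card Q N ≤ ∑_(a∈Q) ∑_h ∏ f'`. ex = pr e0 d; for `l ≠ l' < k` the exponents are different and < D,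
so `2^(ex l) ≠ 2^(ex l')` in ZMod N (different natural numbers < 2^D < N). With q = indicator of Q: `g = gW k f q ex`, `g' = gW k f' q ex`, weight `gW k ν (fun _ => 1) ex`: g j does not depend on x j (the coefficient of x j is 0; the last one
does not contain x (last)), 0 ≤ g ≤ weight, 0 ≤ g' ≤ 1, HLFC η1 (monotone), Cut j τ1 (g j - g' j) by S_Cut for j < k, and for the last vertex g j = g' j. ClStmt: `|av ∏ g - av ∏ g'| ≤ c'/2`; by S_Cfg `av ∏ g' ≥ c card Q/N ≥ c'`. So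
`av ∏ g > 0`, and by S_Cfg some (a,h) has `q a ≠ 0` and all `f (ex j) (2^(ex j) a + h) ≠ 0`, hence > 0. -/
def S_Fnl : Prop := RcStmt

end Pool.Agent.Lib.MP_9f2731_nt.SS
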