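import Pool.Agent.Lib.MP_9f2731_nt.SS.SpecB

/-!
MP_9f2731_nt, SS, module Szm: Szemeredi's theorem from the density Hales-Jewett theorem.
-/

set_option autoImplicit false

namespace Pool.Agent.Lib.MP_9f2731_nt.SS

open Finset
open Pool.Agent.Lib.MP_9f2731_nt.GP
open Pool.Agent.Lib.MP_9f2731_nt.GP.Rel (av Ind pk HLFC Cut CutG)

private theorem Szm_line {k n : ℕ} (w : Fin n → Option (Fin k)) (i : Fin k) :
    ∑ t, ((lineMap w i t : Fin k) : ℕ) =
      (∑ t, (w t).elim 0 (fun a => (a : ℕ))) + (i : ℕ) * (univ.filter fun t => w t = none).card := by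
  have h1 : ∀ t, ((lineMap w i t : Fin k) : ℕ) =
      (w t).elim 0 (fun a => (a : ℕ)) + (i : ℕ) * (if w t = none then 1 else 0) := by
    intro t
    unfold lineMap
    cases w t with
    | none => simp
    | some a => simp
  simp only [h1]
  rw [Finset.sum_add_distrib, ← Finset.mul_sum, Finset.card_filter]

/-- the translates of A by s lose at most s elements -/
private theorem Szm_shift (A : Finset ℕ) (D s : ℕ) (hA : A ⊆ range D) :
    A.card ≤ ((range D).filter fun b => b + s ∈ A).card + s := by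
  have h1 : A ⊆ (((range D).filter fun b => b + s ∈ A).image fun b => b + s) ∪ range s := by
    intro m hm
    rw [mem_union, mem_image, mem_range]
    by_cases hs : m < s
    · exact Or.inr hs
    · refine Or.inl ⟨m - s, ?_, by omega⟩
      rw [mem_filter, mem_range]
      have h2 := mem_range.1 (hA hm)
      have h3 : m - s + s = m := by omega
      rw [h3]
      exact ⟨by omega, hm⟩
  calc A.card ≤ _ := card_le_card h1
    _ ≤ _ := card_union_le _ _
    _ ≤ _ := by
      rw [card_range]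
      exact Nat.add_le_add_right card_image_le s

theorem pSzm (hD : DhjStmt) : S_Szm := by
  classical
  intro k δ hk hδ
  obtain ⟨n, hn⟩ := hD k (δ / 2) (by positivity)
  obtain ⟨D0, hD1, hD2⟩ : ∃ D0 : ℕ, 1 ≤ D0 ∧ (n : ℝ) * k ≤ δ / 2 * D0 := by
    refine ⟨⌈2 * (n * k) / δ⌉₊ + 1, by omega, ?_⟩
    have h1 : 2 * ((n : ℝ) * k) / δ ≤ (⌈2 * ((n : ℝ) * k) / δ⌉₊ : ℝ) := Nat.le_ceil _
    rw [div_le_iff₀ hδ] at h1
    push_cast
    nlinarith
  refine ⟨D0, hD1, fun A hA hc => ?_⟩
  have hkpos : (0 : ℝ) < k := by exact_mod_cast hk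
  have hkn : (0 : ℝ) < (k : ℝ) ^ n := by positivity
  -- the sets of words
  set Aw : ℕ → Finset (Fin n → Fin k) := fun b =>
    univ.filter fun w => b + ∑ t, ((w t : Fin k) : ℕ) ∈ A with hAw
  have hdouble : k ^ n * A.card ≤ ∑ b ∈ range D0, (Aw b).card + k ^ n * (n * k) := by
    have h1 : ∑ b ∈ range D0, (Aw b).card = ∑ w : Fin n → Fin k,
        ((range D0).filter fun b => b + ∑ t, ((w t : Fin k) : ℕ) ∈ A).card := by
      simp only [hAw, Finset.card_filter]
      rw [Finset.sum_comm]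
    have h2 : ∀ w : Fin n → Fin k, A.card ≤
        ((range D0).filter fun b => b + ∑ t, ((w t : Fin k) : ℕ) ∈ A).card + n * k := by
      intro w
      have h3 : ∑ t, ((w t : Fin k) : ℕ) ≤ n * k := by
        calc ∑ t, ((w t : Fin k) : ℕ) ≤ ∑ _t : Fin n, k :=
              Finset.sum_le_sum fun t _ => (w t).2.le
          _ = n * k := by simp
      exact (Szm_shift A D0 _ hA).trans (Nat.add_le_add_left h3 _)
    have h4 := Finset.sum_le_sum fun (w : Fin n → Fin k) (_ : w ∈ univ) => h2 w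
    rw [Finset.sum_add_distrib, ← h1] at h4
    simpa only [Finset.sum_const, Finset.card_univ, smul_eq_mul, Fintype.card_fun,
      Fintype.card_fin] using h4
  obtain ⟨b, _, hb⟩ : ∃ b ∈ range D0, δ / 2 * (k : ℝ) ^ n ≤ ((Aw b).card : ℝ) := by
    by_contra hcon
    push Not at hcon
    have h1 : ∑ b ∈ range D0, ((Aw b).card : ℝ) < ∑ _b ∈ range D0, δ / 2 * (k : ℝ) ^ n :=
      Finset.sum_lt_sum_of_nonempty ⟨0, mem_range.2 (by omega)⟩ hcon
    rw [Finset.sum_const, card_range, nsmul_eq_mul] at h1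
    have h2 : (k : ℝ) ^ n * A.card ≤ ∑ b ∈ range D0, ((Aw b).card : ℝ) +
        (k : ℝ) ^ n * (n * k) := by exact_mod_cast hdouble
    have h3 : (k : ℝ) ^ n * (n * k) ≤ (k : ℝ) ^ n * (δ / 2 * D0) :=
      mul_le_mul_of_nonneg_left hD2 hkn.le
    have h4 : (k : ℝ) ^ n * (δ * D0) ≤ (k : ℝ) ^ n * A.card :=
      mul_le_mul_of_nonneg_left hc hkn.le
    nlinarith
  obtain ⟨w, hw1, hw2⟩ := hn (Aw b) hb
  refine ⟨b + ∑ t, (w t).elim 0 (fun a => (a : ℕ)), (univ.filter fun t => w t = none).card, ?_, ?_⟩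
  · obtain ⟨t, ht⟩ := hw1
    exact Finset.card_pos.2 ⟨t, by simp [ht]⟩
  · intro j hj
    have h1 := (Finset.mem_filter.1 (hw2 ⟨j, hj⟩)).2
    rw [Szm_line, ← add_assoc] at h1
    exact h1

end Pool.Agent.Lib.MP_9f2731_nt.SS
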