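import Pool.Agent.Lib.MP_9f2731_nt.SS.SpecC

/-!
MP_9f2731_nt, SS, module Bas (helper75, adapted from GP/Asm/Bas): the main step.
-/

set_option autoImplicit false

namespace Pool.Agent.Lib.MP_9f2731_nt.SS

open Finset
open Pool.Agent.Lib.MP_9f2731_nt.GP
open Pool.Agent.Lib.MP_9f2731_nt.GP.Rel (av Ind pk HLFC Cut CutG)
open Pool.Agent.Lib.MP_9f2731_nt.GP.Asm (eb lfm)

private theorem Bas_mono {α : Type} [Fintype α] (f g : α → ℝ) (h : ∀ x, f x ≤ g x) :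
    av f ≤ av g := by
  unfold GP.Rel.av
  exact div_le_div_of_nonneg_right (sum_le_sum fun x _ => h x) (Nat.cast_nonneg _)

private theorem Bas_nonneg {α : Type} [Fintype α] (f : α → ℝ) (h : ∀ x, 0 ≤ f x) : 0 ≤ av f := by
  unfold GP.Rel.av
  exact div_nonneg (sum_nonneg fun x _ => h x) (Nat.cast_nonneg _)

private theorem Bas_ebdiv (X : ℕ) (f : ℕ → ℝ) (c : ℝ) : eb X (fun b => f b / c) = eb X f / c := by
  unfold GP.Asm.eb
  rw [← Finset.sum_div, div_right_comm]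

open Classical in
/-- selection of a good `b` -/
private theorem Bas_select (hS : GP.Asm.SelStmt) (X : ℕ) (hX : 1 ≤ X) {ι : Type} (I : Finset ι)
    (F V : ℕ → ℝ) (g : ι → ℕ → ℝ) (δ η2 θ : ℝ) (hδ : 0 < δ) (hη2 : 0 < η2)
    (hFV : ∀ b, 0 ≤ F b ∧ F b ≤ V b) (h2 : 2 * δ ≤ eb X F) (h3 : eb X (fun b => V b ^ 2) ≤ 2)
    (hg0 : ∀ i ∈ I, ∀ b, 0 ≤ g i b) (hg : ∀ i ∈ I, eb X (g i) ≤ θ)
    (hn : (I.card : ℝ) * θ / η2 ≤ δ ^ 2 / 8) :
    ∃ b : ℕ, 1 ≤ b ∧ δ ≤ F b ∧ ∀ i ∈ I, g i b ≤ η2 := by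
  have hX0 : (0 : ℝ) < X := Nat.cast_pos.2 (by omega)
  have c1 : δ ^ 2 / 2 * X ≤ (((Icc 1 X).filter (fun b => δ ≤ F b)).card : ℝ) := by
    refine le_trans (hS.1 X F V δ hX hδ hFV h2 h3) (le_of_eq ?_)
    congr 2
  have c2 : ∀ i ∈ I, (((Icc 1 X).filter (fun b => η2 < g i b)).card : ℝ) ≤ X * θ / η2 := by
    intro i hi
    have h := hS.2 X (g i) η2 hX hη2 (hg0 i hi)
    have h' : (X : ℝ) * eb X (g i) / η2 ≤ X * θ / η2 :=
      div_le_div_of_nonneg_right (mul_le_mul_of_nonneg_left (hg i hi) hX0.le) hη2.le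
    refine le_trans (le_of_eq ?_) (h.trans h')
    congr 2
  by_contra hcon
  push Not at hcon
  have hsub : (Icc 1 X).filter (fun b => δ ≤ F b) ⊆
      I.biUnion fun i => (Icc 1 X).filter (fun b => η2 < g i b) := by
    intro b hb
    rw [mem_filter] at hb
    obtain ⟨i, hi, hgi⟩ := hcon b (mem_Icc.1 hb.1).1 hb.2
    exact mem_biUnion.2 ⟨i, hi, mem_filter.2 ⟨hb.1, hgi⟩⟩
  have h7 : (((Icc 1 X).filter (fun b => δ ≤ F b)).card : ℝ) ≤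
      ((I.biUnion fun i => (Icc 1 X).filter (fun b => η2 < g i b)).card : ℝ) := by
    exact_mod_cast card_le_card hsub
  have h9 : ((I.biUnion fun i => (Icc 1 X).filter (fun b => η2 < g i b)).card : ℝ) ≤
      ∑ i ∈ I, (((Icc 1 X).filter (fun b => η2 < g i b)).card : ℝ) := by
    exact_mod_cast card_biUnion_le
  have h10 : ∑ i ∈ I, (((Icc 1 X).filter (fun b => η2 < g i b)).card : ℝ) ≤
      ∑ _i ∈ I, X * θ / η2 := sum_le_sum c2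
  rw [sum_const, nsmul_eq_mul] at h10
  have h11 : (I.card : ℝ) * (X * θ / η2) = X * (I.card * θ / η2) := by ring
  rw [h11] at h10
  have h12 := mul_le_mul_of_nonneg_left hn hX0.le
  have h13 : 0 < δ ^ 2 * X := by positivity
  linarith

/-- large parameters -/
private theorem Bas_large (C2 : ℝ) (hC2 : 0 < C2) (Q : ℕ) (hQ : 3 ≤ Q) (N0 : ℕ) (X0 : ℝ) :
    ∃ Z0 : ℕ, ∀ Z : ℕ, Z0 ≤ Z → X0 ≤ ((2 * Z / Q + 1 : ℕ) : ℝ) ∧ 2 * Z / Q + 1 ≤ Z ∧ ∃ N : ℕ,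
      Scl (C2 + 2) (2 * Z / Q + 1) N ∧ N0 ≤ N ∧ Q * (2 * N) ≤ Z ∧
        ((Q * N : ℕ) : ℝ) ≤ (Real.log Z) ^ (C2 + 4) := by
  have hlog : Filter.Tendsto (fun X : ℕ => Real.log (X : ℝ)) Filter.atTop Filter.atTop :=
    Real.tendsto_log_atTop.comp (tendsto_natCast_atTop_atTop (R := ℝ))
  have t1 := ((tendsto_rpow_atTop (show 0 < C2 + 2 by linarith)).comp hlog).eventually
    (Filter.eventually_ge_atTop (max (N0 : ℝ) 1))
  rw [Filter.eventually_atTop] at t1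
  obtain ⟨X1, hX1⟩ := t1
  have t2 := ((isLittleO_log_rpow_rpow_atTop (C2 + 2) (one_pos : (0 : ℝ) < 1)).bound
    (show (0 : ℝ) < 1 / (8 * Q) by positivity))
  have t2' := (tendsto_natCast_atTop_atTop (R := ℝ)).eventually t2
  have t3 := hlog.eventually (Filter.eventually_ge_atTop (4 * (Q : ℝ)))
  have t := (t2'.and t3).and (Filter.eventually_ge_atTop
    (max 3 (Q * (max X1 ⌈X0⌉₊))))
  rw [Filter.eventually_atTop] at t
  obtain ⟨Z0, hZ0⟩ := t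
  refine ⟨Z0, fun Z hZ => ?_⟩
  obtain ⟨⟨c2, c3⟩, c4⟩ := hZ0 Z hZ
  have hZ3 : 3 ≤ Z := (le_max_left _ _).trans c4
  have hZQ : Q * max X1 ⌈X0⌉₊ ≤ Z := (le_max_right _ _).trans c4
  obtain ⟨X, hX⟩ : ∃ X : ℕ, X = 2 * Z / Q + 1 := ⟨_, rfl⟩
  have hXge : max X1 ⌈X0⌉₊ ≤ X := by
    rw [hX]
    have h1 : max X1 ⌈X0⌉₊ ≤ 2 * Z / Q := by
      rw [Nat.le_div_iff_mul_le (by omega), mul_comm]
      omega
    omega
  have hXle : X ≤ Z := by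
    rw [hX]
    have h1 : 2 * Z / Q ≤ 2 * Z / 3 := Nat.div_le_div_left hQ (by omega)
    omega
  rw [← hX]
  have hXX1 : X1 ≤ X := (le_max_left _ _).trans hXge
  have hXX0 : X0 ≤ (X : ℝ) := by
    have h1 : ⌈X0⌉₊ ≤ X := (le_max_right _ _).trans hXge
    exact (Nat.le_ceil X0).trans (by exact_mod_cast h1)
  have h5 := hX1 X hXX1
  simp only [Function.comp_apply] at h5
  obtain ⟨L, hL⟩ : ∃ L : ℝ, L = (Real.log (X : ℝ)) ^ (C2 + 2) := ⟨_, rfl⟩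
  rw [← hL] at h5
  have hL1 : 1 ≤ L := (le_max_right _ _).trans h5
  have hLN : (N0 : ℝ) ≤ L := (le_max_left _ _).trans h5
  have hn0 : ⌈L⌉₊ ≠ 0 := by
    have := Nat.le_ceil L
    intro h
    rw [h, Nat.cast_zero] at this
    linarith
  obtain ⟨N, hN, hN1, hN2⟩ := Nat.exists_prime_lt_and_le_two_mul ⌈L⌉₊ hn0
  have hNL : L ≤ N := (Nat.le_ceil L).trans (by exact_mod_cast hN1.le)
  have hNU : (N : ℝ) ≤ 4 * L := by
    have h6 : (N : ℝ) ≤ 2 * ⌈L⌉₊ := by exact_mod_cast hN2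
    have h7 := (Nat.ceil_lt_add_one (show 0 ≤ L by linarith)).le
    linarith
  have hXpos : (0 : ℝ) < X := by
    have : 1 ≤ X := by rw [hX]; exact Nat.le_add_left 1 _
    exact_mod_cast this
  have hlogX0 : 0 ≤ Real.log (X : ℝ) := Real.log_natCast_nonneg X
  have hlogXZ : Real.log (X : ℝ) ≤ Real.log (Z : ℝ) :=
    Real.log_le_log hXpos (by exact_mod_cast hXle)
  have hLZ : L ≤ (Real.log (Z : ℝ)) ^ (C2 + 2) := by
    rw [hL]
    exact Real.rpow_le_rpow hlogX0 hlogXZ (by linarith)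
  have hlogZ0 : 0 ≤ Real.log (Z : ℝ) := hlogX0.trans hlogXZ
  have hQ0 : (0 : ℝ) < Q := Nat.cast_pos.2 (by omega)
  rw [Real.rpow_one, Real.norm_of_nonneg (Real.rpow_nonneg hlogZ0 _),
    Real.norm_of_nonneg (Nat.cast_nonneg Z)] at c2
  have hZ8 : 8 * Q * (Real.log (Z : ℝ)) ^ (C2 + 2) ≤ Z := by
    have h8 : (1 / (8 * (Q : ℝ))) * Z = Z / (8 * Q) := by ring
    rw [h8, le_div_iff₀ (by positivity)] at c2
    linarith
  refine ⟨hXX0, hXle, N, ⟨hN, ?_, ?_⟩, ?_, ?_, ?_⟩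
  · rw [← hL]
    exact hNL
  · rw [← hL]
    exact hNU
  · have h9 : (N0 : ℝ) ≤ N := hLN.trans hNL
    exact_mod_cast h9
  · have h10 : (Q : ℝ) * (2 * N) ≤ Z := by
      have h11 : (Q : ℝ) * (2 * N) ≤ Q * (2 * (4 * (Real.log (Z : ℝ)) ^ (C2 + 2))) := by
        refine mul_le_mul_of_nonneg_left ?_ hQ0.le
        linarith
      linarith
    exact_mod_cast h10
  · have hQ1 : (3 : ℝ) ≤ Q := by exact_mod_cast hQ
    have hlogZ1 : 0 < Real.log (Z : ℝ) := by linarith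
    have h12 : (Real.log (Z : ℝ)) ^ (C2 + 4) =
        (Real.log (Z : ℝ)) ^ 2 * (Real.log (Z : ℝ)) ^ (C2 + 2) := by
      rw [← Real.rpow_natCast, ← Real.rpow_add hlogZ1]
      congr 1
      push_cast
      ring
    have h13 : 4 * (Q : ℝ) ≤ (Real.log (Z : ℝ)) ^ 2 := by nlinarith
    rw [h12, Nat.cast_mul]
    calc (Q : ℝ) * N ≤ Q * (4 * (Real.log (Z : ℝ)) ^ (C2 + 2)) :=
          mul_le_mul_of_nonneg_left (by linarith) hQ0.le
      _ = 4 * Q * (Real.log (Z : ℝ)) ^ (C2 + 2) := by ring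
      _ ≤ (Real.log (Z : ℝ)) ^ 2 * (Real.log (Z : ℝ)) ^ (C2 + 2) :=
          mul_le_mul_of_nonneg_right h13 (Real.rpow_nonneg hlogZ0 _)

open Classical in
private theorem Bas_fb {M w b0 X b N e : ℕ} {κ : ℝ} {A : Finset ℕ} {y : ZMod N}
    (h : 0 < fb M w κ b0 X b A e y) :
    N ≤ 4 * y.val ∧ 2 * y.val < N ∧ nl (fo M w b0 e y) b ∈ A := by
  by_contra hcon
  unfold fb at h
  rw [if_neg hcon] at h
  exact lt_irrefl _ h

theorem pBas (hR : RcStmt) (hG : S_Gen) (hF : S_Fob) (h1 : S_Lf1) (h2 : S_Lf2) (hS : S_Sec)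
    (hM : S_Maj) (hD : S_Den) (hP : S_Pts) (hSel : GP.Asm.SelStmt) : S_Bas := by
  classical
  intro k hk
  have h2k : 1 ≤ 2 ^ (k + 1) := Nat.one_le_two_pow
  obtain ⟨J, hJ⟩ : ∃ J : ℕ, J = 2 * ((k + 1) * 2 ^ (k + 1)) := ⟨_, rfl⟩
  have hJ2 : 2 ≤ J := by
    rw [hJ]
    have : 1 ≤ (k + 1) * 2 ^ (k + 1) := Nat.mul_pos (by omega) (by omega)
    omega
  obtain ⟨κ, C, C2, hGen⟩ := hG J (by omega)
  have hκ0 : 0 < κ := hGen.1
  have hκ1 : κ < 1 := hGen.2.1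
  have hC2 : 0 < C2 := hGen.2.2.2.1
  refine ⟨C2 + 4, by linarith, fun δ hδ => ?_⟩
  obtain ⟨δ1, hδ1⟩ : ∃ δ1 : ℝ, δ1 = κ * δ / 200 := ⟨_, rfl⟩
  have hδ10 : 0 < δ1 := by rw [hδ1]; positivity
  obtain ⟨D, hD1, η, N0, hη, hRc⟩ := hR k δ1 (by omega) hδ10
  refine ⟨D, hD1, fun M hM1 => ?_⟩
  -- the conditions
  obtain ⟨SS, hSS⟩ : ∃ SS : Finset (Finset (Fin (k + 1) × (Fin (k + 1) → Bool))),
      ∀ S, S ∈ SS ↔ ∀ p ∈ S, p.2 p.1 = false :=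
    ⟨univ.filter (fun S => ∀ p ∈ S, p.2 p.1 = false), fun S => by
      rw [mem_filter]
      exact ⟨fun h => h.2, fun h => ⟨mem_univ _, h⟩⟩⟩
  obtain ⟨I, hI⟩ : ∃ I : Finset ((ℕ × Finset (Fin (k + 1) × (Fin (k + 1) → Bool))) ⊕
      ((ℕ × ℕ) × Finset (Fin (k + 1) × (Fin (k + 1) → Bool)))),
      I = (range D ×ˢ SS).disjSum (((range D ×ˢ range D).filter
        (fun p => 1 ≤ p.2 ∧ p.1 + (k - 1) * p.2 < D)) ×ˢ SS) := ⟨_, rfl⟩
  have hI1 : ∀ e S, Sum.inl (e, S) ∈ I ↔ e < D ∧ S ∈ SS := by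
    intro e S
    rw [hI, inl_mem_disjSum, mem_product, mem_range]
  have hI2 : ∀ e d S, Sum.inr ((e, d), S) ∈ I ↔ ((e < D ∧ d < D) ∧ 1 ≤ d ∧
      e + (k - 1) * d < D) ∧ S ∈ SS := by
    intro e d S
    rw [hI, inr_mem_disjSum, mem_product, mem_filter, mem_product, mem_range, mem_range]
  obtain ⟨θ, hθ, hθ1⟩ : ∃ θ : ℝ, 0 < θ ∧ (I.card : ℝ) * θ / η ^ 2 ≤ δ1 ^ 2 / 8 := by
    refine ⟨η ^ 2 * δ1 ^ 2 / (8 * (I.card + 1)), by positivity, ?_⟩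
    rw [div_le_iff₀ (by positivity)]
    have hs : (0 : ℝ) ≤ I.card := Nat.cast_nonneg _
    rw [← mul_div_assoc, div_le_iff₀ (by positivity)]
    have hp : 0 ≤ η ^ 2 * δ1 ^ 2 := by positivity
    nlinarith
  obtain ⟨w1, hw1⟩ := h1 k J κ C C2 (by omega) hJ.ge hGen D M θ hM1 hθ
  obtain ⟨w2, hw2⟩ := h2 k J κ C C2 (by omega) hJ.ge hGen D M θ hM1 hθ
  obtain ⟨w3, hw3⟩ := hS J κ C C2 hJ2 hGen D M hM1
  obtain ⟨w4, hw4⟩ := hF.1 3
  obtain ⟨w, hwM, hwa, hwb, hwc, hwd, hwe⟩ : ∃ w : ℕ, M ≤ w ∧ 2 ≤ w ∧ w1 ≤ w ∧ w2 ≤ w ∧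
      w3 ≤ w ∧ w4 ≤ w :=
    ⟨M + 2 + w1 + w2 + w3 + w4, by omega, by omega, by omega, by omega, by omega, by omega⟩
  obtain ⟨Q, hQ⟩ : ∃ Q : ℕ, Q = Wq M w := ⟨_, rfl⟩
  have hQ3 : 3 ≤ Q := by
    rw [hQ]
    have h3 := hw4 w hwe
    have h4 : Wp w ≤ M * Wp w := Nat.le_mul_of_pos_left _ hM1
    exact h3.trans h4
  obtain ⟨X1, hX1⟩ := hw1 w hwb
  obtain ⟨X2, hX2⟩ := hw2 w hwc
  obtain ⟨X3, hX3⟩ := hw3 w hwd
  obtain ⟨Z1, hZ1⟩ := hD D M w κ δ hκ0 hδ hD1 hM1 hwM hwa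
  obtain ⟨Z2, hZ2⟩ := Bas_large C2 hC2 Q hQ3 (max N0 (2 ^ (D + 4))) (max X1 (max X2 X3))
  refine ⟨max Z1 Z2, fun Z hZ A hA => ?_⟩
  obtain ⟨b0, hb0, hden⟩ := hZ1 Z ((le_max_left _ _).trans hZ) A hA
  obtain ⟨hX0, hXZ, N, hScl, hN0, hQN, hQNL⟩ := hZ2 Z ((le_max_right _ _).trans hZ)
  rw [← hQ] at hden
  obtain ⟨X, hX⟩ : ∃ X : ℕ, X = 2 * Z / Q + 1 := ⟨_, rfl⟩
  rw [← hX] at hden hX0 hXZ hScl
  have hXp : 1 ≤ X := by rw [hX]; exact Nat.le_add_left 1 _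
  have hXR : (1 : ℝ) ≤ X := by exact_mod_cast hXp
  rw [max_le_iff, max_le_iff] at hX0
  obtain ⟨a1, a2, a3⟩ := hX0
  have hNp : N.Prime := hScl.1
  have : NeZero N := ⟨hNp.ne_zero⟩
  have hNR : (0 : ℝ) < N := Nat.cast_pos.2 hNp.pos
  have hDR : (0 : ℝ) < D := Nat.cast_pos.2 (by omega)
  have hden := hden N ((le_max_right _ _).trans hN0) hQN
  have hAX : ∀ p ∈ A, p.Prime ∧ (X : ℝ) ^ κ < p := by
    intro p hp
    obtain ⟨p1, p2, -⟩ := hA.1 p hp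
    refine ⟨p1, ?_⟩
    have h5 : (X : ℝ) ^ κ ≤ (X : ℝ) ^ (1 : ℝ) := Real.rpow_le_rpow_of_exponent_le hXR hκ1.le
    rw [Real.rpow_one] at h5
    have h6 : (X : ℝ) < p := by exact_mod_cast lt_of_le_of_lt hXZ p2
    linarith
  have hmaj := fun b e (y : ZMod N) => hM M w b0 X b N κ A hκ0 hXp hAX e y
  obtain ⟨b, hb1, hFb, hgb⟩ := Bas_select hSel X hXp I
    (fun b => (∑ e ∈ range D, av (fun x : ZMod N => fb M w κ b0 X b A e x)) / D)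
    (fun b => (∑ e ∈ range D, av (fun x : ZMod N => nub M w κ b0 X b e x)) / D)
    (fun i b => match i with
      | Sum.inl p => (lfm (k + 1) p.2 (fun x : ZMod N => nub M w κ b0 X b p.1 x) - 1) ^ 2
      | Sum.inr p => (av (fun x : Fin (k + 1) × Bool → ZMod N => ∏ r ∈ p.2,
          gW k (fun e (y : ZMod N) => nub M w κ b0 X b e y) (fun _ => 1) (pr p.1.1 p.1.2) r.1
            (pk r.2 x)) - 1) ^ 2)
    δ1 (η ^ 2) θ hδ10 (by positivity)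
    (fun b => ⟨div_nonneg (sum_nonneg fun e _ => Bas_nonneg _ fun x => (hmaj b e x).1) hDR.le,
      div_le_div_of_nonneg_right (sum_le_sum fun e _ => Bas_mono _ _ fun x => (hmaj b e x).2)
        hDR.le⟩)
    (by
      rw [Bas_ebdiv, le_div_iff₀ hDR]
      refine le_trans (le_of_eq ?_) hden
      rw [hδ1]
      ring)
    (by
      simp only [div_pow]
      rw [Bas_ebdiv, div_le_iff₀ (by positivity)]
      exact hX3 X a3 b0 hb0 N hScl)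
    (by
      rintro (i | i) - b
      · exact sq_nonneg _
      · exact sq_nonneg _)
    (by
      rintro (⟨e, S⟩ | ⟨⟨e, d⟩, S⟩) hi
      · obtain ⟨i1, i2⟩ := (hI1 e S).1 hi
        exact hX1 X a1 b0 hb0 N hScl e i1 S ((hSS S).1 i2)
      · obtain ⟨⟨-, i1, i2⟩, i3⟩ := (hI2 e d S).1 hi
        exact hX2 X a2 b0 hb0 N hScl e d i1 i2 S ((hSS S).1 i3))
    hθ1
  -- the relative counting theorem
  have hLFC : ∀ e, e < D → LFC (k + 1) η (fun x : ZMod N => nub M w κ b0 X b e x) := by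
    intro e he S hS'
    exact abs_le_of_sq_le_sq (hgb (Sum.inl (e, S)) ((hI1 e S).2 ⟨he, (hSS S).2 hS'⟩)) hη.le
  have hHLFC : ∀ e0 d : ℕ, 1 ≤ d → e0 + (k - 1) * d < D →
      HLFC η (gW k (fun e (y : ZMod N) => nub M w κ b0 X b e y) (fun _ => 1) (pr e0 d)) := by
    intro e0 d hd he S hS'
    have hdd : d ≤ (k - 1) * d := Nat.le_mul_of_pos_left d (by omega)
    exact abs_le_of_sq_le_sq (hgb (Sum.inr ((e0, d), S))
      ((hI2 e0 d S).2 ⟨⟨⟨by omega, by omega⟩, hd, he⟩, (hSS S).2 hS'⟩)) hη.le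
  have hsum : δ1 * D * N ≤ ∑ e ∈ range D, ∑ x : ZMod N, fb M w κ b0 X b A e x := by
    have h10 : δ1 ≤ (∑ e ∈ range D, av (fun x : ZMod N => fb M w κ b0 X b A e x)) / D := hFb
    have h11 : ∑ e ∈ range D, av (fun x : ZMod N => fb M w κ b0 X b A e x) =
        (∑ e ∈ range D, ∑ x : ZMod N, fb M w κ b0 X b A e x) / N := by
      rw [Finset.sum_div]
      refine Finset.sum_congr rfl fun e _ => ?_
      unfold GP.Rel.av
      rw [ZMod.card]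
    rw [le_div_iff₀ hDR, h11, le_div_iff₀ hNR] at h10
    exact h10
  obtain ⟨e0, d, hd, he0, a, h, ha1, ha2, hpos⟩ := hRc N hNp ((le_max_left _ _).trans hN0)
    (fun e (y : ZMod N) => nub M w κ b0 X b e y) (fun e (y : ZMod N) => fb M w κ b0 X b A e y)
    (fun e x => ⟨(hmaj b e x).1, (hmaj b e x).2⟩) hLFC hHLFC hsum
  obtain ⟨h', hh', hval⟩ := hP D N k e0 d a h (by omega) he0 ha2 fun j hj =>
    ⟨(Bas_fb (hpos j hj)).1, (Bas_fb (hpos j hj)).2.1⟩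
  refine ⟨e0, d, Q * (b + a.val), Q * h' + b0, hd, he0, Nat.mul_pos (by omega) (by omega), ?_, ?_,
    ?_, fun j hj => ?_⟩
  · rw [hQ]
    exact (Dvd.intro _ rfl : M ∣ M * Wp w).mul_right _
  · have := hb0.1
    omega
  · refine le_trans ?_ hQNL
    have h12 : Q * h' + b0 ≤ Q * N := by
      have h13 : b0 < Q := by rw [hQ]; exact hb0.2.1
      have h14 : Q * (h' + 1) ≤ Q * N := Nat.mul_le_mul_left Q hh'
      rw [Nat.mul_add, Nat.mul_one] at h14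
      omega
    exact_mod_cast h12
  · have h15 := (Bas_fb (hpos j hj)).2.2
    unfold nl fo at h15
    rw [hval j hj, ← hQ] at h15
    have h16 : 2 ^ (e0 + j * d) * (Q * (b + a.val)) + (Q * h' + b0) =
        Q * 2 ^ (e0 + j * d) * b + (Q * (2 ^ (e0 + j * d) * a.val + h') + b0) := by ring
    rw [h16]
    exact h15

end Pool.Agent.Lib.MP_9f2731_nt.SS
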