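import Pool.Agent.Lib.MP_9f2731_nt.SS.SpecC

/-!
MP_9f2731_nt, SS, module Blk: choice of the residue class.
-/

set_option autoImplicit false

namespace Pool.Agent.Lib.MP_9f2731_nt.SS

open Finset
open Pool.Agent.Lib.MP_9f2731_nt.GP
open Pool.Agent.Lib.MP_9f2731_nt.GP.Rel (av Ind pk HLFC Cut CutG)
open Pool.Agent.Lib.MP_9f2731_nt.GP.Asm (eb lfm)

private theorem Blk_block (Z p : ℕ) (hZ : Z < p) : ∀ D : ℕ, p ≤ 2 ^ D * Z →
    ∃ e, e < D ∧ 2 ^ e * Z < p ∧ p ≤ 2 ^ (e + 1) * Z := by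
  intro D
  induction D with
  | zero =>
    intro h
    rw [pow_zero, one_mul] at h
    omega
  | succ D ih =>
    intro h
    by_cases h' : p ≤ 2 ^ D * Z
    · obtain ⟨e, he, h1⟩ := ih h'
      exact ⟨e, by omega, h1⟩
    · exact ⟨D, by omega, not_le.mp h', h⟩

private theorem Blk_two {M w : ℕ} (hM : 1 ≤ M) (hw : 2 ≤ w) : 2 ≤ Wq M w := by
  have h1 : 2 ∣ Wp w := by
    unfold Wp primorial
    exact Finset.dvd_prod_of_mem (fun p => p) (Finset.mem_filter.mpr
      ⟨Finset.mem_range.mpr (by omega), Nat.prime_two⟩)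
  have h2 : 0 < Wp w := primorial_pos w
  exact Nat.le_of_dvd (Nat.mul_pos hM h2) (Dvd.dvd.mul_left h1 M)

theorem pBlk : S_Blk := by
  classical
  intro D M w Z δ A hM hw hδ hD hQZ hA
  obtain ⟨hA1, hA2⟩ := hA
  set Q := Wq M w with hQ
  have hQ2 : 2 ≤ Q := Blk_two hM hw
  have hZ0 : 0 < Z := by omega
  have hZr : (0 : ℝ) < Z := Nat.cast_pos.mpr hZ0
  set Lg := Real.log (2 ^ D * Z) with hLg
  have hLg0 : 0 ≤ Lg := by
    refine Real.log_nonneg ?_
    have h1 : (1 : ℝ) ≤ 2 ^ D := one_le_pow₀ (by norm_num)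
    have h2 : (1 : ℝ) ≤ Z := by exact_mod_cast hZ0
    nlinarith
  set R := (range Q).filter Q.Coprime with hR
  have hRc : R.card = Q.totient := rfl
  -- the local estimate
  have hloc : ∀ p ∈ A, Real.log p / p ≤ ∑ b ∈ R, ∑ e ∈ range D,
      (if p % Q = b ∧ 2 ^ e * Z < p ∧ p ≤ 2 ^ (e + 1) * Z then Lg / (2 ^ e * Z) else 0) := by
    intro p hp
    obtain ⟨hpp, hp1, hp2⟩ := hA1 p hp
    obtain ⟨e, he, he1, he2⟩ := Blk_block Z p hp1 D hp2
    have hb : p % Q ∈ R := by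
      rw [hR, mem_filter, mem_range]
      refine ⟨Nat.mod_lt _ (by omega), ?_⟩
      have h1 : Q.Coprime p := by
        rw [Nat.coprime_comm]
        refine (Nat.Prime.coprime_iff_not_dvd hpp).mpr fun h => ?_
        have := Nat.le_of_dvd (by omega) h
        omega
      unfold Nat.Coprime
      rw [Nat.gcd_comm, ← Nat.gcd_rec]
      exact h1
    have hp0 : (0 : ℝ) < p := Nat.cast_pos.mpr hpp.pos
    have hee : (0 : ℝ) < 2 ^ e * Z := by positivity
    have h1 : Real.log p / p ≤ Lg / (2 ^ e * Z) := by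
      refine div_le_div₀ hLg0 ?_ hee ?_
      · refine Real.log_le_log hp0 ?_
        exact_mod_cast hp2
      · exact_mod_cast he1.le
    refine h1.trans ?_
    have h0 : ∀ b e, (0 : ℝ) ≤ (if p % Q = b ∧ 2 ^ e * Z < p ∧ p ≤ 2 ^ (e + 1) * Z then
        Lg / (2 ^ e * Z) else 0) := by
      intro b e
      split_ifs
      · positivity
      · exact le_refl _
    refine le_trans ?_ (single_le_sum (f := fun b => ∑ e ∈ range D,
      (if p % Q = b ∧ 2 ^ e * Z < p ∧ p ≤ 2 ^ (e + 1) * Z then Lg / (2 ^ e * Z) else 0))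
      (fun b _ => sum_nonneg fun e _ => h0 b e) hb)
    refine le_trans (le_of_eq ?_) (single_le_sum (f := fun e =>
      (if p % Q = p % Q ∧ 2 ^ e * Z < p ∧ p ≤ 2 ^ (e + 1) * Z then Lg / (2 ^ e * Z) else 0))
      (fun e _ => h0 (p % Q) e) (mem_range.mpr he))
    rw [if_pos ⟨rfl, he1, he2⟩]
  have hsum : δ * D ≤ ∑ b ∈ R, ∑ e ∈ range D, Lg / (2 ^ e * Z) *
      ((A.filter (fun n => n % Q = b ∧ 2 ^ e * Z < n ∧ n ≤ 2 ^ (e + 1) * Z)).card : ℝ) := by
    refine hA2.trans ((sum_le_sum hloc).trans (le_of_eq ?_))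
    rw [sum_comm]
    refine sum_congr rfl fun b _ => ?_
    rw [sum_comm]
    refine sum_congr rfl fun e _ => ?_
    rw [← sum_filter, sum_const, nsmul_eq_mul, mul_comm]
  have hRne : R.Nonempty := by
    rw [← card_pos, hRc]
    exact Nat.totient_pos.mpr (by omega)
  have hφ : (0 : ℝ) < Q.totient := Nat.cast_pos.mpr (Nat.totient_pos.mpr (by omega))
  obtain ⟨b, hb, hbe⟩ := exists_le_of_sum_le (s := R) (f := fun _ => δ * D / Q.totient)
    (g := fun b => ∑ e ∈ range D, Lg / (2 ^ e * Z) *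
      ((A.filter (fun n => n % Q = b ∧ 2 ^ e * Z < n ∧ n ≤ 2 ^ (e + 1) * Z)).card : ℝ)) hRne (by
    rw [sum_const, nsmul_eq_mul, hRc, mul_div_cancel₀ _ hφ.ne']
    exact hsum)
  refine ⟨b, ⟨?_, ?_, ?_⟩, ?_⟩
  · by_contra h
    have h0 : b = 0 := by omega
    subst h0
    have h1 := (mem_filter.mp hb).2
    rw [Nat.coprime_zero_right] at h1
    omega
  · exact mem_range.mp (mem_filter.mp hb).1
  · exact ((mem_filter.mp hb).2).symm
  · have h1 : δ * D ≤ Q.totient * ∑ e ∈ range D, Lg / (2 ^ e * Z) *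
        ((A.filter (fun n => n % Q = b ∧ 2 ^ e * Z < n ∧ n ≤ 2 ^ (e + 1) * Z)).card : ℝ) := by
      rw [div_le_iff₀ hφ] at hbe
      exact hbe.trans (le_of_eq (mul_comm _ _))
    have h2 := mul_le_mul_of_nonneg_right h1 hZr.le
    refine h2.trans (le_of_eq ?_)
    rw [mul_assoc, mul_assoc]
    refine congrArg _ ?_
    rw [sum_mul, mul_sum]
    refine sum_congr rfl fun e _ => ?_
    have h3 : (2 : ℝ) ^ e ≠ 0 := by positivity
    field_simp

end Pool.Agent.Lib.MP_9f2731_nt.SS
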