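import Pool.Agent.Lib.MP_9f2731_nt.SS.SpecC

/-!
MP_9f2731_nt, SS: the main step for sets of primes in an arbitrary long interval `(Z, Y]`.
-/

set_option autoImplicit false

namespace Pool.Agent.Lib.MP_9f2731_nt.SS

open Finset

/-- Dense sets of primes in `(Z, Y]`, where `Y ≥ 2 ^ D * Z`, contain chains. -/
def LongStmt : Prop :=
  ∀ k : ℕ, ∃ C : ℝ, ∀ δ : ℝ, 0 < δ → ∃ D : ℕ, ∀ M : ℕ, 1 ≤ M → ∃ Z₀ : ℕ,
    ∀ Z Y : ℕ, Z₀ ≤ Z → 2 ^ D * Z ≤ Y → ∀ A : Finset ℕ, (∀ p ∈ A, p.Prime ∧ Z < p ∧ p ≤ Y) →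
      δ * Real.log (Y / Z) ≤ ∑ p ∈ A, Real.log p / p →
      ∃ d h : ℕ, 1 ≤ d ∧ d ≤ D ∧ 1 ≤ h ∧ ∃ p : ℕ → ℕ, (h : ℝ) ≤ Real.log (p 1) ^ C ∧
        (∀ i : ℕ, 1 ≤ i → i ≤ k → p i ∈ A) ∧
        (∀ i : ℕ, 1 ≤ i → (p (i + 1) : ℤ) = 2 ^ d * p i - (2 ^ d - 1) * h) ∧ p 1 ≡ h [MOD M]

/-- a dense set is dense in one of the blocks -/
theorem exBlock (δ : ℝ) (hδ : 0 < δ) (D : ℕ) (hD : 1 ≤ D) (Z Y : ℕ) (hZ : 1 ≤ Z)
    (hY : 2 ^ D * Z ≤ Y) (A : Finset ℕ) (hA : ∀ p ∈ A, p.Prime ∧ Z < p ∧ p ≤ Y)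
    (hs : δ * Real.log (Y / Z) ≤ ∑ p ∈ A, Real.log p / p) :
    ∃ i : ℕ, Dens D (δ / 4) (2 ^ (D * i) * Z)
      (A.filter (fun p => 2 ^ (D * i) * Z < p ∧ p ≤ 2 ^ D * (2 ^ (D * i) * Z))) := by
  have hZpos : (0 : ℝ) < Z := by exact_mod_cast (by omega : 0 < Z)
  have hDpos : (0 : ℝ) < D := by exact_mod_cast (by omega : 0 < D)
  have hl2 : (1 : ℝ) / 2 < Real.log 2 := by have := Real.log_two_gt_d9; linarith
  have hl2' : 0 < Real.log 2 := by linarith
  set L : ℝ := Real.log (Y / Z) with hL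
  have hYZ : (2 : ℝ) ^ D ≤ (Y : ℝ) / Z := by
    rw [le_div_iff₀ hZpos]
    exact_mod_cast hY
  have hLD : D * Real.log 2 ≤ L := by
    rw [hL, ← Real.log_pow]
    exact Real.log_le_log (by positivity) hYZ
  have hLpos : 0 < L := lt_of_lt_of_le (by positivity) hLD
  set n : ℕ := ⌈L / (D * Real.log 2)⌉₊ with hn
  have hn1 : L ≤ n * (D * Real.log 2) := by
    have := Nat.le_ceil (L / (D * Real.log 2))
    rw [div_le_iff₀ (by positivity)] at this
    exact this
  have hn2 : (n : ℝ) * (D * Real.log 2) ≤ 2 * L := by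
    have h1 : (n : ℝ) < L / (D * Real.log 2) + 1 :=
      Nat.ceil_lt_add_one (div_nonneg hLpos.le (by positivity))
    have h2 : (n : ℝ) * (D * Real.log 2) < L + D * Real.log 2 := by
      have h3 := mul_lt_mul_of_pos_right h1 (show 0 < D * Real.log 2 by positivity)
      rw [add_mul, div_mul_cancel₀ _ (by positivity), one_mul] at h3
      exact h3
    linarith
  have hYn : (Y : ℝ) ≤ 2 ^ (D * n) * Z := by
    have h1 : (Y : ℝ) / Z ≤ 2 ^ (D * n) := by
      have hYpos : (0 : ℝ) < (Y : ℝ) / Z := lt_of_lt_of_le (by positivity) hYZ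
      rw [← Real.log_le_log_iff hYpos (by positivity), Real.log_pow]
      push_cast
      calc L ≤ n * (D * Real.log 2) := hn1
        _ = D * n * Real.log 2 := by ring
    rwa [div_le_iff₀ hZpos] at h1
  have hYn' : Y ≤ 2 ^ (D * n) * Z := by exact_mod_cast hYn
  by_contra hcon
  push Not at hcon
  -- every block is sparse
  have hb : ∀ i : ℕ, ∑ p ∈ A.filter (fun p => 2 ^ (D * i) * Z < p ∧
      p ≤ 2 ^ D * (2 ^ (D * i) * Z)), Real.log p / p < δ / 4 * D := by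
    intro i
    by_contra h
    refine hcon i ⟨fun p hp => ?_, not_lt.mp h⟩
    rw [Finset.mem_filter] at hp
    exact ⟨(hA p hp.1).1, hp.2.1, hp.2.2⟩
  have hn0 : 0 < n := by
    rcases Nat.eq_zero_or_pos n with h | h
    · rw [h] at hn1
      simp only [Nat.cast_zero, zero_mul] at hn1
      linarith
    · exact h
  have hcov : ∀ p ∈ A, ∃ i ∈ range n, 2 ^ (D * i) * Z < p ∧ p ≤ 2 ^ D * (2 ^ (D * i) * Z) := by
    intro p hp
    obtain ⟨-, h2, h3⟩ := hA p hp
    have h4 : p ≤ 2 ^ (D * n) * Z := h3.trans hYn'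
    -- the smallest i with p ≤ 2 ^ (D * i) * Z
    have hex : ∃ j : ℕ, p ≤ 2 ^ (D * j) * Z := ⟨n, h4⟩
    classical
    have h5 := Nat.find_spec hex
    have h6 : Nat.find hex ≤ n := Nat.find_min' hex h4
    have h7 : Nat.find hex ≠ 0 := by
      intro h
      rw [h] at h5
      simp only [Nat.mul_zero, pow_zero, one_mul] at h5
      omega
    obtain ⟨i, hi⟩ := Nat.exists_eq_succ_of_ne_zero h7
    have h8 := Nat.find_min hex (m := i) (by omega)
    refine ⟨i, Finset.mem_range.mpr (by omega), not_le.mp h8, ?_⟩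
    rw [hi] at h5
    calc p ≤ 2 ^ (D * (i + 1)) * Z := h5
      _ = 2 ^ D * (2 ^ (D * i) * Z) := by ring
  have hsum : ∑ p ∈ A, Real.log p / p < n * (δ / 4 * D) := by
    calc ∑ p ∈ A, Real.log p / p
        ≤ ∑ p ∈ A, ∑ i ∈ range n, (if 2 ^ (D * i) * Z < p ∧ p ≤ 2 ^ D * (2 ^ (D * i) * Z)
            then Real.log p / p else 0) := by
          refine Finset.sum_le_sum fun p hp => ?_
          obtain ⟨i, hi, hc⟩ := hcov p hp
          have h0 : ∀ j ∈ range n, (0 : ℝ) ≤ (if 2 ^ (D * j) * Z < p ∧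
              p ≤ 2 ^ D * (2 ^ (D * j) * Z) then Real.log p / p else 0) := by
            intro j _
            split_ifs
            · exact div_nonneg (Real.log_natCast_nonneg p) (Nat.cast_nonneg p)
            · exact le_rfl
          have h1 := Finset.single_le_sum h0 hi
          rw [if_pos hc] at h1
          exact h1
      _ = ∑ i ∈ range n, ∑ p ∈ A.filter (fun p => 2 ^ (D * i) * Z < p ∧
          p ≤ 2 ^ D * (2 ^ (D * i) * Z)), Real.log p / p := by
          rw [Finset.sum_comm]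
          refine Finset.sum_congr rfl fun i _ => ?_
          rw [Finset.sum_filter]
      _ < ∑ i ∈ range n, δ / 4 * D := by
          refine Finset.sum_lt_sum_of_nonempty ⟨0, Finset.mem_range.mpr hn0⟩ fun i _ => hb i
      _ = n * (δ / 4 * D) := by rw [Finset.sum_const, Finset.card_range, nsmul_eq_mul]
  have h9 : (n : ℝ) * (δ / 4 * D) ≤ δ * L := by
    have h10 : (n : ℝ) * D ≤ 4 * L := by
      have : (n : ℝ) * D * (1 / 2) ≤ n * (D * Real.log 2) := by
        have h11 : (0 : ℝ) ≤ n * D := by positivity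
        nlinarith
      linarith
    nlinarith
  linarith

theorem pLong (hB : BasStmt) : LongStmt := by
  intro k
  obtain ⟨c, hc, hB⟩ := hB (max k 3) (le_max_right _ _)
  refine ⟨c, fun δ hδ => ?_⟩
  obtain ⟨D, hD, hB⟩ := hB (δ / 4) (by positivity)
  refine ⟨D, fun M hM => ?_⟩
  obtain ⟨Z0, hB⟩ := hB M hM
  refine ⟨max Z0 3, fun Z Y hZ hY A hA hs => ?_⟩
  have hZ0 : Z0 ≤ Z := le_trans (le_max_left _ _) hZ
  have hZ3 : 3 ≤ Z := le_trans (le_max_right _ _) hZ
  obtain ⟨i0, hi0⟩ := exBlock δ hδ D hD Z Y (by omega) hY A hA hs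
  have hZi : Z ≤ 2 ^ (D * i0) * Z := Nat.le_mul_of_pos_left _ (by positivity)
  obtain ⟨e0, d, m, h, h1, h2, h3, h4, h5, h6, h7⟩ := hB _ (hZ0.trans hZi) _ hi0
  have hk3 : 2 ≤ max k 3 - 1 := by have := le_max_right k 3; omega
  have hdD : d ≤ D := by nlinarith
  have hp1 : 2 ^ (D * i0) * Z < 2 ^ e0 * m + h := by
    have := h7 0 (by have := le_max_right k 3; omega)
    rw [Finset.mem_filter] at this
    simpa using this.2.1
  refine ⟨d, h, h1, hdD, h5, fun i => 2 ^ (e0 + (i - 1) * d) * m + h, ?_, ?_, ?_, ?_⟩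
  · refine h6.trans (Real.rpow_le_rpow ?_ ?_ hc.le)
    · exact Real.log_natCast_nonneg _
    · refine Real.log_le_log (by exact_mod_cast (by positivity)) ?_
      simp only [Nat.sub_self, Nat.zero_mul, Nat.add_zero]
      exact_mod_cast hp1.le
  · intro i hi hik
    have h8 := h7 (i - 1) (by have := le_max_left k 3; omega)
    exact (Finset.mem_filter.mp h8).1
  · intro i hi
    have h9 : i + 1 - 1 = (i - 1) + 1 := by omega
    simp only [h9]
    push_cast
    ring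
  · simp only [Nat.sub_self, Nat.zero_mul, Nat.add_zero]
    obtain ⟨m', rfl⟩ := h4
    have : (2 ^ e0 * (M * m') + h) = M * (2 ^ e0 * m') + h := by ring
    rw [this]
    simp [Nat.ModEq]

end Pool.Agent.Lib.MP_9f2731_nt.SS
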