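import Pool.Agent.Lib.MP_9f2731_nt.SS.SpecC

/-!
MP_9f2731_nt, SS, module Den: density in the windows.
-/

set_option autoImplicit false

namespace Pool.Agent.Lib.MP_9f2731_nt.SS

open Finset
open Pool.Agent.Lib.MP_9f2731_nt.GP
open Pool.Agent.Lib.MP_9f2731_nt.GP.Rel (av Ind pk HLFC Cut CutG)
open Pool.Agent.Lib.MP_9f2731_nt.GP.Asm (eb lfm)

private theorem Den_dvd {w p : ℕ} (hp : p.Prime) (h : p ≤ w) : p ∣ Wp w := by
  unfold Wp primorial
  exact Finset.dvd_prod_of_mem (fun p => p) (Finset.mem_filter.mpr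
    ⟨Finset.mem_range.mpr (by omega), hp⟩)

private theorem Den_W0 (w : ℕ) : 0 < Wp w := primorial_pos w

private theorem Den_two {M w : ℕ} (hM : 1 ≤ M) (hw : 2 ≤ w) : 2 ≤ Wq M w :=
  Nat.le_of_dvd (Nat.mul_pos hM (Den_W0 w)) (Dvd.dvd.mul_left (Den_dvd Nat.prime_two hw) M)

/-- the quotients of the totients -/
private theorem Den_tot {M w : ℕ} (hM : 1 ≤ M) (hMw : M ≤ w) :
    (((Wp w).totient : ℝ) / (Wp w : ℝ)) = ((Wq M w).totient : ℝ) / (Wq M w : ℝ) := by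
  have hW0 := Den_W0 w
  have hQ0 : 0 < Wq M w := Nat.mul_pos hM hW0
  have hpf : (Wq M w).primeFactors = (Wp w).primeFactors := by
    unfold Wq
    rw [Nat.primeFactors_mul (by omega) hW0.ne', Finset.union_eq_right]
    intro p hp
    rw [Nat.mem_primeFactors] at hp ⊢
    exact ⟨hp.1, Den_dvd hp.1 ((Nat.le_of_dvd (by omega) hp.2.1).trans hMw), hW0.ne'⟩
  have h1 := Nat.totient_eq_mul_prod_factors (Wp w)
  have h2 := Nat.totient_eq_mul_prod_factors (Wq M w)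
  rw [hpf] at h2
  set c : ℚ := ∏ p ∈ (Wp w).primeFactors, (1 - (p : ℚ)⁻¹)
  have h3 : ((Wp w).totient : ℝ) = (Wp w : ℝ) * (c : ℝ) := by exact_mod_cast h1
  have h4 : ((Wq M w).totient : ℝ) = (Wq M w : ℝ) * (c : ℝ) := by exact_mod_cast h2
  have hWr : (Wp w : ℝ) ≠ 0 := by exact_mod_cast hW0.ne'
  have hQr : (Wq M w : ℝ) ≠ 0 := by exact_mod_cast hQ0.ne'
  rw [h3, h4, mul_div_cancel_left₀ _ hWr, mul_div_cancel_left₀ _ hQr]

theorem pDen (hC : S_Cnt) (hB : S_Blk) : S_Den := by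
  classical
  intro D M w κ δ hκ hδ hD hM hMw hw
  set Q := Wq M w with hQ
  have hQ2 : 2 ≤ Q := Den_two hM hw
  refine ⟨2 ^ D * Q ^ 2 + Q + 1, fun Z hZ A hA => ?_⟩
  obtain ⟨b0, hb0, hsum⟩ := hB D M w Z δ A hM hw hδ hD (by rw [← hQ]; nlinarith [Nat.zero_le (2 ^ D * Q ^ 2)]) hA
  refine ⟨b0, hb0, ?_⟩
  intro N _ hN hNZ
  set X := 2 * Z / Q + 1 with hX
  have hQX1 : 2 * Z ≤ Q * X := by
    have := Nat.lt_mul_div_succ (2 * Z) (show 0 < Q by omega)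
    rw [hX]
    exact this.le
  have hQX2 : Q * X ≤ 2 * Z + Q := by
    rw [hX, mul_add, mul_one]
    have := Nat.mul_div_le (2 * Z) Q
    omega
  have hZQ : Q ≤ Z := by
    have : 0 ≤ 2 ^ D * Q ^ 2 := Nat.zero_le _
    omega
  have hQX3 : Q * X ≤ 3 * Z := by omega
  have hX1 : 1 ≤ X := by rw [hX]; exact Nat.le_add_left _ _
  have hZ1 : 2 ^ D * Q ^ 2 ≤ Z := by omega
  have hXX : 2 ^ D * Z ≤ X ^ 2 := by
    have h1 : Z * (2 ^ D * Q ^ 2) ≤ (Q * X) ^ 2 := by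
      calc Z * (2 ^ D * Q ^ 2) ≤ Z * Z := Nat.mul_le_mul_left _ hZ1
        _ ≤ (Q * X) * (Q * X) := Nat.mul_le_mul (by omega) (by omega)
        _ = (Q * X) ^ 2 := (sq _).symm
    have h2 : Q ^ 2 * (2 ^ D * Z) ≤ Q ^ 2 * X ^ 2 := by
      calc Q ^ 2 * (2 ^ D * Z) = Z * (2 ^ D * Q ^ 2) := by ring
        _ ≤ (Q * X) ^ 2 := h1
        _ = Q ^ 2 * X ^ 2 := by ring
    exact Nat.le_of_mul_le_mul_left h2 (by positivity)
  -- real numbers
  have hN0 : (0 : ℝ) < N := Nat.cast_pos.mpr (Nat.pos_of_neZero N)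
  have hX0 : (0 : ℝ) < X := Nat.cast_pos.mpr hX1
  have hZ0n : 0 < Z := by omega
  have hZ0 : (0 : ℝ) < Z := Nat.cast_pos.mpr hZ0n
  have hQ0 : (0 : ℝ) < Q := Nat.cast_pos.mpr (by omega)
  have hφ : (0 : ℝ) < Q.totient := Nat.cast_pos.mpr (Nat.totient_pos.mpr (by omega))
  set Lg := Real.log (2 ^ D * Z) with hLg
  have hLg0 : 0 < Lg := by
    refine Real.log_pos ?_
    have h1 : (2 : ℝ) ≤ 2 ^ D := by
      calc (2 : ℝ) = 2 ^ 1 := (pow_one _).symm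
        _ ≤ 2 ^ D := pow_le_pow_right₀ (by norm_num) hD
    have h2 : (1 : ℝ) ≤ Z := by exact_mod_cast hZ0n
    nlinarith
  have hlogX : Lg ≤ 2 * Real.log X := by
    have h1 : (2 : ℝ) ^ D * Z ≤ (X : ℝ) ^ 2 := by exact_mod_cast hXX
    have h2 := Real.log_le_log (by positivity) h1
    rw [Real.log_pow] at h2
    rw [hLg]
    push_cast at h2
    exact h2
  have hlX0 : 0 < Real.log X := by linarith
  set V : ℝ := ((Wp w).totient / (Wp w) : ℝ) * Real.log ((X : ℝ) ^ κ) * (3 / 4) with hV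
  have hVe : V = (Q.totient : ℝ) / Q * (κ * Real.log X) * (3 / 4) := by
    rw [hV, Den_tot hM hMw, Real.log_rpow hX0, ← hQ]
  have hV0 : 0 ≤ V := by rw [hVe]; positivity
  have hfb : ∀ b e : ℕ, av (fun x : ZMod N => fb M w κ b0 X b A e x) =
      V / N * ((univ.filter (fun y : ZMod N => N ≤ 4 * y.val ∧ 2 * y.val < N ∧
        nl (fo M w b0 e y) b ∈ A)).card : ℝ) := by
    intro b e
    unfold av fb
    rw [ZMod.card, ← sum_filter, sum_const, nsmul_eq_mul, ← hV]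
    ring
  have heb : eb X (fun b => ∑ e ∈ range D, av (fun x : ZMod N => fb M w κ b0 X b A e x)) =
      V / (N * X) * ∑ e ∈ range D, ∑ b ∈ Icc 1 X,
        ((univ.filter (fun y : ZMod N => N ≤ 4 * y.val ∧ 2 * y.val < N ∧
          nl (fo M w b0 e y) b ∈ A)).card : ℝ) := by
    unfold eb
    simp only [hfb]
    rw [sum_comm]
    simp only [← mul_sum]
    rw [← div_div]
    ring
  rw [heb]
  have hcnt : ∀ e ∈ range D, (N : ℝ) / 8 * ((1 / 2 ^ e : ℝ) *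
      ((A.filter (fun n => n % Q = b0 ∧ 2 ^ e * Z < n ∧ n ≤ 2 ^ (e + 1) * Z)).card : ℝ)) ≤
      ∑ b ∈ Icc 1 X, ((univ.filter (fun y : ZMod N => N ≤ 4 * y.val ∧ 2 * y.val < N ∧
          nl (fo M w b0 e y) b ∈ A)).card : ℝ) := by
    intro e he
    refine le_trans ?_ (hC M w b0 D X N e A hb0 (mem_range.mp he) hN)
    have h1 : (A.filter (fun n => n % Q = b0 ∧ 2 ^ e * Z < n ∧ n ≤ 2 ^ (e + 1) * Z)).card ≤
        (A.filter (fun n => n % Wq M w = b0 ∧ Wq M w * (2 * N) < n ∧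
          n ≤ Wq M w * 2 ^ e * X)).card := by
      refine card_le_card ?_
      intro n hn
      rw [mem_filter] at hn ⊢
      obtain ⟨hnA, hn1, hn2, hn3⟩ := hn
      refine ⟨hnA, hn1, ?_, ?_⟩
      · have h2 : Z ≤ 2 ^ e * Z := Nat.le_mul_of_pos_left _ (by positivity)
        rw [← hQ]
        exact lt_of_le_of_lt (hNZ.trans h2) hn2
      · calc n ≤ 2 ^ (e + 1) * Z := hn3
          _ = 2 ^ e * (2 * Z) := by ring
          _ ≤ 2 ^ e * (Q * X) := Nat.mul_le_mul_left _ hQX1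
          _ = Wq M w * 2 ^ e * X := by rw [← hQ]; ring
    have h2 : ((A.filter (fun n => n % Q = b0 ∧ 2 ^ e * Z < n ∧
        n ≤ 2 ^ (e + 1) * Z)).card : ℝ) ≤
        ((A.filter (fun n => n % Wq M w = b0 ∧ Wq M w * (2 * N) < n ∧
          n ≤ Wq M w * 2 ^ e * X)).card : ℝ) := by exact_mod_cast h1
    have h3 : (N : ℝ) / 8 * ((1 / 2 ^ e : ℝ) *
      ((A.filter (fun n => n % Q = b0 ∧ 2 ^ e * Z < n ∧ n ≤ 2 ^ (e + 1) * Z)).card : ℝ)) =
      (N : ℝ) / 2 ^ (e + 3) *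
      ((A.filter (fun n => n % Q = b0 ∧ 2 ^ e * Z < n ∧ n ≤ 2 ^ (e + 1) * Z)).card : ℝ) := by
      rw [pow_add]
      field_simp
      ring
    rw [h3]
    exact mul_le_mul_of_nonneg_left h2 (by positivity)
  have hall := sum_le_sum hcnt
  rw [← mul_sum] at hall
  rw [← hQ] at hsum
  set Sm : ℝ := ∑ e ∈ range D, (1 / 2 ^ e : ℝ) * ((A.filter (fun n => n % Q = b0 ∧
    2 ^ e * Z < n ∧ n ≤ 2 ^ (e + 1) * Z)).card : ℝ) with hSm
  have h5 : V / (N * X) * (N / 8 * Sm) ≤ V / (N * X) * ∑ e ∈ range D, ∑ b ∈ Icc 1 X,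
        ((univ.filter (fun y : ZMod N => N ≤ 4 * y.val ∧ 2 * y.val < N ∧
          nl (fo M w b0 e y) b ∈ A)).card : ℝ) :=
    mul_le_mul_of_nonneg_left hall (by positivity)
  refine le_trans ?_ h5
  have h6 : V / (N * X) * (N / 8 * Sm) = (3 / 32) * κ * (Real.log X) * ((Q.totient : ℝ) * Sm) /
      (Q * X) := by
    rw [hVe]
    field_simp
    ring
  rw [h6, le_div_iff₀ (by positivity)]
  -- the inequality for Sm
  have h7 : δ * D * Z / Lg ≤ (Q.totient : ℝ) * Sm := by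
    rw [div_le_iff₀ hLg0]
    calc δ * D * Z ≤ (Q.totient : ℝ) * Lg * Sm := hsum
      _ = (Q.totient : ℝ) * Sm * Lg := by ring
  have h8 : (Q : ℝ) * X ≤ 3 * Z := by exact_mod_cast hQX3
  have hD0 : (0 : ℝ) ≤ D := Nat.cast_nonneg D
  calc κ * δ * D / 100 * (Q * X) ≤ κ * δ * D / 100 * (3 * Z) :=
        mul_le_mul_of_nonneg_left h8 (by positivity)
    _ ≤ (3 / 32) * κ * (δ * D * Z) * (1 / 2) := by
        have : 0 ≤ κ * δ * D * Z := by positivity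
        nlinarith
    _ ≤ (3 / 32) * κ * (δ * D * Z) * (Real.log X / Lg) := by
        refine mul_le_mul_of_nonneg_left ?_ (by positivity)
        rw [le_div_iff₀ hLg0]
        linarith
    _ = (3 / 32) * κ * Real.log X * (δ * D * Z / Lg) := by ring
    _ ≤ (3 / 32) * κ * Real.log X * ((Q.totient : ℝ) * Sm) :=
        mul_le_mul_of_nonneg_left h7 (by positivity)

end Pool.Agent.Lib.MP_9f2731_nt.SS
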