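import Pool.Agent.Lib.MP_9f2731_nt.SS.SpecA

/-!
MP_9f2731_nt, SS: densities of the solutions of simultaneous divisibilities (linear forms).
-/

set_option autoImplicit false

namespace Pool.Agent.Lib.MP_9f2731_nt.SS

open Finset
open Pool.Agent.Lib.MP_9f2731_nt.GP
open Pool.Agent.Lib.MP_9f2731_nt.GP.Sv

/-- divisors of `Pq w R` are prime to the leading coefficient -/
private theorem Dns_cop {w : ℕ} {R : ℝ} {a : ℕ × ℕ} {d : ℕ} (ha : Fo w a) (hd : d ∣ Pq w R) :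
    Nat.Coprime d a.1 := by
  rw [Nat.coprime_iff_gcd_eq_one]
  by_contra hcon
  obtain ⟨p, hp, hpg⟩ := Nat.exists_prime_and_dvd hcon
  have h1 : p ∣ d := hpg.trans (Nat.gcd_dvd_left _ _)
  have h2 : p ∣ a.1 := hpg.trans (Nat.gcd_dvd_right _ _)
  have h3 := (mem_Qs.1 ((prime_dvd_Pq hp).1 (h1.trans hd))).2.1
  have h4 := ha.2.2.2.1 p hp h2
  omega

/-- the solutions of one divisibility -/
private theorem Dns_mod {w : ℕ} {R : ℝ} {a : ℕ × ℕ} {d b b0 : ℕ} (ha : Fo w a) (hd : d ∣ Pq w R)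
    (h0 : d ∣ nl a b0) : d ∣ nl a b ↔ b ≡ b0 [MOD d] := by
  have hc := Dns_cop ha hd
  have hz : ∀ c : ℕ, d ∣ nl a c ↔ nl a c ≡ 0 [MOD d] := fun c =>
    (Nat.modEq_zero_iff_dvd).symm
  constructor
  · intro h
    have h1 : nl a b ≡ nl a b0 [MOD d] := ((hz b).1 h).trans ((hz b0).1 h0).symm
    unfold nl at h1
    have h2 : a.1 * b ≡ a.1 * b0 [MOD d] := Nat.ModEq.add_right_cancel' a.2 h1
    exact Nat.ModEq.cancel_left_of_coprime hc h2
  · intro h
    rw [hz]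
    refine Nat.ModEq.trans ?_ ((hz b0).1 h0)
    unfold nl
    exact ((Nat.ModEq.refl a.1).mul h).add (Nat.ModEq.refl a.2)

private theorem Dns_lcm {ι : Type} [Fintype ι] {b b0 : ℕ} {d : ι → ℕ} :
    (∀ i, b ≡ b0 [MOD d i]) ↔ b ≡ b0 [MOD Finset.univ.lcm d] := by
  constructor
  · intro h
    rw [Nat.modEq_iff_dvd]
    have h1 : ∀ i, ((d i : ℕ) : ℤ) ∣ (b0 : ℤ) - b := fun i => (Nat.modEq_iff_dvd).1 (h i)
    have h2 : Finset.univ.lcm d ∣ ((b0 : ℤ) - b).natAbs := by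
      refine Finset.lcm_dvd fun i _ => ?_
      exact Int.natCast_dvd.1 (h1 i)
    exact Int.natCast_dvd.2 h2
  · intro h i
    exact h.of_dvd (Finset.dvd_lcm (mem_univ i))

/-- counting in an interval -/
private theorem Dns_cnt {D : ℕ} (hD : 0 < D) (X b0 : ℕ) (hX : 1 ≤ X) :
    |(((Icc 1 X).filter (fun b => b ≡ b0 [MOD D])).card : ℝ) / X - 1 / D| ≤ 1 / X := by
  have hX0 : (0 : ℝ) < X := by exact_mod_cast hX
  have hD0 : (0 : ℝ) < D := by exact_mod_cast hD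
  have hset : (Icc 1 X).filter (fun b => b ≡ b0 [MOD D]) = (Ioc 0 X).filter (fun b => b ≡ b0 [MOD D]) := by
    congr 1
  have hcard := Nat.Ioc_filter_modEq_card (r := D) 0 X hD b0
  rw [← hset] at hcard
  have f1 := Int.floor_le (((X : ℚ) - b0) / D)
  have f2 := Int.lt_floor_add_one (((X : ℚ) - b0) / D)
  have f3 := Int.floor_le ((((0 : ℕ) : ℚ) - b0) / D)
  have f4 := Int.lt_floor_add_one ((((0 : ℕ) : ℚ) - b0) / D)
  set A : ℤ := ⌊((X : ℚ) - b0) / D⌋
  set B : ℤ := ⌊(((0 : ℕ) : ℚ) - b0) / D⌋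
  set c : ℕ := ((Icc 1 X).filter (fun b => b ≡ b0 [MOD D])).card
  have g1 : (A : ℝ) ≤ ((X : ℝ) - b0) / D := by exact_mod_cast f1
  have g2 : ((X : ℝ) - b0) / D < (A : ℝ) + 1 := by exact_mod_cast f2
  have g3 : (B : ℝ) ≤ ((0 : ℝ) - b0) / D := by exact_mod_cast f3
  have g4 : ((0 : ℝ) - b0) / D < (B : ℝ) + 1 := by exact_mod_cast f4
  have hc : (c : ℝ) = max ((A : ℝ) - B) 0 := by
    have : ((c : ℤ) : ℝ) = ((max (A - B) 0 : ℤ) : ℝ) := by exact_mod_cast hcard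
    rw [Int.cast_max] at this
    push_cast at this
    exact this
  have hXD : (0 : ℝ) ≤ (X : ℝ) / D := by positivity
  have e0 : ((X : ℝ) - b0) / D - ((0 : ℝ) - b0) / D = X / D := by ring
  have hb : |(c : ℝ) - X / D| ≤ 1 := by
    rw [hc, abs_le]
    constructor
    · have := le_max_left ((A : ℝ) - B) 0
      linarith
    · have : max ((A : ℝ) - B) 0 ≤ X / D + 1 := max_le (by linarith) (by linarith)
      linarith
  have e1 : (c : ℝ) / X - 1 / D = (c - X / D) / X := by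
    field_simp
  rw [e1, abs_div, abs_of_pos hX0]
  exact div_le_div_of_nonneg_right hb hX0.le

/-- counting in a full period -/
private theorem Dns_per {D Q : ℕ} (hD : 0 < D) (hQ : 0 < Q) (hDQ : D ∣ Q) (b0 : ℕ) :
    (((range Q).filter (fun b => b ≡ b0 [MOD D])).card : ℝ) / Q = 1 / D := by
  obtain ⟨k, rfl⟩ := hDQ
  have hk : 0 < k := by
    rcases Nat.eq_zero_or_pos k with h | h
    · rw [h, Nat.mul_zero] at hQ
      omega
    · exact h
  have hcard := Nat.Ico_filter_modEq_card (r := D) 0 (D * k) hD b0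
  rw [Nat.Ico_zero_eq_range] at hcard
  have hDq : (D : ℚ) ≠ 0 := by exact_mod_cast hD.ne'
  have e1 : (((D * k : ℕ) : ℚ) - b0) / D = ((((0 : ℕ) : ℚ) - b0) / D) + ((k : ℤ) : ℚ) := by
    push_cast
    field_simp
    ring
  rw [e1, Int.ceil_add_intCast] at hcard
  have e2 : max (⌈(((0 : ℕ) : ℚ) - b0) / D⌉ + (k : ℤ) - ⌈(((0 : ℕ) : ℚ) - b0) / D⌉) 0 = (k : ℤ) := by
    rw [add_sub_cancel_left]
    exact max_eq_left (Int.natCast_nonneg k)
  rw [e2] at hcard
  have e3 : ((range (D * k)).filter (fun b => b ≡ b0 [MOD D])).card = k := by exact_mod_cast hcard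
  rw [e3]
  have hD0 : (D : ℝ) ≠ 0 := by exact_mod_cast hD.ne'
  have hk0 : (k : ℝ) ≠ 0 := by exact_mod_cast hk.ne'
  push_cast
  field_simp

theorem pDns : S_Dns := by
  intro ι _ w R X a d hX ha hd
  classical
  by_cases h : ∃ b0, ∀ i, d i ∣ nl (a i) b0
  · obtain ⟨b0, hb0⟩ := h
    have hiff : ∀ b, (∀ i, d i ∣ nl (a i) b) ↔ b ≡ b0 [MOD Finset.univ.lcm d] := by
      intro b
      rw [← Dns_lcm]
      exact forall_congr' fun i => Dns_mod (ha i) (hd i) (hb0 i)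
    have hDQ : Finset.univ.lcm d ∣ Pq w R := Finset.lcm_dvd fun i _ => hd i
    have hQ : 0 < Pq w R := Nat.pos_of_ne_zero Pq_ne
    have hD : 0 < Finset.univ.lcm d := Nat.pos_of_dvd_of_pos hDQ hQ
    simp_rw [hiff]
    rw [Dns_per hD hQ hDQ b0]
    exact Dns_cnt hD X b0 hX
  · push Not at h
    have e1 : (Icc 1 X).filter (fun b => ∀ i, d i ∣ nl (a i) b) = ∅ := by
      refine Finset.filter_eq_empty_iff.2 fun b _ hb => ?_
      obtain ⟨i, hi⟩ := h b
      exact hi (hb i)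
    have e2 : (range (Pq w R)).filter (fun b => ∀ i, d i ∣ nl (a i) b) = ∅ := by
      refine Finset.filter_eq_empty_iff.2 fun b _ hb => ?_
      obtain ⟨i, hi⟩ := h b
      exact hi (hb i)
    rw [e1, e2]
    simp

end Pool.Agent.Lib.MP_9f2731_nt.SS
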