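import Pool.Agent.Lib.MP_9f2731_nt.SS.SpecC

/-!
MP_9f2731_nt, SS, module Eqd (helper47): the forms `Lf` are pairwise equidistributed. Adapted from
GP/Asm/Eqd.
-/

set_option autoImplicit false

open Finset

namespace Pool.Agent.Lib.MP_9f2731_nt.SS

open Pool.Agent.Lib.MP_9f2731_nt.GP
open Pool.Agent.Lib.MP_9f2731_nt.GP.Rel (av Ind pk HLFC Cut CutG)
open Pool.Agent.Lib.MP_9f2731_nt.GP.Asm (eb lfm)

/-- the mean of a function of a surjective homomorphism -/
private theorem Eqd_av {A B : Type} [AddCommGroup A] [AddCommGroup B] [Fintype A] [Fintype B]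
    (φ : A →+ B) (hφ : Function.Surjective φ) (F : B → ℝ) :
    av (fun x => F (φ x)) = av F := by
  classical
  have hc : ∀ b : B, (univ.filter (fun x => φ x = b)).card
      = (univ.filter (fun x => φ x = 0)).card := by
    intro b
    have hb : b ∈ Set.range φ := hφ b
    have h0 : (0 : B) ∈ Set.range φ := hφ 0
    exact AddMonoidHom.card_fiber_eq_of_mem_range φ hb h0
  have hsum : ∀ H : B → ℝ, ∑ x, H (φ x) = (univ.filter (fun x => φ x = 0)).card * ∑ b, H b := by
    intro H
    rw [← Finset.sum_fiberwise_of_maps_to (s := univ) (t := (univ : Finset B)) (g := φ)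
      (fun x _ => Finset.mem_univ _)]
    rw [Finset.mul_sum]
    refine Finset.sum_congr rfl fun b _ => ?_
    have : ∑ x ∈ univ.filter (fun x => φ x = b), H (φ x)
        = ∑ x ∈ univ.filter (fun x => φ x = b), H b := by
      refine Finset.sum_congr rfl fun x hx => ?_
      rw [(Finset.mem_filter.1 hx).2]
    rw [this, Finset.sum_const, hc b, nsmul_eq_mul]
  have hcard : (Fintype.card A : ℝ)
      = (univ.filter (fun x => φ x = 0)).card * (Fintype.card B : ℝ) := by
    have := hsum (fun _ => 1)
    simpa using this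
  have hpos : (0 : ℝ) < (univ.filter (fun x => φ x = 0)).card := by
    have : 0 < (univ.filter (fun x => φ x = 0)).card :=
      Finset.card_pos.2 ⟨0, by simp⟩
    exact_mod_cast this
  unfold av
  rw [hsum F, hcard, mul_div_mul_left _ _ hpos.ne']

/-- the form as a homomorphism -/
private def Eqd_H {N k : ℕ} (ex : ℕ → ℕ) (j : ℕ) (σ : Fin (k + 1) → Bool) :
    (Fin (k + 1) × Bool → ZMod N) →+ ZMod N where
  toFun x := Lf k ex j (pk σ x)
  map_zero' := by simp [Lf, pk]
  map_add' x y := by
    simp only [Lf, pk, Pi.add_apply, mul_add, Finset.sum_add_distrib]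
    ring

/-- value of a form when all but one of its terms vanish -/
private theorem Eqd_single {N k : ℕ} (ex : ℕ → ℕ) (hN : N.Prime)
    (hex : ∀ l l' : ℕ, l < k → l' < k → l ≠ l' → (2 : ZMod N) ^ ex l ≠ 2 ^ ex l')
    (j i : Fin (k + 1)) (hj : (j : ℕ) < k) (hij : i ≠ j) :
    ∃ c : ZMod N, c ≠ 0 ∧ ∀ y : Fin (k + 1) → ZMod N, (∀ l, l ≠ i → l ≠ j → y l = 0) →
      Lf k ex (j : ℕ) y = c * y i := by
  have : Fact N.Prime := ⟨hN⟩
  have hjl : Fin.last k ≠ j := by
    intro h
    rw [← h] at hj
    simp at hj
  have hij' : (i : ℕ) ≠ (j : ℕ) := fun h => hij (Fin.ext h)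
  rcases Nat.lt_or_ge (i : ℕ) k with hi | hi
  · refine ⟨(2 : ZMod N) ^ ex (j : ℕ) - 2 ^ ex (i : ℕ),
      sub_ne_zero.2 (hex _ _ hj hi (Ne.symm hij')), fun y hy => ?_⟩
    have hil : Fin.last k ≠ i := by
      intro h
      rw [← h] at hi
      simp at hi
    unfold Lf
    rw [hy _ hil hjl, add_zero, Finset.sum_eq_single (⟨i, hi⟩ : Fin k)]
    · rfl
    · intro l _ hl
      by_cases hlj : (l : ℕ) = (j : ℕ)
      · rw [hlj, sub_self, zero_mul]
      · rw [hy, mul_zero]
        · intro h
          apply hl
          ext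
          have h2 := congrArg Fin.val h
          simpa using h2
        · intro h
          apply hlj
          rw [← h]
          simp
    · intro h
      exact absurd (Finset.mem_univ _) h
  · have hil : i = Fin.last k := by
      ext
      have := i.isLt
      simp only [Fin.val_last]
      omega
    refine ⟨1, one_ne_zero, fun y hy => ?_⟩
    unfold Lf
    rw [one_mul, hil, Finset.sum_eq_zero, zero_add]
    intro l _
    by_cases hlj : (l : ℕ) = (j : ℕ)
    · rw [hlj, sub_self, zero_mul]
    · rw [hy, mul_zero]
      · intro h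
        have := l.isLt
        rw [hil] at h
        have h2 := congrArg Fin.val h
        simp at h2
        omega
      · intro h
        apply hlj
        rw [← h]
        simp

theorem pEqd : S_Eqd := by
  intro k N _ ex hN hex p p' hpk hpk' hp hp'
  classical
  have : Fact N.Prime := ⟨hN⟩
  obtain ⟨j, σ⟩ := p
  obtain ⟨j', σ'⟩ := p'
  simp only at hp hp' hpk hpk'
  constructor
  · intro F
    have hs : Function.Surjective (Eqd_H (N := N) ex (j : ℕ) σ) := by
      intro g
      have hij : Fin.last k ≠ j := by
        intro h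
        rw [← h] at hpk
        simp at hpk
      obtain ⟨c, hc, hcy⟩ := Eqd_single ex hN hex j (Fin.last k) hpk hij
      refine ⟨fun q => if q = (Fin.last k, σ (Fin.last k)) then c⁻¹ * g else 0, ?_⟩
      show Lf k ex (j : ℕ)
        (pk σ fun q => if q = (Fin.last k, σ (Fin.last k)) then c⁻¹ * g else 0) = g
      rw [hcy]
      · simp [pk, hc]
      · intro l hl _
        simp [pk, hl]
    exact Eqd_av (Eqd_H ex (j : ℕ) σ) hs F
  · intro hne F
    have hs : Function.Surjective
        ((Eqd_H (N := N) ex (j : ℕ) σ).prod (Eqd_H ex (j' : ℕ) σ')) := by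
      rintro ⟨g, h⟩
      by_cases hj : j = j'
      · subst hj
        have hσ : ∃ i, σ i ≠ σ' i := by
          by_contra hcon
          push Not at hcon
          exact hne (by rw [funext hcon])
        obtain ⟨i, hi⟩ := hσ
        have hij : i ≠ j := by
          rintro rfl
          exact hi (hp.trans hp'.symm)
        obtain ⟨c, hc, hcy⟩ := Eqd_single ex hN hex j i hpk hij
        refine ⟨fun q => if q = (i, σ i) then c⁻¹ * g else if q = (i, σ' i) then c⁻¹ * h else 0,
          ?_⟩
        refine Prod.ext ?_ ?_
        · show Lf k ex (j : ℕ) (pk σ fun q => if q = (i, σ i) then c⁻¹ * g else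
            if q = (i, σ' i) then c⁻¹ * h else 0) = g
          rw [hcy]
          · simp [pk, hc]
          · intro l hl _
            simp [pk, hl]
        · show Lf k ex (j : ℕ) (pk σ' fun q => if q = (i, σ i) then c⁻¹ * g else
            if q = (i, σ' i) then c⁻¹ * h else 0) = h
          rw [hcy]
          · have h1 : (i, σ' i) ≠ (i, σ i) := by
              intro e
              exact hi (by simpa using e.symm)
            simp [pk, Ne.symm hi, hc]
          · intro l hl _
            simp [pk, hl]
      · have hj' : j' ≠ j := fun e => hj e.symm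
        obtain ⟨c, hc, hcy⟩ := Eqd_single ex hN hex j j' hpk hj'
        obtain ⟨c', hc', hcy'⟩ := Eqd_single ex hN hex j' j hpk' hj
        refine ⟨fun q => if q = (j', σ j') then c⁻¹ * g else
          if q = (j, σ' j) then c'⁻¹ * h else 0, ?_⟩
        refine Prod.ext ?_ ?_
        · show Lf k ex (j : ℕ) (pk σ fun q => if q = (j', σ j') then c⁻¹ * g else
            if q = (j, σ' j) then c'⁻¹ * h else 0) = g
          rw [hcy]
          · simp [pk, hc]
          · intro l hl hl'
            simp [pk, hl, hl']
        · show Lf k ex (j' : ℕ) (pk σ' fun q => if q = (j', σ j') then c⁻¹ * g else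
            if q = (j, σ' j) then c'⁻¹ * h else 0) = h
          rw [hcy']
          · simp [pk, hj, hc']
          · intro l hl hl'
            simp [pk, hl, hl']
    exact Eqd_av ((Eqd_H ex (j : ℕ) σ).prod (Eqd_H ex (j' : ℕ) σ')) hs F

end Pool.Agent.Lib.MP_9f2731_nt.SS
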