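import Pool.Agent.Lib.MP_9f2731_nt.SS.SpecA

/-!
MP_9f2731_nt, SS/Exp: the average over a full period as an Euler product of operators (helper48,
after GP/Sv/Exp).
-/

set_option autoImplicit false

open Finset

namespace Pool.Agent.Lib.MP_9f2731_nt.SS

open Pool.Agent.Lib.MP_9f2731_nt.GP
open Pool.Agent.Lib.MP_9f2731_nt.GP.Sv

private theorem Exp_pos {w : ℕ} {a : ℕ × ℕ} (h : Fo w a) (b : ℕ) : 0 < nl a b := by
  have := h.2.1
  unfold nl
  omega

private theorem Exp_cop {w : ℕ} {a : ℕ × ℕ} (h : Fo w a) (b : ℕ) : (nl a b).Coprime (Wp w) := by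
  obtain ⟨-, -, ⟨c, hc⟩, -, h5⟩ := h
  unfold nl
  have e : a.1 * b + a.2 = a.2 + Wp w * (c * b) := by
    rw [hc]
    ring
  rw [e, Nat.Coprime, Nat.gcd_comm, Nat.gcd_add_mul_left_right, Nat.gcd_comm]
  exact h5

theorem pExp (hU : GP.Sv.S_Ub) (hC : GP.Sv.S_Crt) : S_Exp := by
  intro ι _ _ w R a hR ha
  have hPq : (Pq w R : ℝ) ≠ 0 := by exact_mod_cast Pq_ne
  have hper : ∀ p ∈ Qs w R, ∀ b : ℕ,
      (∏ i, (1 - ind p (nl (a i) (b + p)) • mon (e i p)) : Al ι)
        = ∏ i, (1 - ind p (nl (a i) b) • mon (e i p)) := by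
    intro p _ b
    refine Finset.prod_congr rfl fun i _ => ?_
    have hh : ind p (nl (a i) (b + p)) = ind p (nl (a i) b) := by
      unfold ind
      have : (p ∣ nl (a i) (b + p)) ↔ (p ∣ nl (a i) b) := by
        have e1 : nl (a i) (b + p) = nl (a i) b + p * (a i).1 := by
          unfold nl
          ring
        rw [e1]
        exact (Nat.dvd_add_iff_left (Dvd.intro _ rfl)).symm
      simp only [this]
    rw [hh]
  have h1 := hC (Al ι) (Qs w R)
    (fun p b => ∏ i, (1 - ind p (nl (a i) b) • mon (e i p))) (fun p hp => (mem_Qs.1 hp).1) hper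
  have h2 : ∑ b ∈ range (Pq w R), ∏ i, Lam 2 R (nl (a i) b)
      = act (∏ p ∈ Qs w R, ∑ b ∈ range p, ∏ i, (1 - ind p (nl (a i) b) • mon (e i p)))
        (Ph R ι) 1 := by
    rw [← h1]
    have h3 : ∏ p ∈ Qs w R, p = Pq w R := rfl
    rw [h3, act_sum]
    refine Finset.sum_congr rfl fun b _ => ?_
    rw [hU ι w R (fun i => nl (a i) b) hR fun i => ⟨Exp_pos (ha i) _, Exp_cop (ha i) _⟩]
  have h4 : (∏ p ∈ Qs w R, EL a p : Al ι) = (1 / (Pq w R : ℝ)) •
      ∏ p ∈ Qs w R, ∑ b ∈ range p, ∏ i, (1 - ind p (nl (a i) b) • mon (e i p)) := by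
    unfold EL
    rw [Finset.prod_smul]
    congr 1
    unfold Pq
    push_cast
    rw [Finset.prod_div_distrib, Finset.prod_const_one]
  rw [h4, act_smul, ← h2]
  ring

end Pool.Agent.Lib.MP_9f2731_nt.SS
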