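import Pool.Agent.Lib.MP_9f2731_nt.SS.SpecC

/-!
MP_9f2731_nt, SS, module Fob: the forms of the windows.
-/

set_option autoImplicit false

open Finset

namespace Pool.Agent.Lib.MP_9f2731_nt.SS

open Pool.Agent.Lib.MP_9f2731_nt.GP
open Pool.Agent.Lib.MP_9f2731_nt.GP.Rel (av Ind pk HLFC Cut CutG)
open Pool.Agent.Lib.MP_9f2731_nt.GP.Asm (eb lfm)

private lemma Fob_dist_le {a b B : ℕ} (ha : a ≤ B) (hb : b ≤ B) : Nat.dist a b ≤ B := by
  unfold Nat.dist
  omega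

private lemma Fob_first (B : ℕ) : ∃ w0 : ℕ, ∀ w : ℕ, w0 ≤ w → B ≤ Wp w := by
  obtain ⟨p, hBp, hp⟩ := Nat.exists_infinite_primes B
  refine ⟨p, fun w hw => hBp.trans ?_⟩
  exact Nat.le_of_dvd (primorial_pos w) (hp.dvd_primorial_iff.2 hw)

private lemma Fob_Fo (M w b0 e Y : ℕ) (hM : 1 ≤ M) (hMw : M ≤ w) (hw : 2 ≤ w)
    (hb : Rs M w b0) : Fo w (Wq M w * 2 ^ e, Wq M w * Y + b0) := by
  have hW : 0 < Wp w := primorial_pos w
  have hQ : 0 < Wq M w := Nat.mul_pos hM hW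
  refine ⟨?_, ?_, ?_, ?_, ?_⟩
  · exact Nat.mul_pos hQ (pow_pos two_pos e)
  · change 1 ≤ Wq M w * Y + b0
    exact hb.1.trans (Nat.le_add_left _ _)
  · change Wp w ∣ M * Wp w * 2 ^ e
    exact Dvd.dvd.mul_right (Dvd.intro_left M rfl) _
  · intro p hp hd
    change p ∣ M * Wp w * 2 ^ e at hd
    rcases hp.dvd_mul.1 hd with h | h
    · rcases hp.dvd_mul.1 h with h1 | h1
      · exact (Nat.le_of_dvd hM h1).trans hMw
      · exact hp.dvd_primorial_iff.1 h1
    · have h2 := hp.dvd_of_dvd_pow h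
      exact (Nat.le_of_dvd two_pos h2).trans hw
  · change (Wq M w * Y + b0).Coprime (Wp w)
    have h1 : (Wq M w * Y + b0).Coprime (Wq M w) :=
      (Nat.coprime_mul_left_add_left _ _ _).2 hb.2.2
    exact h1.coprime_dvd_right (Dvd.intro_left M rfl)

theorem pFob : S_Fob := by
  refine ⟨Fob_first, ?_⟩
  intro M w D b0 N _ hM hMw hw hD hb e e' he he' y y'
  have hW : 0 < Wp w := primorial_pos w
  have hQ : 0 < Wq M w := Nat.mul_pos hM hW
  have hWQ : Wp w ≤ Wq M w := Nat.le_mul_of_pos_left _ hM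
  refine ⟨Fob_Fo M w b0 e y.val hM hMw hw hb, ?_, ?_⟩
  · intro hne h0
    have h1 : Wq M w * 2 ^ e * (Wq M w * y'.val + b0) =
        Wq M w * 2 ^ e' * (Wq M w * y.val + b0) := Nat.eq_of_dist_eq_zero h0
    have h2 : 2 ^ e * (Wq M w * y'.val + b0) = 2 ^ e' * (Wq M w * y.val + b0) := by
      rw [mul_assoc, mul_assoc] at h1
      exact Nat.eq_of_mul_eq_mul_left hQ h1
    have h3 : 2 ^ e * b0 ≡ 2 ^ e' * b0 [MOD Wq M w] := by
      have h4 : (2 ^ e * (Wq M w * y'.val + b0)) ≡ 2 ^ e * b0 [MOD Wq M w] := by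
        refine Nat.ModEq.mul_left _ ?_
        have : Wq M w * y'.val + b0 ≡ 0 + b0 [MOD Wq M w] :=
          Nat.ModEq.add_right _ ((Nat.modEq_zero_iff_dvd).2 (Dvd.intro _ rfl))
        rwa [zero_add] at this
      have h5 : (2 ^ e' * (Wq M w * y.val + b0)) ≡ 2 ^ e' * b0 [MOD Wq M w] := by
        refine Nat.ModEq.mul_left _ ?_
        have : Wq M w * y.val + b0 ≡ 0 + b0 [MOD Wq M w] :=
          Nat.ModEq.add_right _ ((Nat.modEq_zero_iff_dvd).2 (Dvd.intro _ rfl))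
        rwa [zero_add] at this
      rw [h2] at h4
      exact h4.symm.trans h5
    have h6 : 2 ^ e ≡ 2 ^ e' [MOD Wq M w] := Nat.ModEq.cancel_right_of_coprime hb.2.2.symm h3
    have hlt : ∀ i : ℕ, i < D → 2 ^ i < Wq M w := fun i hi =>
      lt_of_lt_of_le (Nat.pow_lt_pow_right one_lt_two hi) (hD.trans hWQ)
    have h7 : 2 ^ e = 2 ^ e' := h6.eq_of_lt_of_lt (hlt e he) (hlt e' he')
    have h8 : e = e' := Nat.pow_right_injective le_rfl h7
    rw [h7] at h2
    have h9 : Wq M w * y'.val + b0 = Wq M w * y.val + b0 :=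
      Nat.eq_of_mul_eq_mul_left (pow_pos two_pos e') h2
    have h10 : y'.val = y.val := Nat.eq_of_mul_eq_mul_left hQ (Nat.add_right_cancel h9)
    exact hne ⟨h8, (ZMod.val_injective N h10).symm⟩
  · have key : ∀ (i : ℕ) (z : ZMod N), i < D →
        Wq M w * 2 ^ i * (Wq M w * z.val + b0) ≤ Wq M w ^ 2 * 2 ^ D * N := by
      intro i z hi
      have h1 : 2 ^ i ≤ 2 ^ D := Nat.pow_le_pow_right two_pos hi.le
      have h2 : z.val + 1 ≤ N := ZMod.val_lt z
      have h3 : Wq M w * z.val + b0 ≤ Wq M w * N := by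
        calc Wq M w * z.val + b0 ≤ Wq M w * z.val + Wq M w := Nat.add_le_add_left hb.2.1.le _
          _ = Wq M w * (z.val + 1) := by ring
          _ ≤ Wq M w * N := Nat.mul_le_mul_left _ h2
      calc Wq M w * 2 ^ i * (Wq M w * z.val + b0) ≤ Wq M w * 2 ^ D * (Wq M w * N) :=
            Nat.mul_le_mul (Nat.mul_le_mul_left _ h1) h3
        _ = Wq M w ^ 2 * 2 ^ D * N := by ring
    exact Fob_dist_le (key e y' he) (key e' y he')

end Pool.Agent.Lib.MP_9f2731_nt.SS
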