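import Pool.Agent.Lib.MP_9f2731_nt.SS.SpecC

/-!
MP_9f2731_nt, SS/Lf1: the linear forms condition in one window, in mean square (helper3; adapted from
GP/Asm/Lf2 by helper49).
-/

set_option autoImplicit false

namespace Pool.Agent.Lib.MP_9f2731_nt.SS

open Finset
open Pool.Agent.Lib.MP_9f2731_nt.GP
open Pool.Agent.Lib.MP_9f2731_nt.GP.Rel (av Ind pk HLFC Cut CutG)
open Pool.Agent.Lib.MP_9f2731_nt.GP.Asm (eb lfm)

private theorem Lf1_av_prod {A B : Type} [Fintype A] [Fintype B] (g : A → B → ℝ) :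
    av (fun y : A × B => g y.1 y.2) = av (fun a => av (fun b => g a b)) := by
  unfold av
  rw [Fintype.sum_prod_type, Fintype.card_prod, Nat.cast_mul, ← Finset.sum_div, div_div,
    mul_comm (Fintype.card A : ℝ)]

private theorem Lf1_av_const {A : Type} [Fintype A] [Nonempty A] (c : ℝ) :
    av (fun _ : A => c) = c := by
  unfold av
  have h : (Fintype.card A : ℝ) ≠ 0 := Nat.cast_ne_zero.2 Fintype.card_ne_zero
  rw [Finset.sum_const, Finset.card_univ, nsmul_eq_mul]
  field_simp

private theorem Lf1_av_fst {A B : Type} [Fintype A] [Fintype B] [Nonempty B] (g : A → ℝ) :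
    av (fun y : A × B => g y.1) = av g := by
  have h := Lf1_av_prod (A := A) (B := B) (fun a _ => g a)
  rw [h]
  simp only [Lf1_av_const]

private theorem Lf1_av_snd {A B : Type} [Fintype A] [Fintype B] [Nonempty A] (g : B → ℝ) :
    av (fun y : A × B => g y.2) = av g := by
  have h := Lf1_av_prod (A := A) (B := B) (fun _ b => g b)
  rw [h, Lf1_av_const]

private theorem Lf1_av_mul {A : Type} [Fintype A] (c : ℝ) (g : A → ℝ) :
    av (fun x => c * g x) = c * av g := by
  unfold av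
  rw [← Finset.mul_sum, mul_div_assoc]

private theorem Lf1_av_sq {A : Type} [Fintype A] (g : A → ℝ) :
    av (fun y : A × A => g y.1 * g y.2) = (av g) ^ 2 := by
  have h := Lf1_av_prod (A := A) (B := A) (fun a b => g a * g b)
  rw [h]
  simp only [Lf1_av_mul]
  have h2 : (fun a => g a * av g) = fun a => av g * g a := by
    funext a
    ring
  rw [h2, Lf1_av_mul]
  ring

private theorem Lf1_lfm {G : Type} [AddCommGroup G] [Fintype G] (k : ℕ)
    (S : Finset (Fin k × (Fin k → Bool))) (ν : G → ℝ) :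
    lfm k S ν = av (fun x : Fin k × Bool → G => ∏ p ∈ S, ν (frm p.1 (pk p.2 x))) := by
  unfold lfm av
  congr 1
  rw [Fintype.card_fun, Fintype.card_prod, Fintype.card_fin, Fintype.card_bool, Nat.cast_pow,
    mul_comm k 2]

private theorem Lf1_card {k : ℕ} (S : Finset (Fin k × (Fin k → Bool))) : S.card ≤ k * 2 ^ k := by
  refine (Finset.card_le_univ S).trans (le_of_eq ?_)
  rw [Fintype.card_prod, Fintype.card_fun, Fintype.card_fin, Fintype.card_bool]

private theorem Lf1_large {c : ℝ} (h : 0 < c) (n : ℕ) : ∃ X1 : ℝ, ∀ X : ℕ, X1 ≤ X → ∀ N : ℕ,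
    Scl c X N → n ≤ N := by
  have h1 : Filter.Tendsto (fun x : ℝ => (Real.log x) ^ c) Filter.atTop Filter.atTop :=
    (tendsto_rpow_atTop h).comp Real.tendsto_log_atTop
  obtain ⟨X1, hX1⟩ := Filter.eventually_atTop.1 (h1.eventually_ge_atTop (n : ℝ))
  refine ⟨X1, fun X hX N hS => ?_⟩
  exact_mod_cast (hX1 X hX).trans hS.2.1

private theorem Lf1_inj {M k : ℕ} [NeZero M] (hM : M.Prime) (hk : k ≤ M) (n : ℕ) (h1 : 1 ≤ n)
    (h2 : n < k) : Function.Injective (fun x : ZMod M => n • x) := by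
  intro x y h3
  simp only [nsmul_eq_mul] at h3
  have : Fact M.Prime := ⟨hM⟩
  have h4 : (n : ZMod M) ≠ 0 := by
    rw [Ne, ZMod.natCast_eq_zero_iff]
    intro h5
    have := Nat.le_of_dvd h1 h5
    omega
  exact mul_left_cancel₀ h4 h3

private theorem Lf1_eb (X : ℕ) (hX : 1 ≤ X) (g : ℕ → ℝ) :
    eb X (fun b => (g b - 1) ^ 2) = (eb X (fun b => g b ^ 2) - 1) - 2 * (eb X g - 1) := by
  have hX' : (X : ℝ) ≠ 0 := by
    have : 0 < X := hX
    positivity
  unfold eb
  have h1 : ∑ b ∈ Icc 1 X, (g b - 1) ^ 2 =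
      (∑ b ∈ Icc 1 X, g b ^ 2) - 2 * (∑ b ∈ Icc 1 X, g b) + X := by
    have h2 : ∀ b ∈ Icc 1 X, (g b - 1) ^ 2 = g b ^ 2 - 2 * g b + 1 := fun b _ => by ring
    rw [Finset.sum_congr rfl h2, Finset.sum_add_distrib, Finset.sum_sub_distrib,
      ← Finset.mul_sum]
    simp
  rw [h1]
  field_simp
  ring

theorem pLf1 (hA : S_Avg) (hE : GP.Asm.EqdStmt) : S_Lf1 := by
  intro k J κ C C2 hk hJ hG D M θ hM hθ
  obtain ⟨w0, hw0⟩ := hA J κ C C2 hG D M (θ / 3) hM (by positivity)
  refine ⟨w0, fun w hw => ?_⟩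
  obtain ⟨X0, hX0⟩ := hw0 w hw
  have hC2 : 0 < C2 := hG.2.2.2.1
  obtain ⟨X1, hX1⟩ := Lf1_large (c := C2 + 2) (by linarith) (k + 1)
  refine ⟨max (max X0 X1) 1, fun X hX b0 hb0 N _ hS e he S hSj => ?_⟩
  have hXa : X0 ≤ X := ((le_max_left _ _).trans (le_max_left _ _)).trans hX
  have hXb : X1 ≤ X := ((le_max_right _ _).trans (le_max_left _ _)).trans hX
  have hXc : (1 : ℝ) ≤ X := (le_max_right _ _).trans hX
  have hXd : 1 ≤ X := by exact_mod_cast hXc
  have hkN : k + 1 ≤ N := hX1 X hXb N hS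
  have hinj := fun n a b => Lf1_inj hS.1 hkN n a b
  have hEq := hE (k + 1) (ZMod N) (by omega) hinj
  have hc := Lf1_card S
  set ν : ℕ → ZMod N → ℝ := fun b x => nub M w κ b0 X b e x with hν
  -- first mean
  have h1 := hX0 X hXa b0 hb0 N hS (Fin (k + 1) × Bool → ZMod N)
    (Fin (k + 1) × (Fin (k + 1) → Bool)) S (fun _ => e) (fun p x => frm p.1 (pk p.2 x)) (by omega)
    (fun _ _ => he)
    (fun p hp p' hp' hne => (hEq p p' (hSj p hp) (hSj p' hp')).2 hne)
  -- second mean
  have h2 := hX0 X hXa b0 hb0 N hS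
    ((Fin (k + 1) × Bool → ZMod N) × (Fin (k + 1) × Bool → ZMod N))
    (Bool × (Fin (k + 1) × (Fin (k + 1) → Bool))) (univ ×ˢ S) (fun _ => e)
    (fun c y => if c.1 then frm c.2.1 (pk c.2.2 y.2) else frm c.2.1 (pk c.2.2 y.1))
    (by
      rw [Finset.card_product, Finset.card_univ, Fintype.card_bool]
      omega)
    (fun _ _ => he)
    (by
      rintro ⟨c, p⟩ hp ⟨c', p'⟩ hp' hne F
      have hpS : p ∈ S := (Finset.mem_product.1 hp).2
      have hpS' : p' ∈ S := (Finset.mem_product.1 hp').2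
      have a1 := hEq p p' (hSj p hpS) (hSj p' hpS')
      have a2 := hEq p' p (hSj p' hpS') (hSj p hpS)
      rcases c with _ | _ <;> rcases c' with _ | _
      · have hne' : p ≠ p' := fun h => hne (by rw [h])
        simp only [Bool.false_eq_true, if_false]
        rw [Lf1_av_fst (B := Fin (k + 1) × Bool → ZMod N)
          (fun x : Fin (k + 1) × Bool → ZMod N =>
            F (frm p.1 (pk p.2 x), frm p'.1 (pk p'.2 x)))]
        exact a1.2 hne' F
      · simp only [Bool.false_eq_true, if_false, if_true]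
        rw [Lf1_av_prod (fun x y : Fin (k + 1) × Bool → ZMod N =>
            F (frm p.1 (pk p.2 x), frm p'.1 (pk p'.2 y)))]
        have e1 : ∀ x : Fin (k + 1) × Bool → ZMod N,
            av (fun y : Fin (k + 1) × Bool → ZMod N =>
              F (frm p.1 (pk p.2 x), frm p'.1 (pk p'.2 y))) =
            av (fun g => F (frm p.1 (pk p.2 x), g)) := fun x =>
          a2.1 (fun g => F (frm p.1 (pk p.2 x), g))
        simp only [e1]
        rw [a1.1 (fun g => av (fun g' => F (g, g')))]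
        exact (Lf1_av_prod (fun g g' => F (g, g'))).symm
      · simp only [Bool.false_eq_true, if_false, if_true]
        rw [Lf1_av_prod (fun x y : Fin (k + 1) × Bool → ZMod N =>
            F (frm p.1 (pk p.2 y), frm p'.1 (pk p'.2 x)))]
        have e1 : ∀ x : Fin (k + 1) × Bool → ZMod N,
            av (fun y : Fin (k + 1) × Bool → ZMod N =>
              F (frm p.1 (pk p.2 y), frm p'.1 (pk p'.2 x))) =
            av (fun g => F (g, frm p'.1 (pk p'.2 x))) := fun x =>
          a1.1 (fun g => F (g, frm p'.1 (pk p'.2 x)))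
        simp only [e1]
        rw [a2.1 (fun g' => av (fun g => F (g, g')))]
        rw [← Lf1_av_prod (fun g' g => F (g, g'))]
        unfold av
        congr 1
        exact Fintype.sum_equiv (Equiv.prodComm _ _) _ _ fun y => rfl
      · have hne' : p ≠ p' := fun h => hne (by rw [h])
        simp only [if_true]
        rw [Lf1_av_snd (A := Fin (k + 1) × Bool → ZMod N)
          (fun x : Fin (k + 1) × Bool → ZMod N =>
            F (frm p.1 (pk p.2 x), frm p'.1 (pk p'.2 x)))]
        exact a1.2 hne' F)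
  have e2 : ∀ b, av (fun y : (Fin (k + 1) × Bool → ZMod N) ×
      (Fin (k + 1) × Bool → ZMod N) => ∏ c ∈ (univ : Finset Bool) ×ˢ S,
        nub M w κ b0 X b e (if c.1 then frm c.2.1 (pk c.2.2 y.2) else frm c.2.1 (pk c.2.2 y.1))) =
      (lfm (k + 1) S (ν b)) ^ 2 := by
    intro b
    rw [Lf1_lfm, ← Lf1_av_sq]
    congr 1
    funext y
    rw [Finset.prod_product, Fintype.prod_bool]
    simp only [if_true, Bool.false_eq_true, if_false]
    rw [mul_comm]
  have e3 : ∀ b, av (fun x : Fin (k + 1) × Bool → ZMod N =>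
      ∏ p ∈ S, nub M w κ b0 X b e (frm p.1 (pk p.2 x))) = lfm (k + 1) S (ν b) := fun b =>
    (Lf1_lfm (k + 1) S (ν b)).symm
  simp only [e2] at h2
  simp only [e3] at h1
  change eb X (fun b => (lfm (k + 1) S (ν b) - 1) ^ 2) ≤ θ
  rw [Lf1_eb X hXd (fun b => lfm (k + 1) S (ν b))]
  have h5 := abs_le.1 h1
  have h6 := abs_le.1 h2
  linarith [h5.1, h5.2, h6.1, h6.2]

end Pool.Agent.Lib.MP_9f2731_nt.SS
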