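import Pool.Agent.Lib.MP_9f2731_nt.SS.SpecA

/-!
MP_9f2731_nt, SS, module LocC (helper47): the local factor times its approximate inverse.
Adapted from GP/Sv/LocC (helper44).
-/

set_option autoImplicit false

open Finset

namespace Pool.Agent.Lib.MP_9f2731_nt.SS

open Pool.Agent.Lib.MP_9f2731_nt.GP
open Pool.Agent.Lib.MP_9f2731_nt.GP.Sv

private theorem locC_vv {σ : Type} [DecidableEq σ] (p : ℕ) (j : σ) : Nm (vv p j) 3 := by
  unfold vv
  exact (((Nm.mon _).mul (Nm.mon _)).sub (Nm.mon _)).sub (Nm.mon _) |>.mono (by norm_num)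

private theorem locC_s {σ : Type} [Fintype σ] [DecidableEq σ] (p : ℕ) :
    Nm ((1 / (p : ℝ)) • ∑ j : σ, (vv p j : Al (σ × Bool))) (3 * (Fintype.card σ : ℝ) / p) := by
  have h1 : Nm (∑ j : σ, (vv p j : Al (σ × Bool))) (∑ _j : σ, (3 : ℝ)) :=
    Nm.sum univ fun j _ => locC_vv p j
  have h2 := h1.smul (1 / (p : ℝ))
  refine h2.mono (le_of_eq ?_)
  rw [Finset.sum_const, Finset.card_univ, nsmul_eq_mul, abs_of_nonneg (by positivity)]
  ring

private theorem locC_num {a b p A B : ℝ} (hp : 1 ≤ p) (ha : 0 ≤ a) (hb : 0 ≤ b) (haA : a ≤ A)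
    (hbB : b ≤ B) : a / p + b / p + a / p * (b / p) ≤ (A + B + A * B) / p := by
  have hp0 : 0 < p := by linarith
  have hA : 0 ≤ A := ha.trans haA
  have hB : 0 ≤ B := hb.trans hbB
  have h1 : a / p * (b / p) ≤ A * B / p := by
    rw [div_mul_div_comm]
    refine (div_le_div_of_nonneg_right (mul_le_mul haA hbB hb hA) (by positivity)).trans ?_
    exact div_le_div_of_nonneg_left (by positivity) hp0 (by nlinarith)
  have h2 : a / p ≤ A / p := div_le_div_of_nonneg_right haA hp0.le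
  have h3 : b / p ≤ B / p := div_le_div_of_nonneg_right hbB hp0.le
  rw [add_div, add_div]
  linarith

theorem pLocC (hA : S_LocA) (hB : S_LocB) (hD : GP.Sv.S_LocD) : S_LocC := by
  intro n
  obtain ⟨C0, hC0, hD⟩ := hD n
  have hn0 : (0 : ℝ) ≤ n := Nat.cast_nonneg _
  obtain ⟨C1, hC1⟩ : ∃ C1 : ℝ, C1 = C0 + 3 * n := ⟨_, rfl⟩
  obtain ⟨C2, hC2⟩ : ∃ C2 : ℝ, C2 = (n : ℝ) * (4 ^ n + 1) := ⟨_, rfl⟩
  obtain ⟨C3, hC3⟩ : ∃ C3 : ℝ, C3 = C0 + 9 * n ^ 2 + 3 * n * C0 := ⟨_, rfl⟩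
  have h1 : 0 ≤ C1 := by rw [hC1]; positivity
  have h2 : 0 ≤ C2 := by rw [hC2]; positivity
  have h3 : 0 ≤ C3 := by rw [hC3]; positivity
  refine ⟨C2 + C1 + C2 * C1 + C3 + 1, by positivity, ?_⟩
  intro σ _ _ w K p a hσ hK hp hw hm
  have hp1 : (1 : ℝ) ≤ p := by exact_mod_cast hp.one_lt.le
  have hp0 : (0 : ℝ) < p := by linarith
  have hσ' : (Fintype.card σ : ℝ) ≤ n := by exact_mod_cast hσ
  have hs : Nm ((1 / (p : ℝ)) • ∑ j : σ, (vv p j : Al (σ × Bool))) (3 * n / p) :=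
    (locC_s p).mono (div_le_div_of_nonneg_right (by linarith) hp0.le)
  have hρ := hD σ K p hσ hK hp.two_le
  have hDD : Nm ((DD K p : Al (σ × Bool)) - 1) (C1 / p) := by
    have h4 := hρ.sub hs
    have h5 : (DD K p : Al (σ × Bool)) - 1 + (1 / (p : ℝ)) • ∑ j : σ, vv p j -
        (1 / (p : ℝ)) • ∑ j : σ, vv p j = DD K p - 1 := by abel
    rw [h5] at h4
    refine h4.mono ?_
    rw [hC1, add_div]
    refine add_le_add ?_ le_rfl
    exact div_le_div_of_nonneg_left hC0 hp0 (by nlinarith)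
  constructor
  · have h4 := hB σ w p a hp hw hm
    have h5 : Nm (EL (fun i : σ × Bool => a i.1) p - 1) (C2 / p) := by
      refine h4.mono ?_
      rw [hC2]
      refine div_le_div_of_nonneg_right ?_ hp0.le
      refine mul_le_mul hσ' ?_ (by positivity) hn0
      have : (4 : ℝ) ^ Fintype.card σ ≤ 4 ^ n := pow_le_pow_right₀ (by norm_num) hσ
      linarith
    have h6 := (h5.add hDD).add (h5.mul hDD)
    have h7 : EL (fun i : σ × Bool => a i.1) p - 1 + (DD K p - 1) +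
        (EL (fun i : σ × Bool => a i.1) p - 1) * (DD K p - 1) =
        EL (fun i : σ × Bool => a i.1) p * DD K p - 1 := by ring
    rw [h7] at h6
    refine h6.mono ?_
    refine (locC_num hp1 h2 h1 le_rfl le_rfl).trans ?_
    exact div_le_div_of_nonneg_right (by linarith) hp0.le
  · intro hd
    have h4 := hA σ w p a hp hw hm hd
    have h5 := (hρ.sub (hs.mul hs)).add (hs.mul hρ)
    have h6 : (DD K p : Al (σ × Bool)) - 1 + (1 / (p : ℝ)) • ∑ j : σ, vv p j -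
        ((1 / (p : ℝ)) • ∑ j : σ, vv p j) * ((1 / (p : ℝ)) • ∑ j : σ, vv p j) +
        ((1 / (p : ℝ)) • ∑ j : σ, vv p j) *
          (DD K p - 1 + (1 / (p : ℝ)) • ∑ j : σ, vv p j) =
        EL (fun i : σ × Bool => a i.1) p * DD K p - 1 := by
      rw [h4]
      ring
    rw [h6] at h5
    refine h5.mono ?_
    have h7 : 3 * (n : ℝ) / p * (C0 / (p : ℝ) ^ 2) ≤ 3 * n * C0 / (p : ℝ) ^ 2 := by
      rw [div_mul_div_comm]
      exact div_le_div_of_nonneg_left (by positivity) (by positivity) (by nlinarith [sq_nonneg (p : ℝ)])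
    have h8 : 3 * (n : ℝ) / p * (3 * n / p) = 9 * n ^ 2 / (p : ℝ) ^ 2 := by
      rw [div_mul_div_comm]
      congr 1 <;> ring
    rw [h8]
    have h9 : C0 / (p : ℝ) ^ 2 + 9 * (n : ℝ) ^ 2 / (p : ℝ) ^ 2 + 3 * n * C0 / (p : ℝ) ^ 2 =
        C3 / (p : ℝ) ^ 2 := by
      rw [hC3, add_div, add_div]
    have h10 : C3 / (p : ℝ) ^ 2 ≤ (C2 + C1 + C2 * C1 + C3 + 1) / (p : ℝ) ^ 2 := by
      refine div_le_div_of_nonneg_right ?_ (by positivity)
      have : 0 ≤ C2 * C1 := mul_nonneg h2 h1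
      linarith
    linarith

end Pool.Agent.Lib.MP_9f2731_nt.SS
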