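import Pool.Agent.Lib.MP_9f2731_nt.SS.SpecC

set_option autoImplicit false

/-!
MP_9f2731_nt, SS/Log: the final form of the theorem (dyadic blocks).
-/

namespace Pool.Agent.Lib.MP_9f2731_nt.SS

open Finset

/-- the conclusion of BasStmt gives a chain -/
private theorem Log_chain (k k' M c0 d m h : ℕ) (S : Set ℕ) (hk : k ≤ k') (hM : M ∣ m)
    (hA : ∀ j : ℕ, j < k' → 2 ^ (c0 + j * d) * m + h ∈ S) :
    ∃ p : ℕ → ℕ, Chn k S d h p ∧ p 1 ≡ h [MOD M] ∧ p 1 = 2 ^ (c0 + 0 * d) * m + h := by
  refine ⟨fun i => 2 ^ (c0 + (i - 1) * d) * m + h, ⟨?_, ?_⟩, ?_, ?_⟩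
  · intro i h1 h2
    exact hA (i - 1) (by omega)
  · intro i h1
    obtain ⟨j, rfl⟩ : ∃ j, i = j + 1 := ⟨i - 1, by omega⟩
    simp only [Nat.add_sub_cancel]
    push_cast
    have : c0 + (j + 1) * d = d + (c0 + j * d) := by ring
    rw [this, pow_add]
    ring
  · obtain ⟨n, rfl⟩ := hM
    show 2 ^ (c0 + (1 - 1) * d) * (M * n) + h ≡ h [MOD M]
    have h0 : 2 ^ (c0 + (1 - 1) * d) * (M * n) ≡ 0 [MOD M] := by
      rw [Nat.modEq_zero_iff_dvd]
      exact ⟨2 ^ (c0 + (1 - 1) * d) * n, by ring⟩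
    simpa using Nat.ModEq.add_right h h0
  · rfl

/-- the sum over the blocks -/
private theorem Log_blocks (E : Finset ℕ) (f : ℕ → ℝ) (B D : ℕ) (t : ℝ)
    (hb : ∀ Z : ℕ, B ≤ Z → ∑ q ∈ E.filter (fun q => Z < q ∧ q ≤ 2 ^ D * Z), f q ≤ t) (I : ℕ) :
    ∑ q ∈ E.filter (fun q => q ≤ B * 2 ^ (D * I)), f q ≤
      ∑ q ∈ E.filter (fun q => q ≤ B), f q + I * t := by
  induction I with
  | zero => simp
  | succ I ih =>
    have hZ : B ≤ B * 2 ^ (D * I) := Nat.le_mul_of_pos_right _ (by positivity)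
    have h1 := hb _ hZ
    have hmono : B * 2 ^ (D * I) ≤ B * 2 ^ (D * (I + 1)) := by
      apply Nat.mul_le_mul_left
      exact Nat.pow_le_pow_right (by norm_num) (by nlinarith)
    have hval : 2 ^ D * (B * 2 ^ (D * I)) = B * 2 ^ (D * (I + 1)) := by
      rw [mul_add, mul_one, pow_add]; ring
    have hsplit : ∑ q ∈ E.filter (fun q => q ≤ B * 2 ^ (D * (I + 1))), f q =
        ∑ q ∈ E.filter (fun q => q ≤ B * 2 ^ (D * I)), f q +
        ∑ q ∈ E.filter (fun q => B * 2 ^ (D * I) < q ∧ q ≤ 2 ^ D * (B * 2 ^ (D * I))), f q := by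
      rw [← Finset.sum_union]
      · apply Finset.sum_congr _ (fun _ _ => rfl)
        ext q
        simp only [Finset.mem_filter, Finset.mem_union]
        rw [hval]
        constructor
        · rintro ⟨hq, h2⟩
          rcases le_or_gt q (B * 2 ^ (D * I)) with h3 | h3
          · exact Or.inl ⟨hq, h3⟩
          · exact Or.inr ⟨hq, h3, h2⟩
        · rintro (⟨hq, h3⟩ | ⟨hq, h3, h4⟩)
          · exact ⟨hq, h3.trans hmono⟩
          · exact ⟨hq, h4⟩
      · rw [Finset.disjoint_left]
        intro q hq hq'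
        simp only [Finset.mem_filter] at hq hq'
        omega
    rw [hsplit]
    push_cast
    linarith

theorem pLog (hB : S_Bas) : S_Log := by
  intro k
  obtain ⟨c, hc, hBas⟩ := hB (max k 3) (le_max_right _ _)
  refine ⟨c, ?_⟩
  intro δ hδ
  obtain ⟨D, hD, hBas⟩ := hBas (δ / 2) (by positivity)
  refine ⟨D, ?_⟩
  intro M hM
  obtain ⟨Z0, hBas⟩ := hBas M hM
  -- the main step: a chain in a dense set
  have key : ∀ Z : ℕ, Z0 ≤ Z → ∀ A : Finset ℕ, Dens D (δ / 2) Z A →
      ∃ d h : ℕ, 1 ≤ d ∧ d ≤ D ∧ 1 ≤ h ∧ (h : ℝ) ≤ Real.log Z ^ c ∧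
        ∃ p, Chn k (A : Set ℕ) d h p ∧ p 1 ≡ h [MOD M] ∧ p 1 ∈ A := by
    intro Z hZ A hA
    obtain ⟨e0, d, m, h, hd, hed, hm, hMm, hh, hhZ, hmem⟩ := hBas Z hZ A hA
    obtain ⟨p, hp1, hp2, hp3⟩ := Log_chain k (max k 3) M e0 d m h (A : Set ℕ)
      (le_max_left _ _) hMm (fun j hj => by exact_mod_cast hmem j hj)
    refine ⟨d, h, hd, ?_, hh, hhZ, p, hp1, hp2, ?_⟩
    · have h2 : 1 ≤ max k 3 - 1 := by
        have := le_max_right k 3
        omega
      have h3 : 1 * d ≤ (max k 3 - 1) * d := Nat.mul_le_mul_right d h2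
      omega
    · rw [hp3]
      exact hmem 0 (lt_of_lt_of_le (by norm_num) (le_max_right k 3))
  set B : ℕ := max Z0 3 with hBdef
  set Y : ℕ := ⌈Real.exp (4 * (B + δ * D / 2) / δ)⌉₊ with hYdef
  refine ⟨max B Y, ?_, ?_⟩
  · intro Z hZ A hA1 hA2
    have hZ0 : Z0 ≤ Z := le_trans (le_max_left _ _) (le_trans (le_max_left _ _) hZ)
    have hdens : Dens D (δ / 2) Z A := by
      refine ⟨hA1, le_trans ?_ hA2⟩
      have : (0 : ℝ) ≤ D := Nat.cast_nonneg _
      nlinarith
    obtain ⟨d, h, h1, h2, h3, h4, p, h5, h6, _⟩ := key Z hZ0 A hdens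
    exact ⟨d, h, h1, h2, h3, h4, p, h5, h6⟩
  · intro X hX
    -- general form
    have gen : ∀ E : Finset ℕ, (∀ q ∈ E, (1 ≤ q ∧ q ≤ X) ∧ Nat.Prime q ∧ ¬∃ d h : ℕ, 1 ≤ d ∧
        d ≤ D ∧ 1 ≤ h ∧ (h : ℝ) ≤ Real.log q ^ c ∧ q ≡ h [MOD M] ∧
        ∃ p, p 1 = q ∧ Chn k {n | Nat.Prime n} d h p) →
        ∑ q ∈ E, Real.log q / q ≤ δ * Real.log X := by
      intro E hE
      have hBX : B ≤ X := le_trans (le_max_left _ _) hX
      have hYX : Y ≤ X := le_trans (le_max_right _ _) hX
      have hB3 : 3 ≤ B := le_max_right _ _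
      have hX3 : 3 ≤ X := le_trans hB3 hBX
      have hXpos : (0 : ℝ) < X := by exact_mod_cast (by omega : 0 < X)
      have hnonneg : ∀ q : ℕ, 0 ≤ Real.log q / q := fun q =>
        div_nonneg (Real.log_natCast_nonneg q) (Nat.cast_nonneg q)
      have hle1 : ∀ q : ℕ, Real.log q / q ≤ 1 := by
        intro q
        rcases Nat.eq_zero_or_pos q with h0 | h0
        · subst h0; simp
        · have hq : (0 : ℝ) < q := by exact_mod_cast h0
          rw [div_le_one hq]
          have := Real.log_le_sub_one_of_pos hq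
          linarith
      -- blocks
      have hb : ∀ Z : ℕ, B ≤ Z →
          ∑ q ∈ E.filter (fun q => Z < q ∧ q ≤ 2 ^ D * Z), Real.log q / q ≤ δ / 2 * D := by
        intro Z hZ
        by_contra hcon
        push Not at hcon
        have hZ0 : Z0 ≤ Z := le_trans (le_max_left _ _) hZ
        have hdens : Dens D (δ / 2) Z (E.filter (fun q => Z < q ∧ q ≤ 2 ^ D * Z)) := by
          refine ⟨?_, hcon.le⟩
          intro p hp
          rw [Finset.mem_filter] at hp
          exact ⟨(hE p hp.1).2.1, hp.2⟩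
        obtain ⟨d, h, h1, h2, h3, h4, p, h5, h6, h7⟩ := key Z hZ0 _ hdens
        rw [Finset.mem_filter] at h7
        apply (hE _ h7.1).2.2
        refine ⟨d, h, h1, h2, h3, ?_, h6, p, rfl, ?_, h5.2⟩
        · refine h4.trans ?_
          apply Real.rpow_le_rpow (Real.log_natCast_nonneg Z) _ hc.le
          apply Real.log_le_log
          · have : 0 < Z := by omega
            exact_mod_cast this
          · exact_mod_cast h7.2.1.le
        · intro i hi1 hi2
          have := h5.1 i hi1 hi2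
          have h8 : p i ∈ E.filter (fun q => Z < q ∧ q ≤ 2 ^ D * Z) := by exact_mod_cast this
          rw [Finset.mem_filter] at h8
          exact (hE _ h8.1).2.1
      set I : ℕ := Nat.log 2 X / D + 1 with hIdef
      have hblock := Log_blocks E (fun q => Real.log q / q) B D (δ / 2 * D) hb I
      -- all of E is covered
      have hcov : E.filter (fun q => q ≤ B * 2 ^ (D * I)) = E := by
        apply Finset.filter_true_of_mem
        intro q hq
        have h1 : q ≤ X := (hE q hq).1.2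
        have h2 : X < 2 ^ (Nat.log 2 X + 1) := Nat.lt_pow_succ_log_self (by norm_num) X
        have h3 : Nat.log 2 X + 1 ≤ D * I := by
          rw [hIdef, mul_add, mul_one]
          have := Nat.div_add_mod (Nat.log 2 X) D
          have h4 := Nat.mod_lt (Nat.log 2 X) (by omega : D > 0)
          omega
        have h5 : 2 ^ (Nat.log 2 X + 1) ≤ 2 ^ (D * I) := Nat.pow_le_pow_right (by norm_num) h3
        have h6 : 2 ^ (D * I) ≤ B * 2 ^ (D * I) := Nat.le_mul_of_pos_left _ (by omega)
        omega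
      rw [hcov] at hblock
      -- the small part
      have hsmall : ∑ q ∈ E.filter (fun q => q ≤ B), Real.log q / q ≤ B := by
        calc ∑ q ∈ E.filter (fun q => q ≤ B), Real.log q / q
            ≤ ∑ q ∈ Icc 1 B, (1 : ℝ) := by
              apply le_trans (Finset.sum_le_sum_of_subset_of_nonneg (t := Icc 1 B) _ _)
              · exact Finset.sum_le_sum (fun q _ => hle1 q)
              · intro q hq
                rw [Finset.mem_filter] at hq
                rw [Finset.mem_Icc]
                exact ⟨(hE q hq.1).1.1, hq.2⟩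
              · intro q _ _
                exact hnonneg q
          _ = B := by simp
      -- the number of blocks
      have hD0 : (0 : ℝ) < D := by exact_mod_cast (by omega : 0 < D)
      have hI : (I : ℝ) * D ≤ Real.log X / Real.log 2 + D := by
        have h1 : ((Nat.log 2 X / D : ℕ) : ℝ) * D ≤ Nat.log 2 X := by
          exact_mod_cast Nat.div_mul_le_self _ _
        have h2 : (Nat.log 2 X : ℝ) ≤ Real.log X / Real.log 2 := by
          have h3 := Real.natLog_le_logb X 2
          rw [Real.logb] at h3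
          exact_mod_cast h3
        rw [hIdef]
        push_cast
        nlinarith
      have hlog2 : (0.6931471803 : ℝ) < Real.log 2 := Real.log_two_gt_d9
      have hlogX : 4 * (B + δ * D / 2) / δ ≤ Real.log X := by
        rw [Real.le_log_iff_exp_le hXpos]
        refine (Nat.le_ceil _).trans ?_
        exact_mod_cast hYX
      have hlogX0 : 0 ≤ Real.log X := Real.log_natCast_nonneg X
      have h34 : Real.log X / Real.log 2 ≤ 3 / 2 * Real.log X := by
        rw [div_le_iff₀ (by linarith)]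
        nlinarith
      have hmain : (B : ℝ) + δ * D / 2 ≤ δ / 4 * Real.log X := by
        rw [div_le_iff₀ hδ] at hlogX
        linarith
      have hfin : (I : ℝ) * (δ / 2 * D) ≤ δ / 2 * (3 / 2 * Real.log X + D) := by
        have : (I : ℝ) * (δ / 2 * D) = δ / 2 * (I * D) := by ring
        rw [this]
        apply mul_le_mul_of_nonneg_left _ (by positivity)
        linarith
      nlinarith
    apply gen
    intro q hq
    simp only [Finset.mem_filter, Finset.mem_Icc] at hq
    exact hq

end Pool.Agent.Lib.MP_9f2731_nt.SS
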