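import Pool.Agent.Lib.MP_9f2731_nt.SS.SpecA

/-!
MP_9f2731_nt, SS, module Mom: moments of the sieve majorant for linear forms.
-/

set_option autoImplicit false

namespace Pool.Agent.Lib.MP_9f2731_nt.SS

open Finset
open Pool.Agent.Lib.MP_9f2731_nt.GP

/-- A set of numbers at most `X`, pairwise congruent modulo `e`, has at most `X / e + 1` elements. -/
private lemma Mom_card {A : Finset ℕ} {e X : ℕ} (hA : ∀ a ∈ A, a ≤ X)
    (h : ∀ a ∈ A, ∀ b ∈ A, a ≡ b [MOD e]) : (A.card : ℝ) ≤ (X : ℝ) / e + 1 := by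
  have h1 : A.card ≤ X / e + 1 := by
    have h2 : A.card ≤ (range (X / e + 1)).card := by
      apply Finset.card_le_card_of_injOn (fun a => a / e)
      · intro a ha
        simp only [Finset.coe_range, Set.mem_Iio]
        have := Nat.div_le_div_right (c := e) (hA a ha)
        omega
      · intro a ha b hb hab
        have h3 : a / e = b / e := hab
        have h4 : a % e = b % e := h a ha b hb
        rw [← Nat.div_add_mod a e, ← Nat.div_add_mod b e, h3, h4]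
    rwa [Finset.card_range] at h2
  have h5 : ((X / e : ℕ) : ℝ) ≤ (X : ℝ) / e := Nat.cast_div_le
  have h6 : (A.card : ℝ) ≤ ((X / e + 1 : ℕ) : ℝ) := by exact_mod_cast h1
  push_cast at h6
  linarith

private lemma Mom_cnt {w : ℕ} {a : ℕ × ℕ} (ha : Fo w a) (D X : ℕ) :
    (((Icc 1 X).filter (fun b => D ∣ nl a b)).card : ℝ) ≤ (X : ℝ) / D + 1 := by
  refine Mom_card (fun b hb => (Finset.mem_Icc.1 (Finset.mem_filter.1 hb).1).2) ?_
  intro b hb c hc
  have h1 : D ∣ a.1 * b + a.2 := (Finset.mem_filter.1 hb).2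
  have h2 : D ∣ a.1 * c + a.2 := (Finset.mem_filter.1 hc).2
  have hco : Nat.gcd D a.1 = 1 := by
    by_contra hne
    obtain ⟨p, hp, hpd⟩ := Nat.exists_prime_and_dvd hne
    have d1 : p ∣ a.1 * b + a.2 := (hpd.trans (Nat.gcd_dvd_left D a.1)).trans h1
    have d2 : p ∣ a.1 := hpd.trans (Nat.gcd_dvd_right D a.1)
    have d3 : p ∣ a.2 := (Nat.dvd_add_right (d2.mul_right b)).1 d1
    have d4 : p ≤ w := ha.2.2.2.1 p hp d2
    have d5 : p ∣ Wp w := Finset.dvd_prod_of_mem (fun q => q)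
      (Finset.mem_filter.2 ⟨Finset.mem_range.2 (Nat.lt_succ_of_le d4), hp⟩)
    exact Nat.not_coprime_of_dvd_of_dvd hp.one_lt d3 d5 ha.2.2.2.2
  have h3 : a.1 * b + a.2 ≡ a.1 * c + a.2 [MOD D] :=
    ((Nat.modEq_zero_iff_dvd).2 h1).trans ((Nat.modEq_zero_iff_dvd).2 h2).symm
  exact Nat.ModEq.cancel_left_of_coprime hco (Nat.ModEq.add_right_cancel' a.2 h3)

private lemma Mom_Lam (l : ℕ) (R : ℝ) (n : ℕ) (hR : 1 < R) :
    |Lam l R n| ≤ ((((Icc 1 ⌊R⌋₊).filter Squarefree).filter (fun d => d ∣ n)).card : ℝ) := by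
  classical
  unfold Lam
  refine le_trans (Finset.abs_sum_le_sum_abs _ _) ?_
  have hlogR : 0 < Real.log R := Real.log_pos hR
  have hterm : ∀ d ∈ n.divisors.filter (fun d : ℕ => (d : ℝ) ≤ R),
      |((ArithmeticFunction.moebius d : ℤ) : ℝ) * (1 - Real.log d / Real.log R) ^ l| ≤
        if Squarefree d then (1 : ℝ) else 0 := by
    intro d hd
    rw [Finset.mem_filter] at hd
    have hd1 : 1 ≤ d := Nat.pos_of_mem_divisors hd.1
    have hd1' : (1 : ℝ) ≤ d := by exact_mod_cast hd1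
    have hlogd : 0 ≤ Real.log (d : ℝ) := Real.log_nonneg hd1'
    have hq0 : 0 ≤ Real.log (d : ℝ) / Real.log R := by positivity
    have hq1 : Real.log (d : ℝ) / Real.log R ≤ 1 := by
      rw [div_le_one hlogR]
      exact Real.log_le_log (by linarith) hd.2
    rw [abs_mul, abs_pow]
    have h1 : |1 - Real.log (d : ℝ) / Real.log R| ≤ 1 := by
      rw [abs_le]
      constructor <;> linarith
    have h1' : |1 - Real.log (d : ℝ) / Real.log R| ^ l ≤ 1 := pow_le_one₀ (abs_nonneg _) h1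
    split_ifs with hsq
    · have h2 : |((ArithmeticFunction.moebius d : ℤ) : ℝ)| ≤ 1 := by
        exact_mod_cast ArithmeticFunction.abs_moebius_le_one (n := d)
      exact mul_le_one₀ h2 (by positivity) h1'
    · rw [ArithmeticFunction.moebius_eq_zero_of_not_squarefree hsq]
      simp
  refine le_trans (Finset.sum_le_sum hterm) ?_
  rw [← Finset.sum_filter, Finset.sum_const, nsmul_eq_mul, mul_one]
  have hsub : (n.divisors.filter (fun d : ℕ => (d : ℝ) ≤ R)).filter Squarefree ⊆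
      ((Icc 1 ⌊R⌋₊).filter Squarefree).filter (fun d => d ∣ n) := by
    intro d hd
    simp only [Finset.mem_filter, Finset.mem_Icc, Nat.mem_divisors] at hd ⊢
    refine ⟨⟨⟨?_, Nat.le_floor hd.1.2⟩, hd.2⟩, hd.1.1.1⟩
    exact Nat.pos_of_dvd_of_pos hd.1.1.1 (Nat.pos_of_ne_zero hd.1.1.2)
  exact_mod_cast Finset.card_le_card hsub

private lemma Mom_nu (l w : ℕ) (R x : ℝ) (n : ℕ) (hl : 1 ≤ l) (hR : 1 < R) (hRx : Real.log R ≤ x) :
    0 ≤ nu l w R n ∧
      nu l w R n ≤ x * ((((Icc 1 ⌊R⌋₊).filter Squarefree).filter (fun d => d ∣ n)).card : ℝ) ^ 2 := by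
  classical
  have hlogR : 0 < Real.log R := Real.log_pos hR
  have hL := Mom_Lam l R n hR
  have hW : 0 < Wp w := primorial_pos w
  have hA0 : (0 : ℝ) ≤ ((Wp w).totient / (Wp w) : ℝ) := by positivity
  have hA1 : ((Wp w).totient / (Wp w) : ℝ) ≤ 1 := by
    rw [div_le_one (by exact_mod_cast hW)]
    exact_mod_cast Nat.totient_le _
  have hl' : (1 : ℝ) ≤ l := by exact_mod_cast hl
  have hB0 : 0 ≤ (2 * (l : ℝ) - 1) / (l : ℝ) ^ 2 := by
    apply div_nonneg (by linarith) (by positivity)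
  have hB1 : (2 * (l : ℝ) - 1) / (l : ℝ) ^ 2 ≤ 1 := by
    rw [div_le_one (by positivity)]
    nlinarith [sq_nonneg ((l : ℝ) - 1)]
  have hsq : (Lam l R n) ^ 2 ≤
      ((((Icc 1 ⌊R⌋₊).filter Squarefree).filter (fun d => d ∣ n)).card : ℝ) ^ 2 := by
    rw [← sq_abs]
    exact pow_le_pow_left₀ (abs_nonneg _) hL 2
  unfold nu
  refine ⟨by positivity, ?_⟩
  have hx0 : 0 ≤ x := le_trans hlogR.le hRx
  have hx1 : 0 ≤ 1 * x := by linarith
  have h1 : ((Wp w).totient / (Wp w) : ℝ) * Real.log R * ((2 * (l : ℝ) - 1) / (l : ℝ) ^ 2) ≤ x := by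
    calc ((Wp w).totient / (Wp w) : ℝ) * Real.log R * ((2 * (l : ℝ) - 1) / (l : ℝ) ^ 2)
        ≤ 1 * x * 1 := by gcongr
      _ = x := by ring
  exact mul_le_mul h1 hsq (sq_nonneg _) hx0

private lemma Mom_pow (m Rf n : ℕ) :
    ((((Icc 1 Rf).filter Squarefree).filter (fun d => d ∣ n)).card) ^ m =
      ((Fintype.piFinset (fun _ : Fin m => (Icc 1 Rf).filter Squarefree)).filter
        (fun d => univ.lcm d ∣ n)).card := by
  classical
  rw [← Fintype.card_piFinset_const]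
  congr 1
  ext d
  simp only [Fintype.mem_piFinset, Finset.mem_filter, Finset.lcm_dvd_iff, Finset.mem_univ,
    forall_true_left, forall_and]

/-- the sum over `b` of the power of the number of squarefree divisors -/
private lemma Mom_sum (h2 : GP.Rom.LcmStmt) {w : ℕ} {a : ℕ × ℕ} (ha : Fo w a) (m Rf X : ℕ) :
    ∑ b ∈ Icc 1 X, ((((Icc 1 Rf).filter Squarefree).filter (fun d => d ∣ nl a b)).card : ℝ) ^ m ≤
      X * (∏ p ∈ (Ioc 0 Rf).filter Nat.Prime, (1 + (2 : ℝ) ^ m / (p : ℝ))) + (Rf : ℝ) ^ m := by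
  classical
  have e1 : ∀ b ∈ Icc 1 X,
      ((((Icc 1 Rf).filter Squarefree).filter (fun d => d ∣ nl a b)).card : ℝ) ^ m =
      ∑ d ∈ Fintype.piFinset (fun _ : Fin m => (Icc 1 Rf).filter Squarefree),
        if univ.lcm d ∣ nl a b then (1 : ℝ) else 0 := by
    intro b _
    rw [← Finset.sum_filter, Finset.sum_const, nsmul_eq_mul, mul_one, ← Mom_pow]
    push_cast
    rfl
  rw [Finset.sum_congr rfl e1, Finset.sum_comm]
  have e2 : ∀ d ∈ Fintype.piFinset (fun _ : Fin m => (Icc 1 Rf).filter Squarefree),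
      (∑ b ∈ Icc 1 X, if univ.lcm d ∣ nl a b then (1 : ℝ) else 0) ≤
        X * (1 / ((univ.lcm d : ℕ) : ℝ)) + 1 := by
    intro d hd
    rw [← Finset.sum_filter, Finset.sum_const, nsmul_eq_mul, mul_one]
    have := Mom_cnt ha (univ.lcm d) X
    rw [mul_one_div]
    exact this
  refine le_trans (Finset.sum_le_sum e2) ?_
  rw [Finset.sum_add_distrib, ← Finset.mul_sum, Finset.sum_const, nsmul_eq_mul, mul_one,
    Fintype.card_piFinset_const]
  have hcard : (((Icc 1 Rf).filter Squarefree).card : ℝ) ≤ Rf := by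
    have h := Finset.card_filter_le (Icc 1 Rf) Squarefree
    rw [Nat.card_Icc] at h
    exact_mod_cast (by omega : ((Icc 1 Rf).filter Squarefree).card ≤ Rf)
  have h2' := h2 m Rf
  push_cast
  gcongr

theorem pMom (hT : GP.Rom.TotStmt) (hL : GP.Rom.LcmStmt) : S_Mom := by
  classical
  intro J
  have hP0 : (0 : ℝ) < 2 ^ (2 * J) := by positivity
  obtain ⟨B, hB, hTot⟩ := hT (2 ^ (2 * J)) hP0
  refine ⟨J + 2 ^ (2 * J) + 1, by positivity, ?_⟩
  intro w κ hκ hJκ
  refine ⟨Real.exp (B * 2 ^ ((2 : ℝ) ^ (2 * J)) + 2) + 2 ^ (1 / κ) + 3, ?_⟩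
  intro X hX a ha
  have hK : 0 < B * (2 : ℝ) ^ ((2 : ℝ) ^ (2 * J)) := by positivity
  have hexp0 := Real.exp_pos (B * (2 : ℝ) ^ ((2 : ℝ) ^ (2 * J)) + 2)
  have hpow0 : (0 : ℝ) < 2 ^ (1 / κ) := by positivity
  have hX3 : (3 : ℝ) ≤ X := by linarith
  have hX0 : (0 : ℝ) < X := by linarith
  have hlogX : B * (2 : ℝ) ^ ((2 : ℝ) ^ (2 * J)) + 2 ≤ Real.log X := by
    rw [Real.le_log_iff_exp_le hX0]
    linarith
  have hlog1 : 1 ≤ Real.log X := by linarith
  rw [div_le_iff₀ hX0]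
  rcases Nat.eq_zero_or_pos J with hJ | hJ
  · subst hJ
    simp only [pow_zero, Finset.sum_const, Nat.card_Icc, nsmul_eq_mul, mul_one]
    have : (1 : ℝ) ≤ (Real.log X) ^ (((0 : ℕ) : ℝ) + 2 ^ (2 * 0) + 1) :=
      Real.one_le_rpow hlog1 (by positivity)
    have hc : ((X + 1 - 1 : ℕ) : ℝ) = X := by simp
    rw [hc]
    nlinarith
  · have hJ' : (1 : ℝ) ≤ J := by exact_mod_cast hJ
    have hκ1 : κ ≤ 1 := by nlinarith
    have hX1 : (1 : ℝ) < X := by linarith
    have hR : 1 < (X : ℝ) ^ κ := Real.one_lt_rpow hX1 hκ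
    have hR2 : 2 ≤ (X : ℝ) ^ κ := by
      have h := Real.rpow_le_rpow hpow0.le (by linarith : (2 : ℝ) ^ (1 / κ) ≤ X) hκ.le
      rw [← Real.rpow_mul (by norm_num), one_div_mul_cancel hκ.ne', Real.rpow_one] at h
      exact h
    have hRX : (X : ℝ) ^ κ ≤ X := by
      have h := Real.rpow_le_rpow_of_exponent_le hX1.le hκ1
      rwa [Real.rpow_one] at h
    have hlogR : Real.log ((X : ℝ) ^ κ) ≤ Real.log X := Real.log_le_log (by linarith) hRX
    obtain ⟨Rf, hRf⟩ : ∃ Rf : ℕ, Rf = ⌊(X : ℝ) ^ κ⌋₊ := ⟨_, rfl⟩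
    have hRf2 : 2 ≤ Rf := by
      rw [hRf]
      exact Nat.le_floor (by exact_mod_cast hR2)
    have hRfR : (Rf : ℝ) ≤ (X : ℝ) ^ κ := by
      rw [hRf]
      exact Nat.floor_le (by linarith)
    -- bound of the summand
    have hterm : ∀ b ∈ Icc 1 X, (nu 2 w ((X : ℝ) ^ κ) (nl a b)) ^ J ≤
        (Real.log X) ^ J *
        ((((Icc 1 Rf).filter Squarefree).filter (fun d => d ∣ nl a b)).card : ℝ) ^ (2 * J) := by
      intro b _
      have hn := Mom_nu 2 w ((X : ℝ) ^ κ) (Real.log X) (nl a b) (by norm_num) hR hlogR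
      rw [← hRf] at hn
      rw [pow_mul, ← mul_pow]
      exact pow_le_pow_left₀ hn.1 hn.2 J
    refine le_trans (Finset.sum_le_sum hterm) ?_
    rw [← Finset.mul_sum]
    have hs := Mom_sum hL ha (2 * J) Rf X
    have hRpow : (Rf : ℝ) ^ (2 * J) ≤ X := by
      calc (Rf : ℝ) ^ (2 * J) ≤ ((X : ℝ) ^ κ) ^ (2 * J) := by gcongr
        _ = (X : ℝ) ^ (κ * ((2 * J : ℕ) : ℝ)) := by
            rw [← Real.rpow_natCast, ← Real.rpow_mul hX0.le]
        _ ≤ (X : ℝ) ^ (1 : ℝ) := by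
            apply Real.rpow_le_rpow_of_exponent_le hX1.le
            push_cast
            linarith
        _ = X := Real.rpow_one _
    have hprod : ∏ p ∈ (Ioc 0 Rf).filter Nat.Prime, (1 + (2 : ℝ) ^ (2 * J) / (p : ℝ)) ≤
        B * (1 + Real.log X) ^ ((2 : ℝ) ^ (2 * J)) := by
      refine le_trans (hTot 0 Rf hRf2) ?_
      have hRf1 : (1 : ℝ) ≤ Rf := by exact_mod_cast (by omega : 1 ≤ Rf)
      have e0 : 0 ≤ Real.log (Rf : ℝ) := Real.log_nonneg hRf1
      have e1 : Real.log (Rf : ℝ) ≤ Real.log X := Real.log_le_log (by linarith) (le_trans hRfR hRX)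
      gcongr
    have hprod2 : B * (1 + Real.log X) ^ ((2 : ℝ) ^ (2 * J)) ≤
        B * (2 : ℝ) ^ ((2 : ℝ) ^ (2 * J)) * (Real.log X) ^ ((2 : ℝ) ^ (2 * J)) := by
      rw [mul_assoc, ← Real.mul_rpow (by norm_num) (by linarith)]
      gcongr
      linarith
    have hLP : 1 ≤ (Real.log X) ^ ((2 : ℝ) ^ (2 * J)) := Real.one_le_rpow hlog1 hP0.le
    have hfin : ∑ b ∈ Icc 1 X,
        ((((Icc 1 Rf).filter Squarefree).filter (fun d => d ∣ nl a b)).card : ℝ) ^ (2 * J) ≤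
        X * ((Real.log X) * (Real.log X) ^ ((2 : ℝ) ^ (2 * J))) := by
      refine le_trans hs ?_
      calc X * (∏ p ∈ (Ioc 0 Rf).filter Nat.Prime, (1 + (2 : ℝ) ^ (2 * J) / (p : ℝ))) +
            (Rf : ℝ) ^ (2 * J)
          ≤ X * (B * (2 : ℝ) ^ ((2 : ℝ) ^ (2 * J)) * (Real.log X) ^ ((2 : ℝ) ^ (2 * J))) + X * 1 := by
            rw [mul_one]
            gcongr
            exact le_trans hprod hprod2
        _ = X * (B * (2 : ℝ) ^ ((2 : ℝ) ^ (2 * J)) * (Real.log X) ^ ((2 : ℝ) ^ (2 * J)) + 1) := by ring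
        _ ≤ X * ((Real.log X) * (Real.log X) ^ ((2 : ℝ) ^ (2 * J))) := by
            apply mul_le_mul_of_nonneg_left _ hX0.le
            nlinarith
    have hlJ : 0 ≤ (Real.log X) ^ J := by positivity
    calc (Real.log X) ^ J * ∑ b ∈ Icc 1 X,
        ((((Icc 1 Rf).filter Squarefree).filter (fun d => d ∣ nl a b)).card : ℝ) ^ (2 * J)
        ≤ (Real.log X) ^ J * (X * ((Real.log X) * (Real.log X) ^ ((2 : ℝ) ^ (2 * J)))) :=
          mul_le_mul_of_nonneg_left hfin hlJ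
      _ = (Real.log X) ^ ((J : ℝ) + 2 ^ (2 * J) + 1) * X := by
          have hl0 : 0 < Real.log X := by linarith
          rw [Real.rpow_add hl0, Real.rpow_add hl0, Real.rpow_one, Real.rpow_natCast]
          ring

end Pool.Agent.Lib.MP_9f2731_nt.SS
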