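import Pool.Agent.Lib.MP_9f2731_nt.SS.SpecB

/-!
MP_9f2731_nt, SS, module Pos: positivity of the count by pigeonhole and Szemeredi's theorem.
-/

set_option autoImplicit false

namespace Pool.Agent.Lib.MP_9f2731_nt.SS

open Finset
open Pool.Agent.Lib.MP_9f2731_nt.GP
open Pool.Agent.Lib.MP_9f2731_nt.GP.Rel (av Ind pk HLFC Cut CutG)

/-- the exponents with a large value -/
private noncomputable def Pos_E (D : ℕ) (δ : ℝ) {N : ℕ} (f : ℕ → ZMod N → ℝ) (a h : ZMod N) :
    Finset ℕ :=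
  open Classical in (range D).filter fun e => δ / 2 ≤ f e (2 ^ e * a + h)

/-- the average number of exponents with a large value -/
private theorem Pos_avg (D : ℕ) (δ : ℝ) (hδ : 0 < δ) (N : ℕ) [NeZero N] (f : ℕ → ZMod N → ℝ)
    (hf : ∀ e x, 0 ≤ f e x ∧ f e x ≤ 1) (hs : δ * D * N ≤ ∑ e ∈ range D, ∑ x : ZMod N, f e x)
    (a : ZMod N) : δ / 2 * D * N ≤ ∑ h : ZMod N, ((Pos_E D δ f a h).card : ℝ) := by
  classical
  have h1 : ∑ h : ZMod N, ∑ e ∈ range D, f e (2 ^ e * a + h) =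
      ∑ e ∈ range D, ∑ x : ZMod N, f e x := by
    rw [Finset.sum_comm]
    refine Finset.sum_congr rfl fun e _ => ?_
    exact Fintype.sum_equiv (Equiv.addLeft (2 ^ e * a)) _ _ fun h => rfl
  have h2 : ∀ h : ZMod N, ∑ e ∈ range D, f e (2 ^ e * a + h) ≤
      ((Pos_E D δ f a h).card : ℝ) + δ / 2 * D := by
    intro h
    have h3 : ∀ e ∈ range D, f e (2 ^ e * a + h) ≤
        (if δ / 2 ≤ f e (2 ^ e * a + h) then (1 : ℝ) else 0) + δ / 2 := by
      intro e _
      split_ifs with h4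
      · linarith [(hf e (2 ^ e * a + h)).2]
      · linarith
    refine (Finset.sum_le_sum h3).trans ?_
    rw [Finset.sum_add_distrib, Finset.sum_const, card_range, nsmul_eq_mul]
    have h5 : ∑ e ∈ range D, (if δ / 2 ≤ f e (2 ^ e * a + h) then (1 : ℝ) else 0) =
        ((Pos_E D δ f a h).card : ℝ) := by
      unfold Pos_E
      rw [Finset.sum_boole]
    rw [h5]
    linarith
  have h6 := Finset.sum_le_sum fun (h : ZMod N) (_ : h ∈ univ) => h2 h
  rw [h1, Finset.sum_add_distrib, Finset.sum_const, Finset.card_univ, ZMod.card,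
    nsmul_eq_mul] at h6
  have h7 := hs.trans h6
  linarith

/-- many h have many exponents with a large value -/
private theorem Pos_many (D : ℕ) (hD : 1 ≤ D) (δ : ℝ) (hδ : 0 < δ) (N : ℕ) [NeZero N]
    (f : ℕ → ZMod N → ℝ) (hf : ∀ e x, 0 ≤ f e x ∧ f e x ≤ 1)
    (hs : δ * D * N ≤ ∑ e ∈ range D, ∑ x : ZMod N, f e x) (a : ZMod N) :
    ∃ H : Finset (ZMod N), δ / 4 * N ≤ (H.card : ℝ) ∧
      ∀ h ∈ H, δ / 4 * D ≤ ((Pos_E D δ f a h).card : ℝ) := by
  classical
  refine ⟨univ.filter fun h => δ / 4 * D ≤ ((Pos_E D δ f a h).card : ℝ), ?_,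
    fun h hh => (mem_filter.1 hh).2⟩
  set H : Finset (ZMod N) := univ.filter fun h => δ / 4 * D ≤ ((Pos_E D δ f a h).card : ℝ)
    with hH
  have hD0 : (0 : ℝ) < D := by exact_mod_cast hD
  have hcard : ∀ h, ((Pos_E D δ f a h).card : ℝ) ≤ D := by
    intro h
    have h1 : (Pos_E D δ f a h).card ≤ D := by
      refine (card_le_card (filter_subset _ _)).trans ?_
      rw [card_range]
    exact_mod_cast h1
  have h2 : ∀ h ∈ (univ : Finset (ZMod N)), ((Pos_E D δ f a h).card : ℝ) ≤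
      (if h ∈ H then (D : ℝ) else 0) + δ / 4 * D := by
    intro h _
    by_cases hh : h ∈ H
    · rw [if_pos hh]
      have h3 : 0 ≤ δ / 4 * D := by positivity
      linarith [hcard h]
    · rw [if_neg hh]
      have h3 : ¬ δ / 4 * D ≤ ((Pos_E D δ f a h).card : ℝ) := fun h4 =>
        hh (mem_filter.2 ⟨mem_univ _, h4⟩)
      linarith
  have h4 := (Pos_avg D δ hδ N f hf hs a).trans (Finset.sum_le_sum h2)
  rw [Finset.sum_add_distrib, Finset.sum_const, Finset.card_univ, ZMod.card, nsmul_eq_mul,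
    Finset.sum_ite_mem, Finset.univ_inter, Finset.sum_const, nsmul_eq_mul] at h4
  have h5 : (D : ℝ) * (δ / 4 * N) ≤ D * H.card := by nlinarith
  exact le_of_mul_le_mul_left h5 hD0

theorem pPos (hS : S_Szm) : S_Pos := by
  classical
  intro k δ hk hδ
  obtain ⟨D, hD1, hD⟩ := hS k (δ / 4) (by omega) (by positivity)
  have hD0 : (0 : ℝ) < D := by exact_mod_cast hD1
  refine ⟨D, hD1, δ / 4 * (δ / 2) ^ k / (D * (D + 1)), by positivity, ?_⟩
  intro N _ f Q hf hs
  have hN0 : (0 : ℝ) < N := by exact_mod_cast Nat.pos_of_ne_zero (NeZero.ne N)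
  set PP : Finset (ℕ × ℕ) := (range D ×ˢ range (D + 1)).filter fun p =>
    1 ≤ p.2 ∧ p.1 + (k - 1) * p.2 < D with hPP
  set T : ℕ × ℕ → ZMod N → ZMod N → ℝ := fun p a h =>
    ∏ j ∈ range k, f (p.1 + j * p.2) (2 ^ (p.1 + j * p.2) * a + h) with hT
  have hT0 : ∀ p a h, 0 ≤ T p a h := fun p a h => Finset.prod_nonneg fun j _ => (hf _ _).1
  -- a progression for every good h
  have hprog : ∀ a h : ZMod N, δ / 4 * D ≤ ((Pos_E D δ f a h).card : ℝ) →
      ∃ p ∈ PP, (δ / 2) ^ k ≤ T p a h := by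
    intro a h hh
    obtain ⟨e0, d, hd, hE⟩ := hD (Pos_E D δ f a h) (filter_subset _ _) hh
    have hlt : ∀ j, j < k → e0 + j * d < D := fun j hj =>
      mem_range.1 (mem_filter.1 (hE j hj)).1
    have h1 := hlt (k - 1) (by omega)
    have h2 : d ≤ (k - 1) * d := Nat.le_mul_of_pos_left d (by omega)
    refine ⟨(e0, d), ?_, ?_⟩
    · rw [hPP, mem_filter, mem_product, mem_range, mem_range]
      exact ⟨⟨by show e0 < D; omega, by show d < D + 1; omega⟩, hd, h1⟩
    · calc (δ / 2) ^ k = ∏ _j ∈ range k, (δ / 2) := by rw [Finset.prod_const, card_range]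
        _ ≤ T (e0, d) a h := Finset.prod_le_prod (fun _ _ => by positivity)
            fun j hj => (mem_filter.1 (hE j (mem_range.1 hj))).2
  -- the sum for one a
  have hone : ∀ a : ZMod N, δ / 4 * N * (δ / 2) ^ k ≤ ∑ h : ZMod N, ∑ p ∈ PP, T p a h := by
    intro a
    obtain ⟨H, hH1, hH2⟩ := Pos_many D hD1 δ hδ N f hf hs a
    calc δ / 4 * N * (δ / 2) ^ k ≤ H.card * (δ / 2) ^ k :=
          mul_le_mul_of_nonneg_right hH1 (by positivity)
      _ = ∑ _h ∈ H, (δ / 2) ^ k := by rw [Finset.sum_const, nsmul_eq_mul]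
      _ ≤ ∑ h ∈ H, ∑ p ∈ PP, T p a h := by
          refine Finset.sum_le_sum fun h hh => ?_
          obtain ⟨p, hp, hle⟩ := hprog a h (hH2 h hh)
          exact hle.trans (Finset.single_le_sum (fun p _ => hT0 p a h) hp)
      _ ≤ ∑ h : ZMod N, ∑ p ∈ PP, T p a h :=
          Finset.sum_le_sum_of_subset_of_nonneg (Finset.subset_univ _)
            fun h _ _ => Finset.sum_nonneg fun p _ => hT0 p a h
  have hne : PP.Nonempty := by
    obtain ⟨H, hH1, hH2⟩ := Pos_many D hD1 δ hδ N f hf hs 0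
    have h1 : (0 : ℝ) < H.card := lt_of_lt_of_le (by positivity) hH1
    have h2 : 0 < H.card := by exact_mod_cast h1
    obtain ⟨h, hh⟩ := Finset.card_pos.1 h2
    obtain ⟨p, hp, _⟩ := hprog 0 h (hH2 h hh)
    exact ⟨p, hp⟩
  have hcard : (PP.card : ℝ) ≤ D * (D + 1) := by
    have h1 : PP.card ≤ D * (D + 1) := by
      refine (card_le_card (filter_subset _ _)).trans ?_
      rw [card_product, card_range, card_range]
    exact_mod_cast h1
  have htot : ∑ _p ∈ PP, δ / 4 * (δ / 2) ^ k / (D * (D + 1)) * Q.card * N ≤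
      ∑ p ∈ PP, ∑ a ∈ Q, ∑ h : ZMod N, T p a h := by
    have h1 : ∑ p ∈ PP, ∑ a ∈ Q, ∑ h : ZMod N, T p a h =
        ∑ a ∈ Q, ∑ h : ZMod N, ∑ p ∈ PP, T p a h := by
      rw [Finset.sum_comm]
      exact Finset.sum_congr rfl fun a _ => Finset.sum_comm
    rw [h1, Finset.sum_const, nsmul_eq_mul]
    calc (PP.card : ℝ) * (δ / 4 * (δ / 2) ^ k / (D * (D + 1)) * Q.card * N)
        ≤ (D * (D + 1)) * (δ / 4 * (δ / 2) ^ k / (D * (D + 1)) * Q.card * N) :=
          mul_le_mul_of_nonneg_right hcard (by positivity)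
      _ = ∑ _a ∈ Q, δ / 4 * N * (δ / 2) ^ k := by
          rw [Finset.sum_const, nsmul_eq_mul]
          field_simp
      _ ≤ _ := Finset.sum_le_sum fun a _ => hone a
  obtain ⟨p, hp, hle⟩ := Finset.exists_le_of_sum_le hne htot
  obtain ⟨_, hp1, hp2⟩ := mem_filter.1 hp
  exact ⟨p.1, p.2, hp1, hp2, hle⟩

end Pool.Agent.Lib.MP_9f2731_nt.SS
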