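import Pool.Agent.Lib.MP_9f2731_nt.SS.SpecC

/-!
MP_9f2731_nt, SS/Pts: from the group `ZMod N` to integers.
-/

set_option autoImplicit false

namespace Pool.Agent.Lib.MP_9f2731_nt.SS

open Finset
open Pool.Agent.Lib.MP_9f2731_nt.GP
open Pool.Agent.Lib.MP_9f2731_nt.GP.Rel (av Ind pk HLFC Cut CutG)
open Pool.Agent.Lib.MP_9f2731_nt.GP.Asm (eb lfm)

/-- `8 * (2 ^ e * a) < N` for `e < D`. -/
private theorem Pts_small {D N e a : ℕ} (he : e < D) (ha : a * 2 ^ (D + 3) < N) :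
    8 * (2 ^ e * a) < N := by
  have h1 : 2 ^ e ≤ 2 ^ D := Nat.pow_le_pow_right (by norm_num) he.le
  have h2 : 2 ^ e * a ≤ 2 ^ D * a := Nat.mul_le_mul_right a h1
  have h3 : a * 2 ^ (D + 3) = 8 * (2 ^ D * a) := by
    rw [pow_add]; ring
  omega

theorem pPts : S_Pts := by
  intro D N k e0 d _ a h hk hD ha hy
  have hlt : ∀ j : ℕ, j < k → e0 + j * d < D := by
    intro j hj
    have : j * d ≤ (k - 1) * d := Nat.mul_le_mul_right d (by omega)
    omega
  have h0 := hy 0 (by omega)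
  rw [zero_mul, add_zero] at h0
  obtain ⟨h01, h02⟩ := h0
  have hs0 := Pts_small (a := a.val) (by have := hlt 0 (by omega); omega : e0 < D) ha
  set y0 : ℕ := (2 ^ e0 * a + h).val with hy0
  have hle : 2 ^ e0 * a.val ≤ y0 := by omega
  have hcast : (((y0 - 2 ^ e0 * a.val : ℕ)) : ZMod N) = h := by
    rw [Nat.cast_sub hle, Nat.cast_mul, Nat.cast_pow, Nat.cast_ofNat, ZMod.natCast_zmod_val,
      ZMod.natCast_zmod_val]
    ring
  refine ⟨y0 - 2 ^ e0 * a.val, by omega, fun j hj => ?_⟩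
  have hs := Pts_small (a := a.val) (hlt j hj) ha
  have hc : ((2 ^ (e0 + j * d) * a.val + (y0 - 2 ^ e0 * a.val) : ℕ) : ZMod N) =
      2 ^ (e0 + j * d) * a + h := by
    rw [Nat.cast_add, hcast, Nat.cast_mul, Nat.cast_pow, Nat.cast_ofNat, ZMod.natCast_zmod_val]
  rw [← hc]
  exact ZMod.val_cast_of_lt (by omega)

end Pool.Agent.Lib.MP_9f2731_nt.SS
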