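import Pool.Agent.Lib.MP_9f2731_nt.SS.SpecC

/-!
MP_9f2731_nt, SS/Sng: the singular factor of a product (after GP/Asm/Sng.lean).
-/

set_option autoImplicit false

namespace Pool.Agent.Lib.MP_9f2731_nt.SS

open Finset
open Pool.Agent.Lib.MP_9f2731_nt.GP
open Pool.Agent.Lib.MP_9f2731_nt.GP.Rel (av Ind pk HLFC Cut CutG)
open Pool.Agent.Lib.MP_9f2731_nt.GP.Asm (eb lfm)

private theorem Sng_fac_ge {C : ℝ} (hC : 0 ≤ C) (p : ℕ) : (1 : ℝ) ≤ 1 + C / (p : ℝ) := by
  have : 0 ≤ C / (p : ℝ) := div_nonneg hC (Nat.cast_nonneg p)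
  linarith

private theorem Sng_prod_ge {C : ℝ} (hC : 0 ≤ C) (s : Finset ℕ) :
    (1 : ℝ) ≤ ∏ p ∈ s, (1 + C / (p : ℝ)) := by
  calc (1 : ℝ) = ∏ _p ∈ s, (1 : ℝ) := (Finset.prod_const_one).symm
    _ ≤ ∏ p ∈ s, (1 + C / (p : ℝ)) :=
      Finset.prod_le_prod (fun _ _ => zero_le_one) (fun p _ => Sng_fac_ge hC p)

private theorem Sng_ge {C : ℝ} (hC : 0 ≤ C) (w m : ℕ) : 1 ≤ sing C w m := Sng_prod_ge hC _

private theorem Sng_mul {C : ℝ} (hC : 0 ≤ C) (w : ℕ) {m n : ℕ} (hm : m ≠ 0) (hn : n ≠ 0) :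
    sing C w (m * n) ≤ sing C w m * sing C w n := by
  unfold sing
  rw [Nat.primeFactors_mul hm hn, Finset.filter_union, ← Finset.prod_union_inter]
  have h1 := Sng_prod_ge hC (m.primeFactors.filter (fun p => w < p) ∪
    n.primeFactors.filter (fun p => w < p))
  have h2 := Sng_prod_ge hC (m.primeFactors.filter (fun p => w < p) ∩
    n.primeFactors.filter (fun p => w < p))
  nlinarith

private theorem Sng_prod {C : ℝ} (hC : 0 ≤ C) (w : ℕ) {ι : Type} [DecidableEq ι]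
    (P : Finset ι) (m : ι → ℕ) (hm : ∀ i ∈ P, m i ≠ 0) :
    sing C w (∏ i ∈ P, m i) ≤ ∏ i ∈ P, sing C w (m i) := by
  induction P using Finset.induction_on with
  | empty => simp [sing]
  | insert i P hi ih =>
    rw [Finset.prod_insert hi, Finset.prod_insert hi]
    have h1 : ∀ j ∈ P, m j ≠ 0 := fun j hj => hm j (Finset.mem_insert_of_mem hj)
    refine (Sng_mul hC w (hm i (Finset.mem_insert_self i P))
      (Finset.prod_ne_zero_iff.mpr h1)).trans ?_
    exact mul_le_mul_of_nonneg_left (ih h1) (zero_le_one.trans (Sng_ge hC w _))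

private theorem Sng_bern {C : ℝ} (hC : 0 ≤ C) {t : ℝ} (h0 : 0 ≤ t) (h1 : t ≤ 1) (n : ℕ) :
    (1 + C * t) ^ n ≤ 1 + ((1 + C) ^ n - 1) * t := by
  induction n with
  | zero => simp
  | succ n ih =>
    have hK : 0 ≤ (1 + C) ^ n - 1 := by
      have := one_le_pow₀ (M₀ := ℝ) (a := 1 + C) (by linarith) (n := n)
      linarith
    have hCt : 0 ≤ C * t := mul_nonneg hC h0
    calc (1 + C * t) ^ (n + 1) = (1 + C * t) ^ n * (1 + C * t) := pow_succ _ _
      _ ≤ (1 + ((1 + C) ^ n - 1) * t) * (1 + C * t) :=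
          mul_le_mul_of_nonneg_right ih (by linarith)
      _ = 1 + (((1 + C) ^ n - 1) + C) * t + ((1 + C) ^ n - 1) * C * (t * t) := by ring
      _ ≤ 1 + (((1 + C) ^ n - 1) + C) * t + ((1 + C) ^ n - 1) * C * t := by
          have h2 : t * t ≤ t := by nlinarith
          have h3 := mul_le_mul_of_nonneg_left h2 (mul_nonneg hK hC)
          linarith
      _ = 1 + ((1 + C) ^ (n + 1) - 1) * t := by ring

private theorem Sng_pow {C C' : ℝ} (hC : 0 ≤ C) (n : ℕ) (hC' : (1 + C) ^ n - 1 ≤ C') (w m : ℕ) :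
    sing C w m ^ n ≤ sing C' w m := by
  unfold sing
  rw [← Finset.prod_pow]
  refine Finset.prod_le_prod (fun p _ => pow_nonneg (zero_le_one.trans (Sng_fac_ge hC p)) n)
    (fun p hp => ?_)
  have hpp : p.Prime := Nat.prime_of_mem_primeFactors (Finset.mem_filter.mp hp).1
  have hp1 : (1 : ℝ) ≤ (p : ℝ) := by exact_mod_cast hpp.one_lt.le
  have hp0 : (0 : ℝ) < (p : ℝ) := by linarith
  have h1 := Sng_bern hC (t := 1 / (p : ℝ)) (by positivity)
    ((div_le_one hp0).mpr hp1) n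
  have h2 : C * (1 / (p : ℝ)) = C / p := by ring
  rw [h2] at h1
  refine h1.trans ?_
  have h3 := mul_le_mul_of_nonneg_right hC' (by positivity : (0 : ℝ) ≤ 1 / (p : ℝ))
  have h4 : C' * (1 / (p : ℝ)) = C' / p := by ring
  linarith

theorem pSng : S_Sng := by
  classical
  intro n C hC
  refine ⟨max C ((1 + C) ^ n - 1), le_max_left _ _, ?_⟩
  intro w ι P F hcard hF
  have hCp : 0 ≤ max C ((1 + C) ^ n - 1) := hC.le.trans (le_max_left _ _)
  have h1 : sing C w (∏ i ∈ P, F i) ≤ ∏ i ∈ P, sing C w (F i) := Sng_prod hC.le w P F hF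
  rcases P.eq_empty_or_nonempty with hE | hne
  · rw [hE, Finset.prod_empty] at h1
    rw [hE, Finset.sum_empty]
    rw [Finset.prod_empty] at *
    linarith
  obtain ⟨a₀, ha₀, hmax⟩ := Finset.exists_max_image P (fun a => sing C w (F a)) hne
  have h2 : ∏ a ∈ P, sing C w (F a) ≤ sing C w (F a₀) ^ n := by
    calc ∏ a ∈ P, sing C w (F a) ≤ ∏ _a ∈ P, sing C w (F a₀) :=
          Finset.prod_le_prod (fun a _ => zero_le_one.trans (Sng_ge hC.le w _)) hmax
      _ = sing C w (F a₀) ^ P.card := Finset.prod_const _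
      _ ≤ sing C w (F a₀) ^ n := pow_le_pow_right₀ (Sng_ge hC.le w _) hcard
  have h3 : sing C w (F a₀) ^ n ≤ sing (max C ((1 + C) ^ n - 1)) w (F a₀) :=
    Sng_pow hC.le _ (le_max_right _ _) w _
  have h4 : sing (max C ((1 + C) ^ n - 1)) w (F a₀) - 1 ≤
      ∑ a ∈ P, (sing (max C ((1 + C) ^ n - 1)) w (F a) - 1) :=
    Finset.single_le_sum
      (f := fun a : ι => sing (max C ((1 + C) ^ n - 1)) w (F a) - 1)
      (fun a _ => sub_nonneg.mpr (Sng_ge hCp w _)) ha₀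
  linarith

end Pool.Agent.Lib.MP_9f2731_nt.SS
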