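import Pool.Agent.Lib.MP_9f2731_nt.SS.SpecC

/-!
MP_9f2731_nt, SS, module Xav: mean value of the singular terms.
-/

set_option autoImplicit false

namespace Pool.Agent.Lib.MP_9f2731_nt.SS

open Finset
open Pool.Agent.Lib.MP_9f2731_nt.GP
open Pool.Agent.Lib.MP_9f2731_nt.GP.Rel (av Ind pk HLFC Cut CutG)
open Pool.Agent.Lib.MP_9f2731_nt.GP.Asm (eb lfm)
open Pool.Agent.Lib.MP_9f2731_nt.GP.Rom (PZ om ExpStmt TotStmt RlgStmt)

private lemma Xav_one_le (C : ℝ) (hC : 0 < C) (p : ℕ) : (1 : ℝ) ≤ 1 + C / (p : ℝ) := by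
  have : 0 ≤ C / (p : ℝ) := by positivity
  linarith

private lemma Xav_sing_le (C : ℝ) (hC : 0 < C) (w Z n : ℕ) :
    sing C w n ≤ (∏ p ∈ n.primeFactors.filter (fun p => w < p ∧ p ≤ Z), (1 + C / (p : ℝ))) *
      (∏ p ∈ n.primeFactors.filter (fun p => Z < p), (1 + C / (p : ℝ))) := by
  classical
  unfold sing
  rw [← Finset.prod_union]
  · have hsub : n.primeFactors.filter (fun p => w < p) ⊆
        n.primeFactors.filter (fun p => w < p ∧ p ≤ Z) ∪ n.primeFactors.filter (fun p => Z < p) := by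
      intro p hp
      simp only [Finset.mem_union, Finset.mem_filter] at hp ⊢
      by_cases h : p ≤ Z
      · exact Or.inl ⟨hp.1, hp.2, h⟩
      · exact Or.inr ⟨hp.1, by omega⟩
    rw [← Finset.prod_sdiff hsub]
    have hA : (1 : ℝ) ≤ ∏ p ∈ (n.primeFactors.filter (fun p => w < p ∧ p ≤ Z) ∪
        n.primeFactors.filter (fun p => Z < p)) \ n.primeFactors.filter (fun p => w < p),
        (1 + C / (p : ℝ)) := by
      exact Finset.prod_induction _ (fun x : ℝ => 1 ≤ x)
        (fun a b ha hb => one_le_mul_of_one_le_of_one_le ha hb) le_rfl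
        (fun p _ => Xav_one_le C hC p)
    have hB : (0 : ℝ) ≤ ∏ p ∈ n.primeFactors.filter (fun p => w < p), (1 + C / (p : ℝ)) :=
      Finset.prod_nonneg (fun p _ => le_trans zero_le_one (Xav_one_le C hC p))
    nlinarith
  · rw [Finset.disjoint_left]
    intro p hp hp'
    simp only [Finset.mem_filter] at hp hp'
    omega

private lemma Xav_PZ_ne (w Z : ℕ) : PZ w Z ≠ 0 := by
  unfold PZ
  rw [Finset.prod_ne_zero_iff]
  intro p hp
  exact (Finset.mem_filter.mp hp).2.ne_zero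

private lemma Xav_term (h1 : ExpStmt) (h4 : RlgStmt) (C : ℝ) (hC : 0 < C) (w Z n : ℕ) (hZ : 1 ≤ Z)
    (E : ℝ) (hE : 1 ≤ E)
    (hexp : 1 ≤ n → Real.exp (C * (Real.log n / Real.log 2) / Z) ≤ E) :
    sing C w n ≤ (1 + ∑ D ∈ ((PZ w Z).divisors.filter (fun D => D ≠ 1)).filter (fun D => D ∣ n),
      C ^ om D / (D : ℝ)) * E := by
  classical
  have hS : 0 ≤ ∑ D ∈ ((PZ w Z).divisors.filter (fun D => D ≠ 1)).filter (fun D => D ∣ n),
      C ^ om D / (D : ℝ) := Finset.sum_nonneg (fun D _ => by positivity)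
  rcases Nat.eq_zero_or_pos n with hn | hn
  · subst hn
    have : sing C w 0 = 1 := by simp [sing]
    rw [this]
    nlinarith
  · have ha := Xav_sing_le C hC w Z n
    rw [h1.1 C w Z n hn.ne'] at ha
    have hmem : 1 ∈ (PZ w Z).divisors.filter (fun D => D ∣ n) := by
      simp [Xav_PZ_ne w Z]
    rw [← Finset.add_sum_erase _ _ hmem] at ha
    have her : ((PZ w Z).divisors.filter (fun D => D ∣ n)).erase 1 =
        ((PZ w Z).divisors.filter (fun D => D ≠ 1)).filter (fun D => D ∣ n) := by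
      ext D
      simp only [Finset.mem_erase, Finset.mem_filter]
      tauto
    rw [her] at ha
    have h11 : C ^ om 1 / ((1 : ℕ) : ℝ) = 1 := by simp [om]
    rw [h11] at ha
    refine le_trans ha ?_
    apply mul_le_mul_of_nonneg_left _ (by linarith)
    exact le_trans (h4 C n Z hC hn hZ) (hexp hn)

private lemma Xav_sqf {Q : Finset ℕ} (hQ : ∀ p ∈ Q, Nat.Prime p) : Squarefree (∏ p ∈ Q, p) := by
  apply Finset.squarefree_prod_of_pairwise_isCoprime
  · intro p hp q hq hpq
    exact Nat.coprime_iff_isRelPrime.1 ((Nat.coprime_primes (hQ p hp) (hQ q hq)).2 hpq)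
  · intro p hp
    exact (hQ p hp).prime.squarefree

private lemma Xav_gen (C : ℝ) {Q : Finset ℕ} (hQ : ∀ p ∈ Q, Nat.Prime p) :
    ∏ p ∈ Q, (1 + C / (p : ℝ) ^ 2) = ∑ D ∈ (∏ p ∈ Q, p).divisors, C ^ om D / (D : ℝ) ^ 2 := by
  rw [Finset.prod_one_add]
  have hne : (∏ p ∈ Q, p) ≠ 0 := Finset.prod_ne_zero_iff.2 fun p hp => (hQ p hp).ne_zero
  refine Finset.sum_nbij' (fun S => ∏ p ∈ S, p) (fun D => D.primeFactors) ?_ ?_ ?_ ?_ ?_
  · intro S hS
    rw [Finset.mem_powerset] at hS
    exact Nat.mem_divisors.2 ⟨Finset.prod_dvd_prod_of_subset _ _ _ hS, hne⟩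
  · intro D hD
    rw [Finset.mem_powerset]
    have h1 := Nat.primeFactors_mono (Nat.mem_divisors.1 hD).1 hne
    rwa [Nat.primeFactors_prod hQ] at h1
  · intro S hS
    rw [Finset.mem_powerset] at hS
    exact Nat.primeFactors_prod fun p hp => hQ p (hS hp)
  · intro D hD
    exact Nat.prod_primeFactors_of_squarefree
      ((Xav_sqf hQ).squarefree_of_dvd (Nat.mem_divisors.1 hD).1)
  · intro S hS
    rw [Finset.mem_powerset] at hS
    have h1 : om (∏ p ∈ S, p) = S.card := by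
      unfold om
      rw [Nat.primeFactors_prod fun p hp => hQ p (hS hp)]
    rw [h1, Finset.prod_div_distrib, Finset.prod_const, Finset.prod_pow]
    push_cast
    rfl

private lemma Xav_sq (C : ℝ) (hC : 0 < C) (w Z : ℕ) (hw : 1 ≤ w) (hwZ : w ≤ Z) :
    ∑ D ∈ (PZ w Z).divisors, C ^ om D / (D : ℝ) ^ 2 ≤ Real.exp (C / w) := by
  have h := Xav_gen C (Q := (Ioc w Z).filter Nat.Prime) (fun p hp => (Finset.mem_filter.1 hp).2)
  unfold PZ
  rw [← h]
  calc ∏ p ∈ (Ioc w Z).filter Nat.Prime, (1 + C / (p : ℝ) ^ 2)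
      ≤ ∏ p ∈ (Ioc w Z).filter Nat.Prime, Real.exp (C / (p : ℝ) ^ 2) := by
        apply Finset.prod_le_prod
        · intro p _
          positivity
        · intro p _
          have := Real.add_one_le_exp (C / (p : ℝ) ^ 2)
          linarith
    _ = Real.exp (∑ p ∈ (Ioc w Z).filter Nat.Prime, C / (p : ℝ) ^ 2) := (Real.exp_sum _ _).symm
    _ ≤ Real.exp (C / w) := by
        apply Real.exp_le_exp.mpr
        calc ∑ p ∈ (Ioc w Z).filter Nat.Prime, C / (p : ℝ) ^ 2
            ≤ ∑ p ∈ Ioc w Z, C / (p : ℝ) ^ 2 :=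
              Finset.sum_le_sum_of_subset_of_nonneg (Finset.filter_subset _ _)
                (fun p _ _ => by positivity)
          _ = C * ∑ p ∈ Ioc w Z, ((p : ℝ) ^ 2)⁻¹ := by
              rw [Finset.mul_sum]
              exact Finset.sum_congr rfl (fun p _ => by rw [div_eq_mul_inv])
          _ ≤ C * ((w : ℝ)⁻¹ - (Z : ℝ)⁻¹) :=
              mul_le_mul_of_nonneg_left (sum_Ioc_inv_sq_le_sub (by omega) hwZ) hC.le
          _ ≤ C / w := by
              rw [div_eq_mul_inv]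
              apply mul_le_mul_of_nonneg_left _ hC.le
              have : (0 : ℝ) ≤ (Z : ℝ)⁻¹ := by positivity
              linarith

/-- a linear form in the class modulo D: at most N/D + 1 values -/
private lemma Xav_cnt (K1 K2 K3 D N : ℕ) [NeZero N] (hD : 1 ≤ D) (hc : Nat.Coprime K2 D) :
    ((univ.filter (fun u : ZMod N => D ∣ Nat.dist K1 (K2 * u.val + K3))).card : ℝ) ≤
      (N : ℝ) / D + 1 := by
  classical
  have hmod : ∀ u : ℕ, D ∣ Nat.dist K1 (K2 * u + K3) → K1 ≡ K2 * u + K3 [MOD D] := by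
    intro u hu
    unfold Nat.dist at hu
    rcases le_total K1 (K2 * u + K3) with h | h
    · rw [Nat.sub_eq_zero_of_le h, zero_add] at hu
      exact (Nat.modEq_iff_dvd' h).mpr hu
    · rw [Nat.sub_eq_zero_of_le h, add_zero] at hu
      exact ((Nat.modEq_iff_dvd' h).mpr hu).symm
  rcases (univ.filter (fun u : ZMod N => D ∣ Nat.dist K1 (K2 * u.val + K3))).eq_empty_or_nonempty
    with h0 | ⟨u0, hu0⟩
  · rw [h0]
    simp only [Finset.card_empty, Nat.cast_zero]
    positivity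
  · have hu0' := hmod _ (Finset.mem_filter.mp hu0).2
    have hle : (univ.filter (fun u : ZMod N => D ∣ Nat.dist K1 (K2 * u.val + K3))).card ≤
        ((range N).filter (fun n => n ≡ u0.val [MOD D])).card := by
      apply Finset.card_le_card_of_injOn (fun u : ZMod N => u.val)
      · intro u hu
        have hu' := hmod _ (Finset.mem_filter.mp (Finset.mem_coe.mp hu)).2
        rw [Finset.mem_coe, Finset.mem_filter, Finset.mem_range]
        refine ⟨ZMod.val_lt u, ?_⟩
        have h2 : K2 * u.val + K3 ≡ K2 * u0.val + K3 [MOD D] := hu'.symm.trans hu0'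
        have h3 : K2 * u.val ≡ K2 * u0.val [MOD D] := Nat.ModEq.add_right_cancel' K3 h2
        exact Nat.ModEq.cancel_left_of_coprime (by
          rw [Nat.gcd_comm]; exact hc) h3
      · intro u _ u' _ h
        exact ZMod.val_injective N h
    have hcount : ((range N).filter (fun n => n ≡ u0.val [MOD D])).card ≤ N / D + 1 := by
      have h4 := Nat.count_modEq_card (r := D) N (by omega : 0 < D) u0.val
      have h5 : ((range N).filter (fun n => n ≡ u0.val [MOD D])).card =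
          Nat.count (· ≡ u0.val [MOD D]) N := by
        rw [Nat.count_eq_card_filter_range]
      rw [h5, h4]
      split_ifs <;> omega
    calc ((univ.filter (fun u : ZMod N => D ∣ Nat.dist K1 (K2 * u.val + K3))).card : ℝ)
        ≤ ((N / D + 1 : ℕ) : ℝ) := by exact_mod_cast le_trans hle hcount
      _ ≤ (N : ℝ) / D + 1 := by
          push_cast
          have := @Nat.cast_div_le ℝ _ _ _ N D
          linarith

private lemma Xav_cop (w Z D K : ℕ) (hK : ∀ p : ℕ, p.Prime → p ∣ K → p ≤ w) (hD : D ∣ PZ w Z) :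
    Nat.Coprime K D := by
  by_contra hne
  obtain ⟨p, hp, h1, h2⟩ := Nat.Prime.not_coprime_iff_dvd.mp hne
  have h3 : p ∣ PZ w Z := dvd_trans h2 hD
  unfold PZ at h3
  obtain ⟨r, hr, hpr⟩ := (hp.prime.dvd_finsetProd_iff _).mp h3
  simp only [Finset.mem_filter, Finset.mem_Ioc] at hr
  have h4 := (Nat.prime_dvd_prime_iff_eq hp hr.2).mp hpr
  have h5 := hK p hp h1
  omega

private lemma Xav_exp (C A ρ : ℝ) (hA : 0 < A) (hρ : 0 < ρ) :
    ∃ N1 : ℕ, ∀ N : ℕ, N1 ≤ N → Real.exp (C * (Real.log (A * N) / Real.log 2) / N) ≤ 1 + ρ := by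
  have h1 : Filter.Tendsto (fun x : ℝ => Real.log x / x) Filter.atTop (nhds 0) := by
    simpa using Real.isLittleO_log_id_atTop.tendsto_div_nhds_zero
  have h2 : Filter.Tendsto (fun N : ℕ => A * (N : ℝ)) Filter.atTop Filter.atTop :=
    tendsto_natCast_atTop_atTop.const_mul_atTop hA
  have h3 := h1.comp h2
  have h4 : Filter.Tendsto (fun N : ℕ => C * A / Real.log 2 * (Real.log (A * (N : ℝ)) / (A * (N : ℝ))))
      Filter.atTop (nhds (C * A / Real.log 2 * 0)) := h3.const_mul _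
  rw [mul_zero] at h4
  have h5 := (Real.continuous_exp.tendsto 0).comp h4
  rw [Real.exp_zero] at h5
  have h6 := h5.eventually (ge_mem_nhds (show (1 : ℝ) < 1 + ρ by linarith))
  have h7 := h6.and (Filter.eventually_ge_atTop 1)
  rw [Filter.eventually_atTop] at h7
  obtain ⟨N1, hN1⟩ := h7
  refine ⟨N1, fun N hN => ?_⟩
  obtain ⟨h8, h9⟩ := hN1 N hN
  have hN0 : (0 : ℝ) < N := by exact_mod_cast h9
  have hl : 0 < Real.log 2 := Real.log_pos (by norm_num)
  have e : C * (Real.log (A * N) / Real.log 2) / N =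
      C * A / Real.log 2 * (Real.log (A * (N : ℝ)) / (A * (N : ℝ))) := by
    field_simp
  rw [e]
  exact h8

private lemma Xav_asym (B C η : ℝ) (hB : 0 < B) (hη : 0 < η) (hC : 0 < C) :
    ∃ N1 : ℕ, ∀ N : ℕ, N1 ≤ N → B * (1 + Real.log (N : ℝ)) ^ C ≤ η * N := by
  have hc : 0 < η / (B * 2 ^ C) := by positivity
  have hlo := (isLittleO_log_rpow_rpow_atTop C (zero_lt_one (α := ℝ))).def hc
  have hlo2 := tendsto_natCast_atTop_atTop.eventually hlo
  have hl1 : ∀ᶠ N : ℕ in Filter.atTop, (3 : ℝ) ≤ (N : ℝ) :=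
    tendsto_natCast_atTop_atTop.eventually (Filter.eventually_ge_atTop _)
  have hall := hlo2.and hl1
  rw [Filter.eventually_atTop] at hall
  obtain ⟨N1, hN1⟩ := hall
  refine ⟨N1, fun N hN => ?_⟩
  obtain ⟨g1, g2⟩ := hN1 N hN
  have hx0 : (0 : ℝ) < N := by linarith
  have hlog1 : 1 ≤ Real.log (N : ℝ) := by
    rw [Real.le_log_iff_exp_le hx0]
    exact le_trans (le_trans Real.exp_one_lt_d9.le (by norm_num)) g2
  have hlog : 0 ≤ Real.log (N : ℝ) := by linarith
  rw [Real.rpow_one, Real.norm_of_nonneg (Real.rpow_nonneg hlog _), Real.norm_of_nonneg hx0.le] at g1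
  have h2 : (1 + Real.log (N : ℝ)) ^ C ≤ 2 ^ C * Real.log N ^ C := by
    rw [← Real.mul_rpow (by norm_num) hlog]
    exact Real.rpow_le_rpow (by linarith) (by linarith) hC.le
  have h3 : (0 : ℝ) < 2 ^ C := by positivity
  calc B * (1 + Real.log (N : ℝ)) ^ C ≤ B * (2 ^ C * Real.log N ^ C) :=
        mul_le_mul_of_nonneg_left h2 hB.le
    _ ≤ B * (2 ^ C * (η / (B * 2 ^ C) * N)) := by gcongr
    _ = η * N := by field_simp

private lemma Xav_w0 (C ε : ℝ) (hε : 0 < ε) :
    ∃ w1 : ℕ, ∀ w : ℕ, w1 ≤ w → Real.exp (C / w) ≤ 1 + ε := by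
  have h1 : Filter.Tendsto (fun w : ℕ => C / (w : ℝ)) Filter.atTop (nhds 0) :=
    tendsto_const_div_atTop_nhds_zero_nat C
  have h5 := (Real.continuous_exp.tendsto 0).comp h1
  rw [Real.exp_zero] at h5
  have h6 := h5.eventually (ge_mem_nhds (show (1 : ℝ) < 1 + ε by linarith))
  rw [Filter.eventually_atTop] at h6
  exact h6

theorem pXav (hF : S_Fob) (hE : GP.Rom.ExpStmt) (hT : GP.Rom.TotStmt) (hR : GP.Rom.RlgStmt) :
    S_Xav := by
  classical
  intro D M C η hM hC hη
  obtain ⟨wF, hwF⟩ := hF.1 (2 ^ D)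
  obtain ⟨w1, hw1⟩ := Xav_w0 C (η / 4) (by positivity)
  obtain ⟨B, hB, hTot⟩ := hT C hC
  refine ⟨wF + w1 + M + 2, fun w hw => ?_⟩
  have hw2 : 2 ≤ w := by omega
  have hwM : M ≤ w := by omega
  have hWD : 2 ^ D ≤ Wp w := hwF w (by omega)
  have hwe := hw1 w (by omega)
  have hQ0 : 0 < Wq M w := by
    unfold Wq
    have : 0 < Wp w := lt_of_lt_of_le (by positivity) hWD
    positivity
  obtain ⟨A, hA⟩ : ∃ A : ℕ, A = Wq M w ^ 2 * 2 ^ D := ⟨_, rfl⟩
  have hA0 : 0 < A := by rw [hA]; positivity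
  have hA0' : (0 : ℝ) < A := by exact_mod_cast hA0
  have hρ : 0 < min 1 (η / 4) := lt_min one_pos (by positivity)
  obtain ⟨N1, hN1⟩ := Xav_exp C A (min 1 (η / 4)) hA0' hρ
  obtain ⟨N2, hN2⟩ := Xav_asym (2 * B) C (η / 4) (by positivity) (by positivity) hC
  refine ⟨N1 + N2 + w + 2, fun N _ hN b0 hb0 e e' he he' => ?_⟩
  have hN1' := hN1 N (by omega)
  have hN2' := hN2 N (by omega)
  have hN0 : (0 : ℝ) < N := by exact_mod_cast (by omega : 0 < N)
  have hF2 := hF.2 M w D b0 N hM hwM hw2 hWD hb0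
  -- fix v
  rw [Finset.sum_comm]
  have hmain : ∀ v : ZMod N, ∑ u : ZMod N, Xi C M w b0 e e' u v ≤ η * N := by
    intro v
    obtain ⟨K1, hK1⟩ : ∃ K1 : ℕ, K1 = Wq M w * 2 ^ e * (Wq M w * v.val + b0) := ⟨_, rfl⟩
    obtain ⟨K2, hK2⟩ : ∃ K2 : ℕ, K2 = Wq M w * 2 ^ e' * Wq M w := ⟨_, rfl⟩
    obtain ⟨K3, hK3⟩ : ∃ K3 : ℕ, K3 = Wq M w * 2 ^ e' * b0 := ⟨_, rfl⟩
    have hdt : ∀ u : ZMod N, dt (fo M w b0 e u) (fo M w b0 e' v) =
        Nat.dist K1 (K2 * u.val + K3) := by
      intro u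
      rw [hK1, hK2, hK3]
      unfold dt fo
      congr 1
      ring
    have hKp : ∀ p : ℕ, p.Prime → p ∣ K2 → p ≤ w := by
      intro p hp hpK
      have hFo := (hF2 e' e he' he v v).1
      have h4 : ∀ p : ℕ, p.Prime → p ∣ Wq M w * 2 ^ e' → p ≤ w := hFo.2.2.2.1
      rw [hK2] at hpK
      rcases (Nat.Prime.dvd_mul hp).mp hpK with h | h
      · exact h4 p hp h
      · exact h4 p hp (Dvd.dvd.mul_right h _)
    have hterm : ∀ u : ZMod N, Xi C M w b0 e e' u v ≤
        2 * (∑ D' ∈ ((PZ w N).divisors.filter (fun D' => D' ≠ 1)).filter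
          (fun D' => D' ∣ Nat.dist K1 (K2 * u.val + K3)), C ^ om D' / (D' : ℝ)) + η / 4 := by
      intro u
      have hS : 0 ≤ ∑ D' ∈ ((PZ w N).divisors.filter (fun D' => D' ≠ 1)).filter
          (fun D' => D' ∣ Nat.dist K1 (K2 * u.val + K3)), C ^ om D' / (D' : ℝ) :=
        Finset.sum_nonneg (fun D' _ => by positivity)
      unfold Xi
      split_ifs
      · positivity
      · have hm1 : min 1 (η / 4) ≤ 1 := min_le_left _ _
        have hm2 : min 1 (η / 4) ≤ η / 4 := min_le_right _ _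
        have hbd : dt (fo M w b0 e u) (fo M w b0 e' v) ≤ A * N := by
          rw [hA]; exact (hF2 e e' he he' u v).2.2
        rw [hdt u] at hbd ⊢
        have := Xav_term hE hR C hC w N (Nat.dist K1 (K2 * u.val + K3)) (by omega)
          (1 + min 1 (η / 4)) (by linarith) (fun hn => by
            refine le_trans (Real.exp_le_exp.mpr ?_) hN1'
            have hlog2 : 0 < Real.log 2 := Real.log_pos (by norm_num)
            have hn' : (0 : ℝ) < (Nat.dist K1 (K2 * u.val + K3) : ℕ) := by exact_mod_cast hn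
            have hlog : Real.log (Nat.dist K1 (K2 * u.val + K3) : ℕ) ≤ Real.log (A * N) := by
              apply Real.log_le_log hn'
              exact_mod_cast hbd
            gcongr)
        nlinarith
    refine le_trans (Finset.sum_le_sum (fun u _ => hterm u)) ?_
    rw [Finset.sum_add_distrib, ← Finset.mul_sum, Finset.sum_const, Finset.card_univ, ZMod.card,
      nsmul_eq_mul]
    have hswap : ∑ u : ZMod N, (∑ D' ∈ ((PZ w N).divisors.filter (fun D' => D' ≠ 1)).filter
          (fun D' => D' ∣ Nat.dist K1 (K2 * u.val + K3)), C ^ om D' / (D' : ℝ)) =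
        ∑ D' ∈ (PZ w N).divisors.filter (fun D' => D' ≠ 1), C ^ om D' / (D' : ℝ) *
          ((univ.filter (fun u : ZMod N => D' ∣ Nat.dist K1 (K2 * u.val + K3))).card : ℝ) := by
      have : ∀ u ∈ (univ : Finset (ZMod N)),
          (∑ D' ∈ ((PZ w N).divisors.filter (fun D' => D' ≠ 1)).filter
            (fun D' => D' ∣ Nat.dist K1 (K2 * u.val + K3)), C ^ om D' / (D' : ℝ)) =
          ∑ D' ∈ (PZ w N).divisors.filter (fun D' => D' ≠ 1),
            if D' ∣ Nat.dist K1 (K2 * u.val + K3) then C ^ om D' / (D' : ℝ) else 0 := by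
        intro u _
        rw [Finset.sum_filter]
      rw [Finset.sum_congr rfl this, Finset.sum_comm]
      apply Finset.sum_congr rfl
      intro D' _
      rw [← Finset.sum_filter, Finset.sum_const, nsmul_eq_mul, mul_comm]
    rw [hswap]
    have hcount : ∀ D' ∈ (PZ w N).divisors.filter (fun D' => D' ≠ 1), C ^ om D' / (D' : ℝ) *
          ((univ.filter (fun u : ZMod N => D' ∣ Nat.dist K1 (K2 * u.val + K3))).card : ℝ) ≤
        N * (C ^ om D' / (D' : ℝ) ^ 2) + C ^ om D' / (D' : ℝ) := by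
      intro D' hD'
      have hDd : D' ∣ PZ w N := Nat.dvd_of_mem_divisors (Finset.mem_filter.mp hD').1
      have hD1 : 1 ≤ D' := Nat.pos_of_mem_divisors (Finset.mem_filter.mp hD').1
      have hD0 : (0 : ℝ) < D' := by exact_mod_cast hD1
      have hh := Xav_cnt K1 K2 K3 D' N hD1 (Xav_cop w N D' K2 hKp hDd)
      have hcD : 0 ≤ C ^ om D' / (D' : ℝ) := by positivity
      calc C ^ om D' / (D' : ℝ) *
          ((univ.filter (fun u : ZMod N => D' ∣ Nat.dist K1 (K2 * u.val + K3))).card : ℝ)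
          ≤ C ^ om D' / (D' : ℝ) * ((N : ℝ) / D' + 1) := mul_le_mul_of_nonneg_left hh hcD
        _ = N * (C ^ om D' / (D' : ℝ) ^ 2) + C ^ om D' / (D' : ℝ) := by
            field_simp
    have hsum1 := Finset.sum_le_sum hcount
    rw [Finset.sum_add_distrib, ← Finset.mul_sum] at hsum1
    have hsq : ∑ D' ∈ (PZ w N).divisors.filter (fun D' => D' ≠ 1), C ^ om D' / (D' : ℝ) ^ 2 ≤
        η / 4 := by
      have h := Xav_sq C hC w N (by omega) (by omega)
      have hmem : 1 ∈ (PZ w N).divisors := by simp [Xav_PZ_ne w N]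
      rw [← Finset.add_sum_erase _ _ hmem] at h
      have her : (PZ w N).divisors.erase 1 = (PZ w N).divisors.filter (fun D' => D' ≠ 1) := by
        ext D'
        simp only [Finset.mem_erase, Finset.mem_filter]
        tauto
      rw [her] at h
      have h11 : C ^ om 1 / ((1 : ℕ) : ℝ) ^ 2 = 1 := by simp [om]
      rw [h11] at h
      linarith
    have htot : ∑ D' ∈ (PZ w N).divisors.filter (fun D' => D' ≠ 1), C ^ om D' / (D' : ℝ) ≤
        B * (1 + Real.log (N : ℝ)) ^ C := by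
      calc ∑ D' ∈ (PZ w N).divisors.filter (fun D' => D' ≠ 1), C ^ om D' / (D' : ℝ)
          ≤ ∑ D' ∈ (PZ w N).divisors, C ^ om D' / (D' : ℝ) :=
            Finset.sum_le_sum_of_subset_of_nonneg (Finset.filter_subset _ _)
              (fun D' _ _ => by positivity)
        _ = ∏ p ∈ (Ioc w N).filter Nat.Prime, (1 + C / (p : ℝ)) := (hE.2 C w N).symm
        _ ≤ B * (1 + Real.log (N : ℝ)) ^ C := hTot w N (by omega)
    have hNr := mul_le_mul_of_nonneg_left hsq hN0.le
    nlinarith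
  calc ∑ v : ZMod N, ∑ u : ZMod N, Xi C M w b0 e e' u v ≤ ∑ _v : ZMod N, η * N :=
        Finset.sum_le_sum (fun v _ => hmain v)
    _ = η * (N : ℝ) ^ 2 := by
        rw [Finset.sum_const, Finset.card_univ, ZMod.card, nsmul_eq_mul]
        ring

end Pool.Agent.Lib.MP_9f2731_nt.SS
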