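import Pool.Agent.Lib.MP_9f2731_nt.GP.Dhj.All
import Pool.Agent.Lib.MP_9f2731_nt.GP.Rel.All
import Pool.Agent.Lib.MP_9f2731_nt.GP.Rom.All
import Pool.Agent.Lib.MP_9f2731_nt.GP.Sv.Fin
import Pool.Agent.Lib.MP_9f2731_nt.GP.Asm.Eqd
import Pool.Agent.Lib.MP_9f2731_nt.GP.Asm.Sel
import Pool.Agent.Lib.MP_9f2731_nt.SS.Dns
import Pool.Agent.Lib.MP_9f2731_nt.SS.Per
import Pool.Agent.Lib.MP_9f2731_nt.SS.Exp
import Pool.Agent.Lib.MP_9f2731_nt.SS.LocA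
import Pool.Agent.Lib.MP_9f2731_nt.SS.LocB
import Pool.Agent.Lib.MP_9f2731_nt.SS.LocC
import Pool.Agent.Lib.MP_9f2731_nt.SS.Sum
import Pool.Agent.Lib.MP_9f2731_nt.SS.Cor
import Pool.Agent.Lib.MP_9f2731_nt.SS.Mom
import Pool.Agent.Lib.MP_9f2731_nt.SS.Szm
import Pool.Agent.Lib.MP_9f2731_nt.SS.Pos
import Pool.Agent.Lib.MP_9f2731_nt.SS.Cut
import Pool.Agent.Lib.MP_9f2731_nt.SS.Cfg
import Pool.Agent.Lib.MP_9f2731_nt.SS.Fnl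
import Pool.Agent.Lib.MP_9f2731_nt.SS.Sng
import Pool.Agent.Lib.MP_9f2731_nt.SS.Fob
import Pool.Agent.Lib.MP_9f2731_nt.SS.Gen
import Pool.Agent.Lib.MP_9f2731_nt.SS.Xav
import Pool.Agent.Lib.MP_9f2731_nt.SS.Avg
import Pool.Agent.Lib.MP_9f2731_nt.SS.Eqd
import Pool.Agent.Lib.MP_9f2731_nt.SS.Lf1
import Pool.Agent.Lib.MP_9f2731_nt.SS.Lf2
import Pool.Agent.Lib.MP_9f2731_nt.SS.Sec
import Pool.Agent.Lib.MP_9f2731_nt.SS.Maj
import Pool.Agent.Lib.MP_9f2731_nt.SS.Cnt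
import Pool.Agent.Lib.MP_9f2731_nt.SS.Blk
import Pool.Agent.Lib.MP_9f2731_nt.SS.Den
import Pool.Agent.Lib.MP_9f2731_nt.SS.Pts
import Pool.Agent.Lib.MP_9f2731_nt.SS.Bas
import Pool.Agent.Lib.MP_9f2731_nt.SS.Log
import Pool.Agent.Lib.MP_9f2731_nt.SS.Blo

/-!
MP_9f2731_nt, SS: THEOREM SS without hypotheses (all blocks together).
-/

set_option autoImplicit false

namespace Pool.Agent.Lib.MP_9f2731_nt.SS

open Pool.Agent.Lib.MP_9f2731_nt.GP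

/-- correlations of the majorant for linear forms -/
theorem corL : CorLStmt := by
  have aPer := pPer GP.Sv.pLamP pDns
  have aExp := pExp (GP.Sv.pUb GP.Sv.pLamP) GP.Sv.pCrt
  have aThe := GP.Sv.pThe (GP.Sv.pThZ GP.Sv.pMoi)
  have aLocC := pLocC pLocA.2 (pLocB pLocA.1) (GP.Sv.pLocD GP.Sv.pGg GP.Sv.pPex)
  have aSum := pSum aPer aExp GP.Sv.pInv aThe aLocC GP.Sv.pMas GP.Sv.pSng
  exact pCor aSum GP.Sv.fTTb

/-- moments -/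
theorem momL : MomLStmt := pMom GP.Rom.pTot (GP.Rom.pLcm GP.Rom.pExp)

/-- the relative counting theorem -/
theorem rc : RcStmt := by
  have aGcs := GP.Rel.pGcs (GP.Rel.pGst (GP.Rel.pCs1 GP.Rel.pUpd))
  have aPr2 := GP.Rel.pPr2 GP.Rel.pUpd GP.Rel.pMrg
  have aCl := GP.Rel.pCl GP.Rel.pCl0
    (GP.Rel.pCl1 (GP.Rel.pStf aGcs GP.Rel.pAlt) aPr2 (GP.Rel.pVar aPr2 GP.Rel.pMrg))
  have aDmt := GP.Rel.pDmt GP.Rel.pReg GP.Rel.pPhi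
    (GP.Rel.pPol GP.Rel.pPhi (GP.Rel.pPml GP.Rel.pPhi))
  have aNuc := GP.Rel.pNuc aGcs GP.Rel.pAlt GP.Rel.pCfm GP.Rel.pMrg
  exact pFnl (pPos (pSzm GP.Dhj.dhjAll)) aCl aDmt aNuc pCut pCfg

/-- the main step -/
theorem bas : BasStmt := by
  have aAvg := pAvg (pXav pFob GP.Rom.pExp GP.Rom.pTot GP.Rom.pRlg)
  exact pBas rc (pGen corL momL pSng pFob) pFob (pLf1 aAvg GP.Asm.pEqd)
    (pLf2 aAvg pEqd) (pSec aAvg) pMaj (pDen pCnt pBlk) pPts GP.Asm.pSel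

/-- THEOREM SS -/
theorem ssAll : ResStmt := pLog bas

/-- THEOREM SS for dense sets of primes in long intervals -/
theorem longAll : LongStmt := pLong bas

end Pool.Agent.Lib.MP_9f2731_nt.SS
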