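import Pool.Agent.Lib.MP_9f2731_nt.GP.Sv.Spec
import Pool.Agent.Lib.MP_9f2731_nt.GP.Rel.Spec
import Pool.Agent.Lib.MP_9f2731_nt.GP.Rom.Spec
import Pool.Agent.Lib.MP_9f2731_nt.GP.Asm.Spec

/-!
MP_9f2731_nt, directory SS (architect helper14): chains `p_(i+1) = 2^d p_i - (2^d - 1) h` of k primes with
bounded `d` and `h ≤ (log p_1)^C` (THEOREM SS, note 4029). Definitions and interfaces:
Sv: CorLStmt, MomLStmt; Rc: DhjStmt → RcStmt; Asm: RcStmt → CorLStmt → MomLStmt → BasStmt.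
-/

namespace Pool.Agent.Lib.MP_9f2731_nt.SS

open Finset
open Pool.Agent.Lib.MP_9f2731_nt.GP
open Pool.Agent.Lib.MP_9f2731_nt.GP.Rel (av Ind pk HLFC Cut CutG)
open Pool.Agent.Lib.MP_9f2731_nt.GP.Asm (eb lfm)

/-! ### Linear forms -/

/-- the value of the form `a = (u, v)` at b -/
def nl (a : ℕ × ℕ) (b : ℕ) : ℕ := a.1 * b + a.2

/-- admissible forms for the modulus Wp w -/
def Fo (w : ℕ) (a : ℕ × ℕ) : Prop :=
  1 ≤ a.1 ∧ 1 ≤ a.2 ∧ Wp w ∣ a.1 ∧ (∀ p : ℕ, p.Prime → p ∣ a.1 → p ≤ w) ∧ a.2.Coprime (Wp w)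

/-- absolute value of the determinant of two forms -/
def dt (a a' : ℕ × ℕ) : ℕ := Nat.dist (a.1 * a'.2) (a'.1 * a.2)

/-- Correlations of the majorant (with the cutoff of degree 2) for linear forms in one variable. -/
def CorLStmt : Prop :=
  ∀ J : ℕ, ∃ κ C : ℝ, 0 < κ ∧ 2 * J * κ ≤ 1 ∧ 0 < C ∧ ∀ η : ℝ, 0 < η →
    ∃ w0 : ℕ, ∀ w : ℕ, w0 ≤ w → ∃ X0 : ℝ, ∀ X : ℕ, X0 ≤ X → ∀ (σ : Type) [Fintype σ]
    [DecidableEq σ] (a : σ → ℕ × ℕ) (Δ : ℕ), Fintype.card σ ≤ J → (∀ j, Fo w (a j)) → Δ ≠ 0 →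
    (∀ j k, j ≠ k → dt (a j) (a k) ∣ Δ) →
    |(∑ b ∈ Icc 1 X, ∏ j, nu 2 w ((X : ℝ) ^ κ) (nl (a j) b)) / X - 1| ≤
      η + C * (sing C w Δ - 1)

/-- Moments of the majorant for linear forms. -/
def MomLStmt : Prop :=
  ∀ J : ℕ, ∃ C : ℝ, 0 < C ∧ ∀ (w : ℕ) (κ : ℝ), 0 < κ → 2 * J * κ ≤ 1 →
    ∃ X0 : ℝ, ∀ X : ℕ, X0 ≤ X → ∀ a : ℕ × ℕ, Fo w a →
    (∑ b ∈ Icc 1 X, (nu 2 w ((X : ℝ) ^ κ) (nl a b)) ^ J) / X ≤ (Real.log X) ^ C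

/-! ### Relative counting in windows -/

/-- the form `2^(ex j) a + h` in the variables `x 0, ..., x k`, `a = ∑_(l<k) x l`,
`h = x k - ∑_(l<k) 2^(ex l) x l`; it does not contain `x j` -/
def Lf {N : ℕ} (k : ℕ) (ex : ℕ → ℕ) (j : ℕ) (x : Fin (k + 1) → ZMod N) : ZMod N :=
  ∑ l : Fin k, ((2 : ZMod N) ^ ex j - 2 ^ ex (l : ℕ)) * x l.castSucc + x (Fin.last k)

/-- the functions of the k + 1 edges: `f (ex j)` of the form j for j < k, `q` of `a` for j = k -/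
def gW {N : ℕ} (k : ℕ) (f : ℕ → ZMod N → ℝ) (q : ZMod N → ℝ) (ex : ℕ → ℕ) (j : Fin (k + 1))
    (x : Fin (k + 1) → ZMod N) : ℝ :=
  if (j : ℕ) < k then f (ex j) (Lf k ex j x) else q (∑ l : Fin k, x l.castSucc)

/-- the exponents in arithmetic progression -/
def pr (e0 d : ℕ) (j : ℕ) : ℕ := e0 + j * d

/-- Relative counting theorem in D windows: D functions dominated by pseudorandom majorants with
positive total mean contain the pattern `2^(e_j) a + h`, a small, e_j a progression. -/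
def RcStmt : Prop :=
  ∀ (k : ℕ) (δ : ℝ), 2 ≤ k → 0 < δ → ∃ D : ℕ, 1 ≤ D ∧ ∃ (η : ℝ) (N0 : ℕ), 0 < η ∧
    ∀ (N : ℕ) [NeZero N], N.Prime → N0 ≤ N → ∀ ν f : ℕ → ZMod N → ℝ,
      (∀ e x, 0 ≤ f e x ∧ f e x ≤ ν e x) → (∀ e, e < D → LFC (k + 1) η (ν e)) →
      (∀ e0 d : ℕ, 1 ≤ d → e0 + (k - 1) * d < D → HLFC η (gW k ν (fun _ => 1) (pr e0 d))) →
      δ * D * N ≤ ∑ e ∈ range D, ∑ x : ZMod N, f e x →
      ∃ e0 d : ℕ, 1 ≤ d ∧ e0 + (k - 1) * d < D ∧ ∃ a h : ZMod N, 1 ≤ a.val ∧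
        a.val * 2 ^ (D + 3) < N ∧ ∀ j : ℕ, j < k → 0 < f (e0 + j * d) (2 ^ (e0 + j * d) * a + h)

/-! ### Windows -/

/-- the modulus -/
def Wq (M w : ℕ) : ℕ := M * Wp w

/-- the form belonging to the exponent e and the point y: `Q (2^e b + y) + b0`, `Q = Wq M w` -/
def fo {N : ℕ} (M w b0 e : ℕ) (y : ZMod N) : ℕ × ℕ := (Wq M w * 2 ^ e, Wq M w * y.val + b0)

/-- the majorant on the window e belonging to b -/
noncomputable def nub (M w : ℕ) (κ : ℝ) (b0 X b : ℕ) {N : ℕ} (e : ℕ) (y : ZMod N) : ℝ :=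
  nu 2 w ((X : ℝ) ^ κ) (nl (fo M w b0 e y) b)

open Classical in
/-- the normalized indicator of A on the middle part of the window -/
noncomputable def fb (M w : ℕ) (κ : ℝ) (b0 X b : ℕ) (A : Finset ℕ) {N : ℕ} (e : ℕ)
    (y : ZMod N) : ℝ :=
  if N ≤ 4 * y.val ∧ 2 * y.val < N ∧ nl (fo M w b0 e y) b ∈ A then
    ((Wp w).totient / (Wp w) : ℝ) * Real.log ((X : ℝ) ^ κ) * (3 / 4)
  else 0

/-- residues modulo Wq M w -/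
def Rs (M w b0 : ℕ) : Prop := 1 ≤ b0 ∧ b0 < Wq M w ∧ b0.Coprime (Wq M w)

open Classical in
/-- singular term of two points of the windows -/
noncomputable def Xi (C : ℝ) (M w b0 : ℕ) {N : ℕ} (e e' : ℕ) (u v : ZMod N) : ℝ :=
  if e = e' ∧ u = v then 0 else sing C w (dt (fo M w b0 e u) (fo M w b0 e' v)) - 1

/-- the size of the windows -/
def Scl (c : ℝ) (X N : ℕ) : Prop :=
  N.Prime ∧ (Real.log X) ^ c ≤ N ∧ (N : ℝ) ≤ 4 * (Real.log X) ^ c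

/-- A is a set of primes in (Z, 2^D Z] of logarithmic density at least δ -/
def Dens (D : ℕ) (δ : ℝ) (Z : ℕ) (A : Finset ℕ) : Prop :=
  (∀ p ∈ A, p.Prime ∧ Z < p ∧ p ≤ 2 ^ D * Z) ∧ δ * D ≤ ∑ p ∈ A, Real.log p / p

/-- The main theorem in terms of `m = p_i - h`. -/
def BasStmt : Prop :=
  ∀ k : ℕ, 3 ≤ k → ∃ c : ℝ, 0 < c ∧ ∀ δ : ℝ, 0 < δ → ∃ D : ℕ, 1 ≤ D ∧ ∀ M : ℕ, 1 ≤ M →
    ∃ Z0 : ℕ, ∀ Z : ℕ, Z0 ≤ Z → ∀ A : Finset ℕ, Dens D δ Z A →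
    ∃ e0 d m h : ℕ, 1 ≤ d ∧ e0 + (k - 1) * d < D ∧ 1 ≤ m ∧ M ∣ m ∧ 1 ≤ h ∧
      (h : ℝ) ≤ (Real.log Z) ^ c ∧ ∀ j : ℕ, j < k → 2 ^ (e0 + j * d) * m + h ∈ A

end Pool.Agent.Lib.MP_9f2731_nt.SS
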