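import Pool.Agent.Lib.MP_9f2731_nt.SS.SpecA

/-!
MP_9f2731_nt, SS, module LocA: every linear form has exactly one zero modulo p, and the local factor at a good prime.
-/

set_option autoImplicit false

namespace Pool.Agent.Lib.MP_9f2731_nt.SS

open Finset
open Pool.Agent.Lib.MP_9f2731_nt.GP
open Pool.Agent.Lib.MP_9f2731_nt.GP.Sv

private theorem locA_one : S_One := by
  intro w p a hp hw hm
  have : Fact p.Prime := ⟨hp⟩
  have ha : ((a.1 : ℕ) : ZMod p) ≠ 0 := by
    rw [Ne, ZMod.natCast_eq_zero_iff]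
    intro h
    have h1 := hm.2.2.2.1 p hp h
    omega
  have hkey : ∀ b : ℕ, p ∣ nl a b ↔ (b : ZMod p) = -(a.2 : ZMod p) * ((a.1 : ℕ) : ZMod p)⁻¹ := by
    intro b
    rw [← ZMod.natCast_eq_zero_iff]
    have e1 : ((nl a b : ℕ) : ZMod p) = ((a.1 : ℕ) : ZMod p) * b + a.2 := by
      unfold nl
      push_cast
      ring
    rw [e1]
    constructor
    · intro h
      have h1 : ((a.1 : ℕ) : ZMod p) * b = -(a.2 : ZMod p) := by linear_combination h
      calc (b : ZMod p) = ((a.1 : ℕ) : ZMod p)⁻¹ * (((a.1 : ℕ) : ZMod p) * b) := by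
            rw [← mul_assoc, inv_mul_cancel₀ ha, one_mul]
        _ = _ := by rw [h1]; ring
    · intro h
      rw [h, mul_comm (-(a.2 : ZMod p)) _, ← mul_assoc, mul_inv_cancel₀ ha]
      ring
  refine ⟨(-(a.2 : ZMod p) * ((a.1 : ℕ) : ZMod p)⁻¹).val, ZMod.val_lt _, fun b hb => ?_⟩
  rw [hkey b]
  constructor
  · intro h
    rw [← h, ZMod.val_natCast, Nat.mod_eq_of_lt hb]
  · intro h
    rw [h, ZMod.natCast_zmod_val]

private theorem locA_ind (p n : ℕ) : ind p n = 0 ∨ ind p n = 1 := by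
  unfold ind
  split_ifs <;> simp

private theorem locA_pair {ι : Type} (c : ℝ) (hc : c = 0 ∨ c = 1) (X Y : Al ι) :
    (1 - c • X) * (1 - c • Y) = 1 + c • (X * Y - X - Y) := by
  rcases hc with rfl | rfl
  · simp
  · simp only [one_smul]
    ring

/-- two different forms are not both divisible by p -/
private theorem locA_uniq {p b : ℕ} {a c : ℕ × ℕ} (hd : ¬ p ∣ dt a c)
    (h1 : p ∣ nl a b) (h2 : p ∣ nl c b) : False := by
  apply hd
  have e1 : (p : ℤ) ∣ (a.1 : ℤ) * b + a.2 := by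
    have := Int.natCast_dvd_natCast.2 h1
    unfold nl at this
    push_cast at this
    exact this
  have e2 : (p : ℤ) ∣ (c.1 : ℤ) * b + c.2 := by
    have := Int.natCast_dvd_natCast.2 h2
    unfold nl at this
    push_cast at this
    exact this
  have e3 : (p : ℤ) ∣ (a.1 : ℤ) * c.2 - (c.1 : ℤ) * a.2 := by
    have h3 := dvd_sub (Dvd.dvd.mul_left e2 (a.1 : ℤ)) (Dvd.dvd.mul_left e1 (c.1 : ℤ))
    have h4 : (a.1 : ℤ) * ((c.1 : ℤ) * b + c.2) - (c.1 : ℤ) * ((a.1 : ℤ) * b + a.2) =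
        (a.1 : ℤ) * c.2 - (c.1 : ℤ) * a.2 := by ring
    rwa [h4] at h3
  have e4 : (p : ℤ) ∣ ((dt a c : ℕ) : ℤ) := by
    unfold dt
    rcases le_total (a.1 * c.2) (c.1 * a.2) with h | h
    · rw [Nat.dist_eq_sub_of_le h, Nat.cast_sub h]
      have h5 : ((c.1 * a.2 : ℕ) : ℤ) - ((a.1 * c.2 : ℕ) : ℤ) =
          -((a.1 : ℤ) * c.2 - (c.1 : ℤ) * a.2) := by
        push_cast
        ring
      rw [h5]
      exact (dvd_neg).2 e3
    · rw [Nat.dist_comm, Nat.dist_eq_sub_of_le h, Nat.cast_sub h]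
      have h5 : ((a.1 * c.2 : ℕ) : ℤ) - ((c.1 * a.2 : ℕ) : ℤ) =
          (a.1 : ℤ) * c.2 - (c.1 : ℤ) * a.2 := by
        push_cast
        ring
      rw [h5]
      exact e3
  exact Int.natCast_dvd_natCast.1 e4

private theorem locA_main (h1 : S_One) : S_LocA := by
  intro σ _ _ w p a hp hw hm hd
  have hp0 : (p : ℝ) ≠ 0 := by exact_mod_cast hp.ne_zero
  -- the product for one b
  have hb : ∀ b ∈ range p, ∏ i : σ × Bool, (1 - ind p (nl (a i.1) b) • mon (e i p)) =
      1 + ∑ j : σ, ind p (nl (a j) b) • vv p j := by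
    intro b _
    rw [Fintype.prod_prod_type]
    have h2 : ∀ j : σ, ∏ s : Bool, ((1 : Al (σ × Bool)) - ind p (nl (a j) b) • mon (e (j, s) p))
        = 1 + ind p (nl (a j) b) • vv p j := by
      intro j
      rw [Fintype.prod_bool, locA_pair _ (locA_ind _ _)]
      rfl
    have h3 : (∏ j : σ, ∏ s : Bool, ((1 : Al (σ × Bool)) -
        ind p (nl (a (j, s).1) b) • mon (e (j, s) p))) =
        ∏ j : σ, (1 + ind p (nl (a j) b) • vv p j) := Finset.prod_congr rfl fun j _ => h2 j
    rw [h3]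
    by_cases hex : ∃ j0, p ∣ nl (a j0) b
    · obtain ⟨j0, hj0⟩ := hex
      have h4 : ∀ j, j ≠ j0 → ind p (nl (a j) b) = 0 := by
        intro j hj
        unfold ind
        rw [if_neg]
        intro h5
        exact locA_uniq (hd j j0 hj) h5 hj0
      rw [Finset.prod_eq_single j0 (fun j _ hj => by rw [h4 j hj]; simp)
        (fun h => absurd (mem_univ _) h),
        Finset.sum_eq_single j0 (fun j _ hj => by rw [h4 j hj]; simp)
        (fun h => absurd (mem_univ _) h)]
    · push Not at hex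
      have h4 : ∀ j, ind p (nl (a j) b) = 0 := by
        intro j
        unfold ind
        rw [if_neg (hex j)]
      simp [h4]
  -- the sum over b
  have hs : ∀ j : σ, ∑ b ∈ range p, ind p (nl (a j) b) = 1 := by
    intro j
    obtain ⟨b0, hb0, hb1⟩ := h1 w p (a j) hp hw (hm j)
    have h2 : ∀ b ∈ range p, ind p (nl (a j) b) = if b = b0 then 1 else 0 := by
      intro b hb
      unfold ind
      simp only [hb1 b (mem_range.1 hb)]
    rw [Finset.sum_congr rfl h2, Finset.sum_ite_eq' (range p) b0, if_pos (mem_range.2 hb0)]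
  unfold EL
  rw [Finset.sum_congr rfl hb, Finset.sum_add_distrib, Finset.sum_comm]
  have h2 : ∀ j : σ, ∑ b ∈ range p, ind p (nl (a j) b) • (vv p j : Al (σ × Bool)) = vv p j := by
    intro j
    rw [← Finset.sum_smul, hs j, one_smul]
  rw [Finset.sum_congr rfl fun j _ => h2 j, smul_add, Finset.sum_const, card_range]
  congr 1
  rw [← Nat.cast_smul_eq_nsmul ℝ, smul_smul, one_div, inv_mul_cancel₀ hp0, one_smul]

theorem pLocA : S_One ∧ S_LocA := ⟨locA_one, locA_main locA_one⟩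

end Pool.Agent.Lib.MP_9f2731_nt.SS
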