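import Pool.Agent.Lib.MP_9f2731_nt.SS.Defs

/-!
MP_9f2731_nt, SS (helper14), chapter Sv: CorLStmt and MomLStmt, the correlations and moments of the sieve majorant for
linear forms `u b + v`. Everything is an adaptation of the proved files of GP/Sv (helper84) and GP/Rom: the number
`nf w m b = Wp w * b * m + 1` becomes `nl a b = a.1 * b + a.2`, `Sm w m` becomes `Fo w a`, and `Nat.dist (m j) (m k)` becomes
`dt (a j) (a k)`. Rules: a module `X.lean` in this directory starts with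
`import Pool.Agent.Lib.MP_9f2731_nt.SS.SpecA`, `namespace Pool.Agent.Lib.MP_9f2731_nt.SS`, `open Finset`,
`open Pool.Agent.Lib.MP_9f2731_nt.GP`, `open Pool.Agent.Lib.MP_9f2731_nt.GP.Sv` and proves the theorem `pX`; statements
under Uses are hypotheses in this order (those of GP.Sv are the propositions of GP/Sv/Spec.lean, they are proved). Copy
the corresponding file of GP/Sv and change it.
-/

open Finset

namespace Pool.Agent.Lib.MP_9f2731_nt.SS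

open Pool.Agent.Lib.MP_9f2731_nt.GP
open Pool.Agent.Lib.MP_9f2731_nt.GP.Sv

/-- local factor at p: average over the residues -/
noncomputable def EL {ι : Type} [Fintype ι] [DecidableEq ι] (a : ι → ℕ × ℕ) (p : ℕ) : Al ι :=
  (1 / (p : ℝ)) • ∑ b ∈ range p, ∏ i, (1 - ind p (nl (a i) b) • mon (e i p))

/-- **Dns**. Uses: nothing. As GP/Sv/Dns.lean: `d i ∣ Pq w R` is prime to `(a i).1` (a common prime is in `Qs w R`, so `> w`, but the prime
factors of `(a i).1` are at most w), so the solutions b of `d i ∣ nl (a i) b` form one class modulo `d i` or none. -/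
def S_Dns : Prop := ∀ (ι : Type) [Fintype ι] (w : ℕ) (R : ℝ) (X : ℕ) (a : ι → ℕ × ℕ) (d : ι → ℕ),
  1 ≤ X → (∀ i, Fo w (a i)) → (∀ i, d i ∣ Pq w R) →
  |(((Icc 1 X).filter (fun b => ∀ i, d i ∣ nl (a i) b)).card : ℝ) / X
    - (((range (Pq w R)).filter (fun b => ∀ i, d i ∣ nl (a i) b)).card : ℝ) / Pq w R| ≤ 1 / X

/-- **Per**. Uses: GP.Sv.S_LamP, S_Dns. As GP/Sv/Per.lean: `nl (a i) b` is positive (`1 ≤ (a i).2`) and prime to `Wp w` (`Wp w ∣ (a i).1` and `(a i).2` is prime to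
`Wp w`). -/
def S_Per : Prop := ∀ (ι : Type) [Fintype ι] [DecidableEq ι] (w : ℕ) (R : ℝ) (X : ℕ)
  (a : ι → ℕ × ℕ), 1 < R → 1 ≤ X → (∀ i, Fo w (a i)) →
  |(∑ b ∈ Icc 1 X, ∏ i, Lam 2 R (nl (a i) b)) / X
    - (∑ b ∈ range (Pq w R), ∏ i, Lam 2 R (nl (a i) b)) / Pq w R| ≤ R ^ (Fintype.card ι) / X

/-- **Exp**. Uses: GP.Sv.S_Ub, GP.Sv.S_Crt. As GP/Sv/Exp.lean (`nl a (b + p) = nl a b + p * a.1`). -/
def S_Exp : Prop := ∀ (ι : Type) [Fintype ι] [DecidableEq ι] (w : ℕ) (R : ℝ) (a : ι → ℕ × ℕ),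
  1 < R → (∀ i, Fo w (a i)) →
  (∑ b ∈ range (Pq w R), ∏ i, Lam 2 R (nl (a i) b)) / Pq w R
    = act (∏ p ∈ Qs w R, EL a p) (Ph R ι) 1

/-- **One**. Uses: nothing. As GP/Sv/One.lean: p does not divide `a.1`. -/
def S_One : Prop := ∀ (w p : ℕ) (a : ℕ × ℕ), p.Prime → w < p → Fo w a →
  ∃ b0 < p, ∀ b < p, (p ∣ nl a b ↔ b = b0)

/-- **LocA**. Uses: S_One. As GP/Sv/LocA.lean. At most one j has `p ∣ nl (a j) b`: if p divides both numbers for `j ≠ k`, with `a j = (u, v)`, `a k = (u', v')`, it divides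
`u (u' b + v') - u' (u b + v) = u v' - u' v`, so it divides `dt (a j) (a k)`. -/
def S_LocA : Prop := ∀ (σ : Type) [Fintype σ] [DecidableEq σ] (w p : ℕ) (a : σ → ℕ × ℕ),
  p.Prime → w < p → (∀ j, Fo w (a j)) → (∀ j k, j ≠ k → ¬ p ∣ dt (a j) (a k)) →
  EL (fun i : σ × Bool => a i.1) p = 1 + (1 / (p : ℝ)) • ∑ j, vv p j

/-- **LocB**. Uses: S_One. As GP/Sv/LocB.lean. -/
def S_LocB : Prop := ∀ (σ : Type) [Fintype σ] [DecidableEq σ] (w p : ℕ) (a : σ → ℕ × ℕ),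
  p.Prime → w < p → (∀ j, Fo w (a j)) →
  Nm (EL (fun i : σ × Bool => a i.1) p - 1) ((Fintype.card σ : ℝ) * (4 ^ Fintype.card σ + 1) / p)

/-- **LocC**. Uses: S_LocA, S_LocB, GP.Sv.S_LocD. As GP/Sv/LocC.lean. -/
def S_LocC : Prop := ∀ n : ℕ, ∃ C : ℝ, 0 < C ∧ ∀ (σ : Type) [Fintype σ] [DecidableEq σ] (w K p : ℕ)
  (a : σ → ℕ × ℕ), Fintype.card σ ≤ n → 2 ≤ K → p.Prime → w < p → (∀ j, Fo w (a j)) →
  Nm (EL (fun i : σ × Bool => a i.1) p * DD K p - 1) (C / p) ∧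
  ((∀ j k, j ≠ k → ¬ p ∣ dt (a j) (a k)) →
    Nm (EL (fun i : σ × Bool => a i.1) p * DD K p - 1) (C / (p : ℝ) ^ 2))

/-- **Sum**. Uses: S_Per, S_Exp, GP.Sv.S_Inv, GP.Sv.S_The, S_LocC, GP.Sv.S_Mas, GP.Sv.S_Sng. As GP/Sv/Sum.lean. -/
def S_Sum : Prop := ∀ n : ℕ, ∃ C : ℝ, 0 < C ∧ ∀ (σ : Type) [Fintype σ] [DecidableEq σ] (w : ℕ)
  (R T : ℝ) (X Δ : ℕ) (a : σ → ℕ × ℕ), Fintype.card σ ≤ n → 1 ≤ w → 1 < R → 1 ≤ X → Δ ≠ 0 →
  (∀ j, Fo w (a j)) → (∀ j k, j ≠ k → dt (a j) (a k) ∣ Δ) →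
  (∀ b c : ℕ, |TT w R b c| ≤ T) →
  |(∑ b ∈ Icc 1 X, ∏ j : σ, Lam 2 R (nl (a j) b) ^ 2) / X - TT w R 1 1 ^ Fintype.card σ|
    ≤ R ^ (2 * Fintype.card σ) / X + T ^ Fintype.card σ * (Real.exp (C / w) * sing C w Δ - 1)

/-- **Cor**. Uses: S_Sum, GP.Sv.S_TTb. As GP/Sv/Cor.lean: `κ = 1/(4 (J+1))`; here the index type σ and Δ are given (no `Del S`), otherwise the same proof with `l = 2`. -/
def S_Cor : Prop := CorLStmt

/-- **Mom**. Uses: GP.Rom.TotStmt, GP.Rom.LcmStmt. As GP/Rom/Mom.lean with `l = 2` and the number `nl a b`; instead of CnbStmt: for `D ≥ 1` squarefree or not, at most `X/D + 1` values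
b in Icc 1 X satisfy `D ∣ nl a b` if D is prime to `a.1` (one class modulo D). Here D = lcm of divisors of numbers `nl a b`: for `D ∣ nl a b` a common prime p of D and `a.1` would divide `a.2`, but `p ≤ w` divides
`Wp w` (p ∣ a.1 gives p ≤ w) and `a.2` is prime to `Wp w`; so if D is not prime to `a.1` there is no such b. -/
def S_Mom : Prop := MomLStmt

end Pool.Agent.Lib.MP_9f2731_nt.SS
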