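import Pool.Agent.Lib.MP_9f2731_nt.SS.Defs

/-!
MP_9f2731_nt, SS (helper14), chapter Asm: RcStmt → CorLStmt → MomLStmt → BasStmt → LogStmt. Rules: a module `X.lean` in
this directory starts with `import Pool.Agent.Lib.MP_9f2731_nt.SS.SpecC`,
`namespace Pool.Agent.Lib.MP_9f2731_nt.SS`, `open Finset`, `open Pool.Agent.Lib.MP_9f2731_nt.GP`,
`open Pool.Agent.Lib.MP_9f2731_nt.GP.Rel (av Ind pk HLFC Cut CutG)`,
`open Pool.Agent.Lib.MP_9f2731_nt.GP.Asm (eb lfm)` and proves the theorem `pX`; statements under Uses are hypotheses in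
this order. All modules are independent. The model is GP/Asm (same names of the modules where possible).
Notation of the proofs: Q = Wq M w = M * Wp w (w ≥ M ≥ 1 always, so the prime factors of Q are ≤ w and φ(Q)/Q = φ(W)/W, W = Wp w),
L = log X, V = (φ(W)/W) log(X^κ) (3/4); `nl (fo M w b0 e y) b = Q (2^e b + y) + b0`.
-/

open Finset

namespace Pool.Agent.Lib.MP_9f2731_nt.SS

open Pool.Agent.Lib.MP_9f2731_nt.GP
open Pool.Agent.Lib.MP_9f2731_nt.GP.Rel (av Ind pk HLFC Cut CutG)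
open Pool.Agent.Lib.MP_9f2731_nt.GP.Asm (eb lfm)

/-- **Sng**. Uses: nothing. Proof as GP/Asm/Sng.lean. `sing C w (a b) ≤ sing C w a * sing C w b` for a, b ≠ 0 (primeFactors_mul, factors ≥ 1), so `sing C w (∏ F i) ≤ ∏ sing C w (F i)`. AM-GM:
`∏_(i≤n) s_i ≤ (1/n) ∑ s_i^n` for s_i ≥ 1, so `∏ s_i - 1 ≤ (1/n) ∑ (s_i^n - 1) ≤ ∑ (s_i^n - 1)`. `(1 + C t)^n ≤ 1 + ((1+C)^n - 1) t` for t = 1/p in [0,1], so `sing C w m ^ n ≤ sing C' w m` with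
`C' = max C ((1+C)^n - 1)` (n = the bound; for card P < n use the exponent card P ≤ n). P empty: both sides 0. -/
def S_Sng : Prop :=
  ∀ (n : ℕ) (C : ℝ), 0 < C → ∃ C' : ℝ, C ≤ C' ∧ ∀ (w : ℕ) (ι : Type) (P : Finset ι) (F : ι → ℕ),
    P.card ≤ n → (∀ i ∈ P, F i ≠ 0) →
    sing C w (∏ i ∈ P, F i) - 1 ≤ ∑ i ∈ P, (sing C' w (F i) - 1)

/-- **Fob** (the forms of the windows). Uses: nothing. Proof. (First) choose a prime p ≥ B and w0 = p: p divides Wp w for w ≥ p. (Second) `y.val < N`. Fo: the prime factors of `Q 2^e` are ≤ w (w ≥ 2, w ≥ M);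
`Q y + b0` is prime to Q as b0 is, and Wp w ∣ Q. dt = `|Q 2^e (Q y' + b0) - Q 2^e' (Q y + b0)|`: if it is 0 then `2^e (Q y' + b0) = 2^e' (Q y + b0)`, so `2^e b0 ≡ 2^e' b0` mod Q, b0 is a unit mod Q, `2^e ≡ 2^e'` mod Q, both are `< 2^D ≤ Q`:
e = e', then y = y'. Size: `Q y + b0 ≤ Q (N-1) + Q - 1 < Q N`. -/
def S_Fob : Prop :=
  (∀ B : ℕ, ∃ w0 : ℕ, ∀ w : ℕ, w0 ≤ w → B ≤ Wp w) ∧
  ∀ (M w D b0 N : ℕ) [NeZero N], 1 ≤ M → M ≤ w → 2 ≤ w → 2 ^ D ≤ Wp w → Rs M w b0 →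
    ∀ e e' : ℕ, e < D → e' < D → ∀ y y' : ZMod N, Fo w (fo M w b0 e y) ∧
      (¬(e = e' ∧ y = y') → dt (fo M w b0 e y) (fo M w b0 e' y') ≠ 0) ∧
      dt (fo M w b0 e y) (fo M w b0 e' y') ≤ Wq M w ^ 2 * 2 ^ D * N

/-- general mean value of products of the majorant over a family of maps ψ i into windows ε i -/
def GenOK (J : ℕ) (κ C C2 : ℝ) : Prop :=
  0 < κ ∧ κ < 1 ∧ 0 < C ∧ 0 < C2 ∧
  ∀ (D M : ℕ) (θ : ℝ), 1 ≤ M → 0 < θ → ∃ w0 : ℕ, ∀ w : ℕ, w0 ≤ w → ∃ X0 : ℝ, ∀ X : ℕ, X0 ≤ X →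
    ∀ b0 : ℕ, Rs M w b0 → ∀ (N : ℕ) [NeZero N] (Y : Type) [Fintype Y] [Nonempty Y] (ι : Type)
    [DecidableEq ι] (I : Finset ι) (ε : ι → ℕ) (ψ : ι → Y → ZMod N), I.card ≤ J →
    (∀ i ∈ I, ε i < D) →
    |eb X (fun b => av (fun y => ∏ i ∈ I, nub M w κ b0 X b (ε i) (ψ i y))) - 1| ≤
      θ + C * ∑ i ∈ I, ∑ i' ∈ I.erase i, av (fun y => Xi C M w b0 (ε i) (ε i') (ψ i y) (ψ i' y)) +
        (Real.log X) ^ C2 * ∑ i ∈ I, ∑ i' ∈ I.erase i,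
          av (fun y => if ε i = ε i' ∧ ψ i y = ψ i' y then (1 : ℝ) else 0)

/-- **Gen**. Uses: CorLStmt, MomLStmt, S_Sng, S_Fob. Proof as GP/Asm/Gen.lean. κ, C1 from CorLStmt for J (J ≥ 1: κ ≤ 1/2), C3 from MomLStmt for J, C' from S_Sng for (J^2, C1), C = max C1 (max C' (C1 ...)) (any C ≥ C', C ≥ C1; sing is monotone in C ≥ 0),
C2 = C3 + 1. w0: 2 ≤ w, M ≤ w, 2^D ≤ Wp w (S_Fob) and the w0 of CorLStmt for η = θ. eb and av commute, so it is enough to prove for every y: |eb ∏_(i∈I) nub(ψ i y) - 1| ≤ θ + C ∑∑ Xi + L^C2 ∑∑ [coincidence].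
(a) no coincidence (ε i = ε i' and ψ i y = ψ i' y only for i = i'): σ = {i // i ∈ I}, `a i = fo M w b0 (ε i) (ψ i y)`, Δ = ∏ over the pairs (i,i') of I.offDiag (≤ J^2 pairs) of dt (a i) (a i') ≠ 0 (S_Fob); CorLStmt: ≤ θ + C1 (sing C1 w Δ - 1) ≤
θ + C1 ∑_(pairs) (sing C' w (dt ..) - 1) ≤ θ + C ∑∑ Xi C (every term Xi ≥ 0).
(b) otherwise the last double sum is ≥ 1. AM-GM: ∏_(i∈I) nu_i ≤ (1/n) ∑ nu_i^n, n = card I ≤ J, nu^n ≤ 1 + nu^J, so eb ∏ ≤ 1 + L^C3 by MomLStmt (forms are admissible by S_Fob), and |eb ∏ - 1| ≤ 2 + L^C3 ≤ L^C2 for X large. -/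
def S_Gen : Prop := ∀ J : ℕ, 1 ≤ J → ∃ κ C C2 : ℝ, GenOK J κ C C2

/-- **Xav** (mean value of the singular terms). Uses: S_Fob, GP.Rom.ExpStmt, GP.Rom.TotStmt, GP.Rom.RlgStmt. Proof. w0: 2 ≤ w, M ≤ w, 2^D ≤ Wp w and exp(C/w) ≤ 1 + η/4 (see below). Fix v; it is enough to bound ∑_u by η N. Let n_u = dt (fo e u) (fo e' v), n_u ≠ 0 for the u with (e,u) ≠ (e',v). Z = N.
sing C w n ≤ (∑_(D' | PZ w N, D' | n) C^om D'/D') (1 + ρ), 1 + ρ = exp(C (log n/log 2)/N), n ≤ Q^2 2^D N: ρ → 0 as N → ∞ (Q fixed), ρ ≤ 1 (Exp, Rlg). For D' | PZ w N (squarefree, prime factors in (w, N]), the numbers u < N with D' | n_u: n_u = |Q 2^e (Q v + b0) - Q 2^e' (Q u + b0)| and the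
coefficient Q^2 2^e' of u is prime to D', so u is in one class mod D': at most N/D' + 1. So ∑_u (sing - 1) ≤ ρ N + 2 ∑_(D' ≠ 1) (C^om D'/D') (N/D' + 1). ∑_(D' | PZ w N) C^om D'/D'^2 = ∏_(w<p≤N) (1 + C/p^2) ≤ exp(C ∑_(p>w) 1/p^2) ≤ exp(C/w) (expansion as in GP/Rom/Exp.lean, or bound
C^om D'/D'^2 by the product formula), and ∑_(D') C^om D'/D' ≤ B (1 + log N)^C (Exp second part, Tot). Total ≤ ρ N + 2 (η/4) N + 2 B (1 + log N)^C ≤ η N for N ≥ N0. -/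
def S_Xav : Prop :=
  ∀ (D M : ℕ) (C η : ℝ), 1 ≤ M → 0 < C → 0 < η → ∃ w0 : ℕ, ∀ w : ℕ, w0 ≤ w → ∃ N0 : ℕ,
    ∀ (N : ℕ) [NeZero N], N0 ≤ N → ∀ b0 : ℕ, Rs M w b0 → ∀ e e' : ℕ, e < D → e' < D →
    ∑ u : ZMod N, ∑ v : ZMod N, Xi C M w b0 e e' u v ≤ η * (N : ℝ) ^ 2

/-- **Avg** (mean value 1 for pairwise independent families). Uses: S_Xav. Proof as GP/Asm/Avg.lean. GenOK with θ/3. By pairwise independence av Xi(ψ i, ψ i') is the mean of Xi over ZMod N × ZMod N, ≤ η; choose η = θ/(3 C J^2 + 1). The mean of [ψ i = ψ i'] is 1/N ≤ L^(-(C2+2)), so the last term is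
≤ J^2 L^(-2) ≤ θ/3 for X large. N ≥ N0 for X large (N ≥ L^(C2+2)). -/
def S_Avg : Prop :=
  ∀ (J : ℕ) (κ C C2 : ℝ), GenOK J κ C C2 → ∀ (D M : ℕ) (θ : ℝ), 1 ≤ M → 0 < θ → ∃ w0 : ℕ,
    ∀ w : ℕ, w0 ≤ w → ∃ X0 : ℝ, ∀ X : ℕ, X0 ≤ X → ∀ b0 : ℕ, Rs M w b0 → ∀ (N : ℕ) [NeZero N], Scl (C2 + 2) X N →
    ∀ (Y : Type) [Fintype Y] [Nonempty Y] (ι : Type) [DecidableEq ι] (I : Finset ι) (ε : ι → ℕ)
    (ψ : ι → Y → ZMod N), I.card ≤ J → (∀ i ∈ I, ε i < D) →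
    (∀ i ∈ I, ∀ i' ∈ I, i ≠ i' → ∀ F : ZMod N × ZMod N → ℝ,
      av (fun y => F (ψ i y, ψ i' y)) = av F) →
    |eb X (fun b => av (fun y => ∏ i ∈ I, nub M w κ b0 X b (ε i) (ψ i y))) - 1| ≤ θ

/-- **Eqd** (the forms Lf are pairwise equidistributed). Uses: nothing. Proof as GP/Asm/Eqd.lean. The coefficient of x l.castSucc in Lf k ex j is `2^(ex j) - 2^(ex l)`, 0 for l = j and a unit for l ≠ j (N prime), the coefficient of x (last) is 1. (First) p = (j,σ): with all variables but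
x (last, σ last) fixed, the form is this variable + const. (Second) p = (j,σ) ≠ p' = (j',σ'). If j = j' then σ i ≠ σ' i for some i ≠ j (both are false at j); a = x (i,σ i), b = x (i,σ' i) are different variables, the first form is c a + const (without b), the
second c b + const (without a), c a unit. If j ≠ j' (both < k): the first form does not contain the variables of the vertex j and contains c a, a = x (j',σ j'), the second does not contain the variables of the vertex j' and contains c' b, b = x (j,σ' j). In all cases (a,b) ↦ (first, second)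
is a bijection of ZMod N × ZMod N with the other variables fixed. (With F : ZMod N × ZMod N → ℝ.) -/
def S_Eqd : Prop :=
  ∀ (k N : ℕ) [NeZero N] (ex : ℕ → ℕ), N.Prime →
    (∀ l l' : ℕ, l < k → l' < k → l ≠ l' → (2 : ZMod N) ^ ex l ≠ 2 ^ ex l') →
    ∀ p p' : Fin (k + 1) × (Fin (k + 1) → Bool), (p.1 : ℕ) < k → (p'.1 : ℕ) < k →
    p.2 p.1 = false → p'.2 p'.1 = false →
    (∀ F : ZMod N → ℝ, av (fun x : Fin (k + 1) × Bool → ZMod N =>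
      F (Lf k ex (p.1 : ℕ) (pk p.2 x))) = av F) ∧
    (p ≠ p' → ∀ F : ZMod N × ZMod N → ℝ, av (fun x : Fin (k + 1) × Bool → ZMod N =>
      F (Lf k ex (p.1 : ℕ) (pk p.2 x), Lf k ex (p'.1 : ℕ) (pk p'.2 x))) = av F)

/-- **Lf1** (linear forms condition in one window, in mean square). Uses: S_Avg, GP.Asm.EqdStmt. Proof as GP/Asm/Lf2.lean. N > k + 1 for X large, so n • is injective on ZMod N for 1 ≤ n < k+1 (N prime). card S ≤ (k+1) 2^(k+1). (1) Avg with Y = Fin (k+1) × Bool → ZMod N, I = S, ε = e (constant),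
ψ p x = frm p.1 (pk p.2 x): eb lfm ∈ [1-θ',1+θ']. (2) Y = pairs (x,x'), ι = Bool × (Fin (k+1) × (Fin (k+1) → Bool)), I = univ ×ˢ S (card ≤ 2 (k+1) 2^(k+1) ≤ J), ψ (false,p) at x, ψ (true,p) at x': pairwise independent by EqdStmt, so eb (lfm^2) ∈ [1-θ',1+θ'].
eb (lfm - 1)^2 ≤ 3θ' ≤ θ. Apply Avg for D. -/
def S_Lf1 : Prop :=
  ∀ (k J : ℕ) (κ C C2 : ℝ), 2 ≤ k → 2 * ((k + 1) * 2 ^ (k + 1)) ≤ J → GenOK J κ C C2 →
    ∀ (D M : ℕ) (θ : ℝ), 1 ≤ M → 0 < θ → ∃ w0 : ℕ, ∀ w : ℕ, w0 ≤ w → ∃ X0 : ℝ, ∀ X : ℕ, X0 ≤ X →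
    ∀ b0 : ℕ, Rs M w b0 → ∀ (N : ℕ) [NeZero N], Scl (C2 + 2) X N → ∀ e : ℕ, e < D →
    ∀ S : Finset (Fin (k + 1) × (Fin (k + 1) → Bool)), (∀ p ∈ S, p.2 p.1 = false) →
      eb X (fun b => (lfm (k + 1) S (fun x : ZMod N => nub M w κ b0 X b e x) - 1) ^ 2) ≤ θ

/-- **Lf2** (linear forms condition for a progression of windows, in mean square). Uses: S_Avg, S_Eqd. Proof. The factors with p.1 = last are 1 (the weight q = 1), so the product over S is the product over S' = {p ∈ S : p.1 < k} of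
`nub (pr e0 d p.1) (Lf k (pr e0 d) p.1 (pk p.2 x))`. For X large N > 2^D; for l ≠ l' < k the exponents pr e0 d l, pr e0 d l' < D are different, so the powers of 2 are different modulo N. As in Lf1: Avg for I = S', ε p = pr e0 d p.1, ψ p x = Lf k (pr e0 d) p.1 (pk p.2 x), pairwise independent by S_Eqd, and for two copies of x. -/
def S_Lf2 : Prop :=
  ∀ (k J : ℕ) (κ C C2 : ℝ), 2 ≤ k → 2 * ((k + 1) * 2 ^ (k + 1)) ≤ J → GenOK J κ C C2 →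
    ∀ (D M : ℕ) (θ : ℝ), 1 ≤ M → 0 < θ → ∃ w0 : ℕ, ∀ w : ℕ, w0 ≤ w → ∃ X0 : ℝ, ∀ X : ℕ, X0 ≤ X →
    ∀ b0 : ℕ, Rs M w b0 → ∀ (N : ℕ) [NeZero N], Scl (C2 + 2) X N → ∀ e0 d : ℕ, 1 ≤ d →
    e0 + (k - 1) * d < D →
    ∀ S : Finset (Fin (k + 1) × (Fin (k + 1) → Bool)), (∀ p ∈ S, p.2 p.1 = false) →
      eb X (fun b => (av (fun x : Fin (k + 1) × Bool → ZMod N => ∏ p ∈ S,
        gW k (fun e (y : ZMod N) => nub M w κ b0 X b e y) (fun _ => 1) (pr e0 d) p.1 (pk p.2 x)) -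
          1) ^ 2) ≤ θ

/-- **Sec** (second moment). Uses: S_Avg. Proof as GP/Asm/Sec.lean. (∑_e av nub e)^2 = ∑_(e,e'<D) av over ZMod N × ZMod N of nub e x * nub e' x' (I = univ : Finset Bool, ε = e, e'; ψ = fst, snd, pairwise independent), each has eb ≤ 2 (Avg with θ = 1). -/
def S_Sec : Prop :=
  ∀ (J : ℕ) (κ C C2 : ℝ), 2 ≤ J → GenOK J κ C C2 → ∀ D M : ℕ, 1 ≤ M → ∃ w0 : ℕ, ∀ w : ℕ, w0 ≤ w →
    ∃ X0 : ℝ, ∀ X : ℕ, X0 ≤ X → ∀ b0 : ℕ, Rs M w b0 → ∀ (N : ℕ) [NeZero N], Scl (C2 + 2) X N →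
      eb X (fun b => (∑ e ∈ range D, av (fun x : ZMod N => nub M w κ b0 X b e x)) ^ 2) ≤
        2 * (D : ℝ) ^ 2

/-- **Maj**. Uses: nothing. Proof as GP/Asm/Maj.lean with l = 2, (2*2-1)/2^2 = 3/4. If fb ≠ 0 then n = nl (fo M w b0 e y) b is in A, a prime > R = X^κ ≥ 1: its divisors are 1 and n, only 1 is ≤ R, Lam 2 R n = 1. -/
def S_Maj : Prop :=
  ∀ (M w b0 X b N : ℕ) [NeZero N] (κ : ℝ) (A : Finset ℕ), 0 < κ → 1 ≤ X →
    (∀ p ∈ A, p.Prime ∧ (X : ℝ) ^ κ < p) → ∀ (e : ℕ) (y : ZMod N),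
      0 ≤ fb M w κ b0 X b A e y ∧ fb M w κ b0 X b A e y ≤ nub M w κ b0 X b e y

/-- **Cnt** (every element of A is counted N/2^(e+3) times). Uses: nothing. Proof. Double counting of the pairs (b, y). Let n be in the filtered set, n = Q m + b0, m = n / Q; `Q (2 N) < n` gives m ≥ 2N, `n ≤ Q 2^e X` and b0 ≥ 1 give m ≤ 2^e X. For every natural number y with N ≤ 4 y, 2 y < N, y ≡ m mod 2^e the number
b = (m - y)/2^e is in [1, X] (m - y ≥ N ≥ 2^e) and Q (2^e b + y) + b0 = n. The number of these y is ≥ N/2^(e+3): the integers in [N/4, N/2) contain an interval of length ≥ N/4 - 1, hence ≥ (N/4 - 1)/2^e - 1 ≥ N/2^(e+3) of them are in a given class (N ≥ 2^(D+4) ≥ 2^(e+5)).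
Different n give different pairs (n is determined by (b,y)). (ZMod N ↔ range N by val / Nat.cast.) -/
def S_Cnt : Prop :=
  ∀ (M w b0 D X N e : ℕ) [NeZero N] (A : Finset ℕ), Rs M w b0 → e < D → 2 ^ (D + 4) ≤ N →
    (N : ℝ) / 2 ^ (e + 3) * ((A.filter (fun n => n % Wq M w = b0 ∧ Wq M w * (2 * N) < n ∧
      n ≤ Wq M w * 2 ^ e * X)).card : ℝ) ≤
    ∑ b ∈ Icc 1 X, ((univ.filter (fun y : ZMod N => N ≤ 4 * y.val ∧ 2 * y.val < N ∧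
      nl (fo M w b0 e y) b ∈ A)).card : ℝ)

/-- **Blk** (choice of the residue class). Uses: nothing. Proof. Every p in A is a prime > Z > Q, so prime to Q, and b0 = p % Q satisfies Rs M w b0 (Q ≥ 2). p is in exactly one interval (2^e Z, 2^(e+1) Z], e < D, and there log p / p ≤ log(2^D Z)/(2^e Z). So
δ D ≤ ∑_(b0) ∑_(e<D) log(2^D Z)/(2^e Z) card {..}, the sum over the φ(Q) classes b0 with Rs M w b0; one of them has at least the mean. (log(2^D Z) ≥ 0; φ(Q) ≥ 1.) -/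
def S_Blk : Prop :=
  ∀ (D M w Z : ℕ) (δ : ℝ) (A : Finset ℕ), 1 ≤ M → 2 ≤ w → 0 < δ → 1 ≤ D → Wq M w < Z →
    Dens D δ Z A →
    ∃ b0 : ℕ, Rs M w b0 ∧ δ * D * Z ≤ ((Wq M w).totient : ℝ) * Real.log (2 ^ D * Z) *
      ∑ e ∈ range D, (1 / 2 ^ e : ℝ) * ((A.filter (fun n => n % Wq M w = b0 ∧ 2 ^ e * Z < n ∧
        n ≤ 2 ^ (e + 1) * Z)).card : ℝ)

/-- **Den** (density in the windows). Uses: S_Cnt, S_Blk. Proof. b0 from S_Blk. X = 2 Z / Q + 1, Q X ≥ 2 Z. eb X ∑_e av fb = ∑_e V/(X N) #{(b,y)} ≥ ∑_e V/(X N) N/2^(e+3) #{n ∈ A : n % Q = b0, Q 2 N < n ≤ Q 2^e X} (Cnt), and this set contains {n ∈ A : n % Q = b0, 2^e Z < n ≤ 2^(e+1) Z}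
(Q (2N) ≤ Z, 2^(e+1) Z ≤ Q 2^e X). So eb ≥ V/(8X) δ D Z/(φ(Q) log(2^D Z)) = (3/32) κ δ D (Z/(Q X)) (log X/log(2^D Z)), because φ(W)/W = φ(Q)/Q (every prime factor of M is ≤ w, so it divides W: Nat.totient_mul_of_prime_of_dvd style, or φ(n)/n = ∏_(p | n) (1 - 1/p) and Q, W have the same prime factors;
Nat.totient_eq_mul_prod_factors). Q X ≤ 2 Z + Q ≤ 3 Z, and log X ≥ (1/2) log(2^D Z) for Z ≥ Z0 (X ≥ 2Z/Q). Total ≥ κ δ D/64. -/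
def S_Den : Prop :=
  ∀ (D M w : ℕ) (κ δ : ℝ), 0 < κ → 0 < δ → 1 ≤ D → 1 ≤ M → M ≤ w → 2 ≤ w → ∃ Z0 : ℕ, ∀ Z : ℕ,
    Z0 ≤ Z → ∀ A : Finset ℕ, Dens D δ Z A → ∃ b0 : ℕ, Rs M w b0 ∧ ∀ (N : ℕ) [NeZero N],
      2 ^ (D + 4) ≤ N → Wq M w * (2 * N) ≤ Z →
      κ * δ * D / 100 ≤ eb (2 * Z / Wq M w + 1) (fun b => ∑ e ∈ range D,
        av (fun x : ZMod N => fb M w κ b0 (2 * Z / Wq M w + 1) b A e x))

/-- **Pts** (from the group to integers). Uses: nothing. Proof. y_j = (2^(e0+jd) a + h).val; 2^(e0+jd) a.val < 2^D a.val < N/8 (e0 + j d < D). y_0 ≥ N/4, so h' = y_0 - 2^e0 a.val is a natural number < N/2. In ZMod N: 2^(e0+jd) a.val + h' = 2^(e0+jd) a + h, and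
2^(e0+jd) a.val + h' < N/8 + N/2 < N, so it is y_j. -/
def S_Pts : Prop :=
  ∀ (D N k e0 d : ℕ) [NeZero N] (a h : ZMod N), 1 ≤ k → e0 + (k - 1) * d < D →
    a.val * 2 ^ (D + 3) < N → (∀ j : ℕ, j < k → N ≤ 4 * (2 ^ (e0 + j * d) * a + h).val ∧
      2 * (2 ^ (e0 + j * d) * a + h).val < N) →
    ∃ h' : ℕ, h' < N ∧ ∀ j : ℕ, j < k →
      (2 ^ (e0 + j * d) * a + h).val = 2 ^ (e0 + j * d) * a.val + h'

/-- **Bas** (main step). Uses: RcStmt, S_Gen, S_Fob, S_Lf1, S_Lf2, S_Sec, S_Maj, S_Den, S_Pts, GP.Asm.SelStmt. Proof as GP/Asm/Bas.lean. k ≥ 3, J = 2 (k+1) 2^(k+1), (κ,C,C2) from Gen, c = C2 + 4. Given δ: δ1 = κ δ/200, (D, η, N0) from RcStmt for (k, δ1) (D ≥ 1). nS = 2^((k+1) 2^(k+1)) (number of sets S),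
θ = min 1 (η^2 δ1^2/(8 nS (D + D^2))). Given M: w ≥ 3, w ≥ M and ≥ the w0 of Lf1, Lf2 (θ), Sec; Q = Wq M w ≥ 6. Z large: X = 2 Z/Q + 1 large; by Bertrand a prime N with L^(C2+2) ≤ N ≤ 4 L^(C2+2) (Scl), N ≥ N0, N ≥ 2^(D+4), Q (2 N) ≤ Z. A: elements are primes > Z ≥ X ≥ X^κ. b0 from Den. Sel with F = (1/D) ∑_e av fb,
V = (1/D) ∑_e av nub (Maj): 2 δ1 ≤ eb F, eb V^2 ≤ 2: at least (δ1^2/2) X of the b ≤ X have F ≥ δ1. By Markov (second part of Sel) and the number of conditions at most (D nS + D^2 nS) X θ/η^2 ≤ (δ1^2/8) X of the b violate |lfm - 1| ≤ η for some e < D, S or the condition of HLFC for some progression (e0, d) (d < D since k ≥ 2) and S. Take a good b.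
RcStmt for N, ν e = nub e, f e = fb e: e0, d, a, h. fb ≠ 0 gives N ≤ 4 y, 2 y < N, nl ∈ A for y = 2^(e0+jd) a + h. Pts: h'. So Q (2^(e0+jd) b + 2^(e0+jd) a.val + h') + b0 = 2^(e0+jd) m + H in A, m = Q (b + a.val) ≥ 1 divisible by M, H = Q h' + b0, 1 ≤ H ≤ Q N ≤ 4 Q L^(C2+2) ≤ (log Z)^c for Z large (X ≤ Z). -/
def S_Bas : Prop := BasStmt

/-- the sequence p starts at q = p 1, its first k terms are in S and it is a chain with ratio 2^d and shift h -/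
def Chn (k : ℕ) (S : Set ℕ) (d h : ℕ) (p : ℕ → ℕ) : Prop :=
  (∀ i : ℕ, 1 ≤ i → i ≤ k → p i ∈ S) ∧
    ∀ i : ℕ, 1 ≤ i → (p (i + 1) : ℤ) = 2 ^ d * p i - (2 ^ d - 1) * h

open Classical in
/-- The theorem: (1) dense sets of primes in a block; (2) almost all primes in the logarithmic sense start a chain of primes. -/
def ResStmt : Prop :=
  ∀ k : ℕ, ∃ C : ℝ, ∀ δ : ℝ, 0 < δ → ∃ D : ℕ, ∀ M : ℕ, 1 ≤ M → ∃ Z₀ : ℕ,
    (∀ Z : ℕ, Z₀ ≤ Z → ∀ A : Finset ℕ, (∀ p ∈ A, p.Prime ∧ Z < p ∧ p ≤ 2 ^ D * Z) →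
      δ * D ≤ ∑ p ∈ A, Real.log p / p →
      ∃ d h : ℕ, 1 ≤ d ∧ d ≤ D ∧ 1 ≤ h ∧ (h : ℝ) ≤ Real.log Z ^ C ∧
        ∃ p, Chn k (A : Set ℕ) d h p ∧ p 1 ≡ h [MOD M]) ∧
    ∀ X : ℕ, Z₀ ≤ X → ∑ q ∈ (Icc 1 X).filter (fun q => Nat.Prime q ∧ ¬∃ d h : ℕ, 1 ≤ d ∧ d ≤ D ∧
      1 ≤ h ∧ (h : ℝ) ≤ Real.log q ^ C ∧ q ≡ h [MOD M] ∧
        ∃ p, p 1 = q ∧ Chn k {n | Nat.Prime n} d h p),
      Real.log q / q ≤ δ * Real.log X

/-- **Log**. Uses: S_Bas. Proof. BasStmt for k' = max k 3: c; C = max c 1 (log Z ≥ 1). Given δ: D from BasStmt for δ/2 (so also for densities ≥ δ), given M: Z0. (1) e0, d, m, h: `p i = 2^(e0 + (i-1) d) m + h` for i ≥ 1; `p (i+1) - h = 2^d (p i - h)`; p 1 ≡ h mod M as M ∣ m; d ≤ D as k' - 1 ≥ 1. (2) Let E be the filtered set,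
B = max Z0 3. For every Z ≥ B the set A = {q ∈ E : Z < q ≤ 2^D Z} violates the density δ/2: otherwise BasStmt gives a chain in A, whose first element q = 2^e0 m + h > Z is the start of a chain of primes with h ≤ (log Z)^c ≤ (log q)^C, q ≡ h mod M: contradiction to q ∈ E. So ∑_(q ∈ E, Z < q ≤ 2^D Z) log q/q < (δ/2) D.
E is covered by [1, B] (the sum over it is ≤ B log B, a constant) and the blocks Z = B 2^(D i), i = 0, 1, .., as long as B 2^(D i) < X: at most log X/(D log 2) + 1 of them. So the sum is ≤ B log B + (δ/2) D (log X/(D log 2) + 1) ≤ B log B + (δ/2) D + 0.73 δ log X ≤ δ log X for X large (log 2 > 0.69). Z₀ = the maximum of all bounds.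
(`q ≡ h [MOD M]` is Nat.ModEq M q h.) -/
def S_Log : Prop := ResStmt

end Pool.Agent.Lib.MP_9f2731_nt.SS
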